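import Pool.Agent.H40.Tr.Spec

/-!
Module BLOCK: comparison of the current with the block densities.
-/

namespace Pool.Agent.H40.Tr

open Finset Filter Topology MeasureTheory
open scoped NNReal

universe u

namespace Block

lemma chain_abs (q : ℕ → ℕ → ℝ) (t : ℕ → ℝ) (K : ℕ) (hK : 1 ≤ K) (ht : ∀ i, 0 ≤ t i)
    (h1 : ∀ a b, a < K → b ≤ K → b ≠ a → b ≠ a + 1 → |q a b - q (a + 1) b| ≤ t a)
    (h2 : ∀ a b, a ≤ K → b < K → a ≠ b → a ≠ b + 1 → |q a b - q a (b + 1)| ≤ t b)
    (h3 : ∀ a, a < K → |q (a + 1) a - q a (a + 1)| ≤ t a) :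
    ∀ a b, a ≤ K → b ≤ K → a ≠ b → |q 1 0 - q a b| ≤ 3 * ∑ i ∈ range K, t i := by
  have hS : ∀ a, a ≤ K → ∑ i ∈ range a, t i ≤ ∑ i ∈ range K, t i := fun a ha =>
    sum_le_sum_of_subset_of_nonneg (range_mono ha) fun i _ _ => ht i
  have hS0 : 0 ≤ ∑ i ∈ range K, t i := sum_nonneg fun i _ => ht i
  have ht0 : t 0 ≤ ∑ i ∈ range K, t i := by
    have := hS 1 hK
    simpa using this
  have c1 : ∀ a, a + 1 ≤ K → |q 1 0 - q (a + 1) 0| ≤ ∑ i ∈ range (a + 1), t i := by
    intro a
    induction a with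
    | zero => intro _; simp [ht 0]
    | succ a ih =>
      intro ha
      have e1 := ih (by omega)
      have e2 := h1 (a + 1) 0 (by omega) (by omega) (by omega) (by omega)
      rw [sum_range_succ]
      have := abs_sub_le (q 1 0) (q (a + 1) 0) (q (a + 1 + 1) 0)
      linarith
  have c2 : ∀ a, a ≤ K → ∀ b, b < a → |q a 0 - q a b| ≤ ∑ i ∈ range b, t i := by
    intro a ha b
    induction b with
    | zero => intro _; simp
    | succ b ih =>
      intro hb
      have e1 := ih (by omega)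
      have e2 := h2 a b (by omega) (by omega) (by omega) (by omega)
      rw [sum_range_succ]
      have := abs_sub_le (q a 0) (q a b) (q a (b + 1))
      linarith
  have c3 : ∀ b, b + 1 ≤ K → |q 0 1 - q 0 (b + 1)| ≤ ∑ i ∈ range (b + 1), t i := by
    intro b
    induction b with
    | zero => intro _; simp [ht 0]
    | succ b ih =>
      intro hb
      have e1 := ih (by omega)
      have e2 := h2 0 (b + 1) (by omega) (by omega) (by omega) (by omega)
      rw [sum_range_succ]
      have := abs_sub_le (q 0 1) (q 0 (b + 1)) (q 0 (b + 1 + 1))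
      linarith
  have c4 : ∀ b, b ≤ K → ∀ a, a < b → |q 0 b - q a b| ≤ ∑ i ∈ range a, t i := by
    intro b hb a
    induction a with
    | zero => intro _; simp
    | succ a ih =>
      intro ha
      have e1 := ih (by omega)
      have e2 := h1 a b (by omega) (by omega) (by omega) (by omega)
      rw [sum_range_succ]
      have := abs_sub_le (q 0 b) (q a b) (q (a + 1) b)
      linarith
  intro a b ha hb hab
  rcases lt_or_gt_of_ne hab with h | h
  · have e0 := h3 0 (by omega)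
    simp only [zero_add] at e0
    obtain ⟨b', rfl⟩ : ∃ b', b = b' + 1 := ⟨b - 1, by omega⟩
    have e1 := c3 b' hb
    have e2 := c4 (b' + 1) hb a h
    have s1 := hS (b' + 1) hb
    have s2 := hS a ha
    have d1 := abs_sub_le (q 1 0) (q 0 1) (q a (b' + 1))
    have d2 := abs_sub_le (q 0 1) (q 0 (b' + 1)) (q a (b' + 1))
    linarith
  · obtain ⟨a', rfl⟩ : ∃ a', a = a' + 1 := ⟨a - 1, by omega⟩
    have e1 := c1 a' ha
    have e2 := c2 (a' + 1) ha b h
    have s1 := hS (a' + 1) ha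
    have s2 := hS b hb
    have d1 := abs_sub_le (q 1 0) (q (a' + 1) 0) (q (a' + 1) b)
    linarith

set_option linter.unusedSectionVars false

variable {V : Type u} [DecidableEq V] (T : FT V)

lemma par_mem_D {x y : V} {n : ℕ} (h : y ∈ T.D x (n + 1)) : T.par y ∈ T.D x n ∧ y ≠ T.o := by
  simp only [FT.D, mem_biUnion] at h
  obtain ⟨z, hz, hy⟩ := h
  have := (T.mem_ch z y).1 hy
  rw [this.2]
  exact ⟨hz, this.1⟩

lemma push (x : V) (n i : ℕ) (f : V → ℝ) :
    ∑ y ∈ T.D x (n + i), T.R y * f (T.par^[i] y) = ∑ z ∈ T.D x n, T.R z * f z := by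
  induction i with
  | zero => simp
  | succ i ih =>
    rw [← ih, ← add_assoc, T.sum_D_succ]
    refine sum_congr rfl fun z hz => ?_
    rw [← T.flow z, sum_mul]
    refine sum_congr rfl fun y hy => ?_
    rw [Function.iterate_succ_apply, ((T.mem_ch z y).1 hy).2]

lemma lev_iter (y : V) (i : ℕ) (h : i ≤ T.lev y) : T.lev (T.par^[i] y) + i = T.lev y := by
  induction i with
  | zero => simp
  | succ i ih =>
    have h1 := ih (by omega)
    rw [Function.iterate_succ_apply']
    have hne : T.par^[i] y ≠ T.o := by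
      intro h2
      rw [h2, T.lev_o] at h1
      omega
    have := T.lev_par _ hne
    omega

lemma cyl_pair (a b : V) : T.Cyl (max (T.lev a) (T.lev b)) (occ a * (1 - occ b) : Ob V) := by
  intro η ζ h
  have ha := h a (T.mem_B.2 (le_max_left _ _))
  have hb := h b (T.mem_B.2 (le_max_right _ _))
  simp [ha, hb]

lemma pair_bd (a b : V) (η : Cfg V) :
    0 ≤ (occ a * (1 - occ b) : Ob V) η ∧ (occ a * (1 - occ b) : Ob V) η ≤ 1 := by
  simp only [ContinuousMap.mul_apply, ContinuousMap.sub_apply, ContinuousMap.one_apply, occ_apply]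
  split_ifs <;> norm_num

lemma W_pair (y a b : V) : T.W y (occ a * (1 - occ b) : Ob V) =
    occ (Equiv.swap y (T.par y) a) * (1 - occ (Equiv.swap y (T.par y) b)) := by
  ext η
  rfl

lemma mem_D_lev' {x y : V} {k : ℕ} (h : y ∈ T.D x k) : T.lev y = T.lev x + k := T.mem_D_lev h

/-- estimate for one vertex. -/
lemma one (E : Ob V →ₗ[ℝ] ℝ) (hE : State E) (τ : V → ℝ) (hτ0 : ∀ y, 0 ≤ τ y)
    (hτ : ∀ y, y ≠ T.o → ∀ (m : ℕ) (g : Ob V), T.Cyl m g → (∀ η, 0 ≤ g η ∧ g η ≤ 1) →
      |E g - E (T.W y g)| ≤ τ y) (K : ℕ) (hK : 1 ≤ K) (y : V) (hy : K ≤ T.lev y) :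
    E (occ (T.par y) * (1 - occ y)) ≤
      ((K : ℝ) + 1) / K * E (bl T K y * (1 - bl T K y)) +
        3 * ∑ i ∈ range K, τ (T.par^[i] y) := by
  set p : ℕ → V := fun i => T.par^[i] y with hp
  have hlev : ∀ i, i ≤ K → T.lev (p i) + i = T.lev y := fun i hi =>
    lev_iter T y i (hi.trans hy)
  have hinj : ∀ i j, i ≤ K → j ≤ K → p i = p j → i = j := by
    intro i j hi hj h
    have h1 := hlev i hi
    have h2 := hlev j hj
    rw [h] at h1
    omega
  have hne : ∀ i, i < K → p i ≠ T.o := by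
    intro i hi h
    have h1 := hlev i hi.le
    rw [h, T.lev_o] at h1
    omega
  have hpar : ∀ i, T.par (p i) = p (i + 1) := by
    intro i
    simp only [hp, Function.iterate_succ_apply']
  set q : ℕ → ℕ → ℝ := fun a b => E (occ (p a) * (1 - occ (p b))) with hq
  have hex : ∀ i, i < K → ∀ a b, |q a b - E (occ (Equiv.swap (p i) (p (i + 1)) (p a)) *
      (1 - occ (Equiv.swap (p i) (p (i + 1)) (p b))))| ≤ τ (p i) := by
    intro i hi a b
    have := hτ (p i) (hne i hi) _ _ (cyl_pair T (p a) (p b)) (pair_bd (p a) (p b))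
    rwa [W_pair, hpar i] at this
  have hchain := chain_abs q (fun i => τ (p i)) K hK (fun i => hτ0 _)
    (by
      intro a b ha hb h1 h2
      have := hex a ha a b
      rwa [Equiv.swap_apply_left, Equiv.swap_apply_of_ne_of_ne
        (fun h => h1 (hinj _ _ hb ha.le h)) (fun h => h2 (hinj _ _ hb (by omega) h))] at this)
    (by
      intro a b ha hb h1 h2
      have := hex b hb a b
      rwa [Equiv.swap_apply_left, Equiv.swap_apply_of_ne_of_ne
        (fun h => h1 (hinj _ _ ha hb.le h)) (fun h => h2 (hinj _ _ ha (by omega) h))] at this)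
    (by
      intro a ha
      have := hex a ha (a + 1) a
      rwa [Equiv.swap_apply_left, Equiv.swap_apply_right] at this)
  -- the block density
  have hbl : (bl T K y * (1 - bl T K y) : Ob V) =
      (((K : ℝ) + 1)⁻¹ * ((K : ℝ) + 1)⁻¹) •
        ∑ a ∈ range (K + 1), ∑ b ∈ range (K + 1), (occ (p a) * (1 - occ (p b)) : Ob V) := by
    have e1 : (1 - bl T K y : Ob V) =
        ((K : ℝ) + 1)⁻¹ • ∑ b ∈ range (K + 1), (1 - occ (p b) : Ob V) := by
      rw [bl, sum_sub_distrib, smul_sub]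
      congr 1
      ext η
      have h0 : ((K : ℝ) + 1) ≠ 0 := by positivity
      simp only [ContinuousMap.one_apply, ContinuousMap.smul_apply, ContinuousMap.sum_apply,
        smul_eq_mul]
      rw [sum_const, card_range, nsmul_eq_mul]
      push_cast
      field_simp
    rw [e1, bl]
    rw [smul_mul_smul_comm, sum_mul_sum]
  have hEbl : E (bl T K y * (1 - bl T K y)) = (((K : ℝ) + 1)⁻¹ * ((K : ℝ) + 1)⁻¹) *
      ∑ a ∈ range (K + 1), ∑ b ∈ range (K + 1), q a b := by
    rw [hbl, map_smul, smul_eq_mul, map_sum]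
    congr 1
    refine sum_congr rfl fun a _ => ?_
    rw [map_sum]
  have hdiag : ∀ a, q a a = 0 := by
    intro a
    have : (occ (p a) * (1 - occ (p a)) : Ob V) = 0 := by
      ext η
      simp only [ContinuousMap.mul_apply, ContinuousMap.sub_apply, ContinuousMap.one_apply,
        occ_apply, ContinuousMap.zero_apply]
      split_ifs <;> norm_num
    simp only [hq, this, map_zero]
  set S := ∑ i ∈ range K, τ (p i) with hS
  have hsum : (K : ℝ) * ((K : ℝ) + 1) * (q 1 0 - 3 * S) ≤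
      ∑ a ∈ range (K + 1), ∑ b ∈ range (K + 1), q a b := by
    have hrow : ∀ a ∈ range (K + 1), (K : ℝ) * (q 1 0 - 3 * S) ≤ ∑ b ∈ range (K + 1), q a b := by
      intro a ha
      rw [← add_sum_erase _ _ ha, hdiag, zero_add]
      have hcard : ((range (K + 1)).erase a).card = K := by
        rw [card_erase_of_mem ha, card_range]; rfl
      calc (K : ℝ) * (q 1 0 - 3 * S) = ∑ b ∈ (range (K + 1)).erase a, (q 1 0 - 3 * S) := by
            rw [sum_const, hcard, nsmul_eq_mul]
        _ ≤ _ := by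
            refine sum_le_sum fun b hb => ?_
            rw [mem_erase] at hb
            have hb2 := mem_range.1 hb.2
            have ha2 := mem_range.1 ha
            have := hchain a b (by omega) (by omega) (fun h => hb.1 h.symm)
            have := (abs_le.1 this).2
            linarith
    calc (K : ℝ) * ((K : ℝ) + 1) * (q 1 0 - 3 * S)
        = ∑ a ∈ range (K + 1), (K : ℝ) * (q 1 0 - 3 * S) := by
          rw [sum_const, card_range, nsmul_eq_mul]; push_cast; ring
      _ ≤ _ := sum_le_sum hrow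
  have hKpos : (0 : ℝ) < K := by exact_mod_cast hK
  have hq10 : q 1 0 = E (occ (T.par y) * (1 - occ y)) := rfl
  rw [← hq10, hEbl]
  have : ((K : ℝ) + 1) / K * ((((K : ℝ) + 1)⁻¹ * ((K : ℝ) + 1)⁻¹) *
      ((K : ℝ) * ((K : ℝ) + 1) * (q 1 0 - 3 * S))) = q 1 0 - 3 * S := by
    field_simp
  have h2 : ((K : ℝ) + 1) / K * ((((K : ℝ) + 1)⁻¹ * ((K : ℝ) + 1)⁻¹) *
      ((K : ℝ) * ((K : ℝ) + 1) * (q 1 0 - 3 * S))) ≤ ((K : ℝ) + 1) / K * ((((K : ℝ) + 1)⁻¹ *
      ((K : ℝ) + 1)⁻¹) * ∑ a ∈ range (K + 1), ∑ b ∈ range (K + 1), q a b) := by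
    gcongr
  linarith

lemma gen_disjoint (x : V) {m n : ℕ} (h : m ≠ n) : Disjoint (T.D x m) (T.D x n) := by
  rw [disjoint_left]
  intro z hz hz'
  have h1 := T.mem_D_lev hz
  have h2 := T.mem_D_lev hz'
  omega

lemma tend (τ : V → ℝ) (C : ℝ)
    (hC : ∀ M : ℕ, ∑ y ∈ (T.B M).erase T.o, T.R y * τ y ^ 2 ≤ C) (x : V) :
    Tendsto (fun n : ℕ => ∑ z ∈ T.D x n, T.R z * τ z ^ 2) atTop (𝓝 0) := by
  have hnn : ∀ z, 0 ≤ T.R z * τ z ^ 2 := fun z => mul_nonneg (T.R_pos z).le (sq_nonneg _)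
  have hs : Summable (fun n : ℕ => ∑ z ∈ T.D x (n + 1), T.R z * τ z ^ 2) := by
    refine summable_of_sum_range_le (c := C) (fun n => sum_nonneg fun z _ => hnn z) fun N => ?_
    rw [← sum_biUnion]
    · refine le_trans (sum_le_sum_of_subset_of_nonneg ?_ fun z _ _ => hnn z)
        (hC (T.lev x + N))
      intro z hz
      rw [mem_biUnion] at hz
      obtain ⟨n, hn, hz⟩ := hz
      rw [mem_range] at hn
      rw [mem_erase, T.mem_B]
      have := T.mem_D_lev hz
      exact ⟨(par_mem_D T hz).2, by omega⟩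
    · intro m _ n _ hmn
      exact gen_disjoint T x (by omega)
  have := hs.tendsto_atTop_zero
  exact (tendsto_add_atTop_iff_nat 1).1 this

end Block

open Block

theorem blockStmt (hD : DissStmt.{u}) (hF : FluxStmt.{u}) : BlockStmt.{u} := by
  intro V _ T lam hlam E hE hst x K hK ε hε
  obtain ⟨τ, hτ0, hτ, hτs⟩ := hD V T lam hlam E hE hst
  obtain ⟨-, -, hfl⟩ := hF V T lam hlam E hE hst
  have ht := tend T τ _ hτs x
  -- choose δ with 3 K sqrt (R x δ) ≤ ε
  have hKpos : (0 : ℝ) < K := by exact_mod_cast hK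
  have hRx := T.R_pos x
  set δ : ℝ := (ε / (3 * K)) ^ 2 / T.R x with hδ
  have hδpos : 0 < δ := by positivity
  obtain ⟨N, hN⟩ := (ht.eventually_lt_const hδpos).exists_forall_of_atTop
  refine ⟨N + 1, fun k hk => ?_⟩
  have hgen : ∀ n ≥ N, ∑ z ∈ T.D x n, T.R z * τ z ≤ ε / (3 * K) := by
    intro n hn
    have h1 := hN n hn
    have hcs : (∑ z ∈ T.D x n, T.R z * τ z) ^ 2 ≤
        (∑ z ∈ T.D x n, T.R z) * ∑ z ∈ T.D x n, T.R z * τ z ^ 2 := by
      exact sum_sq_le_sum_mul_sum_of_sq_le_mul (T.D x n) (r := fun z => T.R z * τ z)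
        (f := fun z => T.R z) (g := fun z => T.R z * τ z ^ 2)
        (fun z _ => (T.R_pos z).le) (fun z _ => mul_nonneg (T.R_pos z).le (sq_nonneg _))
        (fun z _ => by apply le_of_eq; ring)
    rw [T.sum_R_D] at hcs
    have h2 : T.R x * ∑ z ∈ T.D x n, T.R z * τ z ^ 2 ≤ (ε / (3 * K)) ^ 2 := by
      calc T.R x * ∑ z ∈ T.D x n, T.R z * τ z ^ 2 ≤ T.R x * δ := by gcongr
        _ = _ := by rw [hδ]; field_simp
    exact (le_abs_self _).trans (abs_le_of_sq_le_sq (hcs.trans h2) (by positivity))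
  obtain ⟨k', rfl⟩ : ∃ k', k = k' + 1 := ⟨k - 1, by omega⟩
  have hflux : ∑ y ∈ T.D x (k' + 1 + K), T.R y * E (occ (T.par y) * (1 - occ y)) =
      flux T E x := by
    have := hfl x (k' + K)
    rwa [show k' + K + 1 = k' + 1 + K by ring] at this
  rw [← hflux]
  have hmain : ∑ y ∈ T.D x (k' + 1 + K), T.R y * E (occ (T.par y) * (1 - occ y)) ≤
      ∑ y ∈ T.D x (k' + 1 + K), T.R y * (((K : ℝ) + 1) / K * E (bl T K y * (1 - bl T K y)) +
        3 * ∑ i ∈ range K, τ (T.par^[i] y)) := by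
    refine sum_le_sum fun y hy => mul_le_mul_of_nonneg_left ?_ (T.R_pos y).le
    have := T.mem_D_lev hy
    exact one T E hE τ hτ0 hτ K hK y (by omega)
  refine hmain.trans ?_
  have hsplit : ∑ y ∈ T.D x (k' + 1 + K), T.R y * (((K : ℝ) + 1) / K *
      E (bl T K y * (1 - bl T K y)) + 3 * ∑ i ∈ range K, τ (T.par^[i] y)) =
      ((K : ℝ) + 1) / K * ∑ y ∈ T.D x (k' + 1 + K), T.R y * E (bl T K y * (1 - bl T K y)) +
      3 * ∑ i ∈ range K, ∑ y ∈ T.D x (k' + 1 + K), T.R y * τ (T.par^[i] y) := by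
    rw [sum_comm, mul_sum, mul_sum, ← sum_add_distrib]
    refine sum_congr rfl fun y _ => ?_
    rw [← mul_sum]
    ring
  rw [hsplit]
  have hlast : 3 * ∑ i ∈ range K, ∑ y ∈ T.D x (k' + 1 + K), T.R y * τ (T.par^[i] y) ≤ ε := by
    calc 3 * ∑ i ∈ range K, ∑ y ∈ T.D x (k' + 1 + K), T.R y * τ (T.par^[i] y)
        ≤ 3 * ∑ i ∈ range K, ε / (3 * K) := by
          gcongr with i hi
          rw [mem_range] at hi
          have e : k' + 1 + K = (k' + 1 + (K - i)) + i := by omega
          rw [e, push T x (k' + 1 + (K - i)) i τ]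
          exact hgen _ (by omega)
      _ = ε := by
          rw [sum_const, card_range, nsmul_eq_mul]
          field_simp
  linarith

end Pool.Agent.H40.Tr
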