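import Pool.Agent.H40.Tr.Spec

/-!
Module CLOS: two stationary states, one stochastically below the other, with the same density at
the root, are equal.
-/

namespace Pool.Agent.H40.Tr

open Finset Filter Topology MeasureTheory
open scoped NNReal

universe u

namespace ClosAux

variable {V : Type*} [DecidableEq V]

set_option linter.unusedSectionVars false

lemma state_mono {E : Ob V →ₗ[ℝ] ℝ} (hE : State E) {f g : Ob V} (h : ∀ η, f η ≤ g η) :
    E f ≤ E g := by
  have := hE.pos (g - f) (fun η => by
    have := h η
    simp only [ContinuousMap.sub_apply]; linarith)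
  rw [map_sub] at this
  linarith

lemma state_le_norm {E : Ob V →ₗ[ℝ] ℝ} (hE : State E) (f : Ob V) : E f ≤ ‖f‖ := by
  have h : E f ≤ E (‖f‖ • (1 : Ob V)) := state_mono hE (fun η => by
    have := f.norm_coe_le_norm η
    simp only [ContinuousMap.smul_apply, ContinuousMap.one_apply, smul_eq_mul, mul_one]
    exact (le_abs_self _).trans this)
  rw [map_smul, hE.one, smul_eq_mul, mul_one] at h
  exact h

lemma abs_state_le {E : Ob V →ₗ[ℝ] ℝ} (hE : State E) (f : Ob V) : |E f| ≤ ‖f‖ := by
  rw [abs_le]
  refine ⟨?_, state_le_norm hE f⟩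
  have := state_le_norm hE (-f)
  rw [map_neg, norm_neg] at this
  linarith

variable (T : FT V)

lemma act_eq_of_not_mem {y : V} {m : ℕ} (hy : y ∉ T.B (m + 1)) (η : Cfg V) {z : V}
    (hz : z ∈ T.B m) : T.act y η z = η z := by
  rw [T.mem_B] at hy hz
  have hyo : y ≠ T.o := by
    rintro rfl; rw [T.lev_o] at hy; omega
  have h1 : z ≠ y := by rintro rfl; omega
  have h2 : z ≠ T.par y := by
    rintro rfl
    have := T.lev_par y hyo
    omega
  unfold FT.act
  rw [if_neg hyo, if_neg h1, if_neg h2]

lemma A_eq_of_not_mem {y : V} {m : ℕ} {g : Ob V} (hg : T.Cyl m g) (hy : y ∉ T.B (m + 1)) :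
    T.A y g = g := by
  ext η
  rw [T.A_apply]
  exact hg _ _ fun x hx => act_eq_of_not_mem T hy η hx

lemma cyl_A {y : V} {m : ℕ} {g : Ob V} (hg : T.Cyl m g) (hy : y ∈ T.B (m + 1)) :
    T.Cyl (m + 1) (T.A y g) := by
  intro η ζ h
  rw [T.A_apply, T.A_apply]
  refine hg _ _ fun z hz => ?_
  have hz' := T.B_mono (Nat.le_succ m) hz
  unfold FT.act
  by_cases hyo : y = T.o
  · simp only [if_pos hyo]
    rw [h z hz']
  · simp only [if_neg hyo]
    have hp : T.par y ∈ T.B (m + 1) := T.B_mono (Nat.le_succ m) (T.par_mem_B hyo hy)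
    rw [h z hz', h y hy, h _ hp]

lemma cyl_mono {m n : ℕ} (hmn : m ≤ n) {g : Ob V} (hg : T.Cyl m g) : T.Cyl n g :=
  fun η ζ h => hg η ζ fun x hx => h x (T.B_mono hmn hx)

lemma c_pos {lam : ℝ} (hlam : 0 < lam) (y : V) : 0 < T.c lam y := by
  unfold FT.c
  split_ifs
  · exact hlam
  · exact T.R_pos y

lemma mono_A {y : V} {g : Ob V} (hg : Monotone g) : Monotone (T.A y g) := by
  intro η ζ h
  rw [T.A_apply, T.A_apply]
  exact hg (T.act_mono y h)

lemma occ_mono (x : V) {η ζ : Cfg V} (h : η ≤ ζ) : (occ x η : ℝ) ≤ occ x ζ := by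
  have h2 : η x = true → ζ x = true := fun h1 => by
    have := h x
    rw [h1] at this
    exact top_le_iff.1 this
  simp only [occ_apply]
  by_cases h1 : η x = true
  · rw [if_pos h1, if_pos (h2 h1)]
  · rw [if_neg h1]
    split_ifs <;> norm_num

lemma occ_mono_ne {x : V} {η ζ : Cfg V} (h : η ≤ ζ) (hne : η x ≠ ζ x) :
    (occ x η : ℝ) + 1 ≤ occ x ζ := by
  have h2 : η x = true → ζ x = true := fun h1 => by
    have := h x
    rw [h1] at this
    exact top_le_iff.1 this
  simp only [occ_apply]
  have h3 : η x ≠ true := fun h1 => hne (h1.trans (h2 h1).symm)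
  have h4 : ζ x = true := by
    cases hz : ζ x
    · exact absurd ((Bool.eq_false_iff.2 h3).trans hz.symm) hne
    · rfl
  rw [if_neg h3, if_pos h4]
  norm_num

lemma add_occ_monotone (m : ℕ) (f : Ob V) (hf : T.Cyl m f) :
    Monotone (f + (2 * ‖f‖) • ∑ x ∈ T.B m, occ x : Ob V) := by
  intro η ζ h
  simp only [ContinuousMap.add_apply, ContinuousMap.smul_apply, ContinuousMap.sum_apply,
    smul_eq_mul]
  by_cases hex : ∃ x ∈ T.B m, η x ≠ ζ x
  · obtain ⟨x, hx, hne⟩ := hex
    have h1 : (occ x η : ℝ) + 1 ≤ occ x ζ := occ_mono_ne h hne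
    have h2 : ∑ x ∈ T.B m, (occ x η : ℝ) + 1 ≤ ∑ x ∈ T.B m, (occ x ζ : ℝ) := by
      rw [← add_sum_erase _ _ hx, ← add_sum_erase (T.B m) (fun x => (occ x ζ : ℝ)) hx]
      have h3 : ∑ x ∈ (T.B m).erase x, (occ x η : ℝ) ≤ ∑ x ∈ (T.B m).erase x, (occ x ζ : ℝ) :=
        sum_le_sum fun x _ => occ_mono x h
      linarith
    have h3 : f η - f ζ ≤ 2 * ‖f‖ := by
      have a1 := (abs_le.1 (f.norm_coe_le_norm η)).2
      have a2 := (abs_le.1 (f.norm_coe_le_norm ζ)).1
      linarith
    have h4 : 0 ≤ ‖f‖ := norm_nonneg f
    nlinarith [mul_le_mul_of_nonneg_left h2 (by positivity : (0 : ℝ) ≤ 2 * ‖f‖)]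
  · push Not at hex
    rw [hf η ζ hex]
    have h2 : ∑ x ∈ T.B m, (occ x η : ℝ) ≤ ∑ x ∈ T.B m, (occ x ζ : ℝ) :=
      sum_le_sum fun x _ => occ_mono x h
    have := mul_le_mul_of_nonneg_left h2 (by positivity : (0 : ℝ) ≤ 2 * ‖f‖)
    linarith

/-- the class of good observables. -/
def Good (E E' : Ob V →ₗ[ℝ] ℝ) (g : Ob V) : Prop :=
  (∃ m, T.Cyl m g) ∧ Monotone g ∧ E g = E' g

variable {T}

lemma Good.A {lam : ℝ} (hlam : 0 < lam) {E E' : Ob V →ₗ[ℝ] ℝ}
    (hS : Stat T lam E) (hS' : Stat T lam E') (hle : ∀ f : Ob V, Monotone f → E f ≤ E' f)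
    {g : Ob V} (hg : Good T E E' g) (y : V) : Good T E E' (T.A y g) := by
  obtain ⟨⟨m, hm⟩, hmono, heq⟩ := hg
  by_cases hy : y ∈ T.B (m + 1)
  · refine ⟨⟨m + 1, cyl_A T hm hy⟩, mono_A T hmono, ?_⟩
    have h1 := hS m g hm
    have h2 := hS' m g hm
    simp only [FT.L, _root_.sum_apply, _root_.smul_apply, _root_.sub_apply,
      one_apply_eq_self, map_sum, map_smul, map_sub, smul_eq_mul] at h1 h2
    have h3 : ∑ z ∈ T.B (m + 1), T.c lam z * (E' (T.A z g) - E (T.A z g)) = 0 := by
      have : ∑ z ∈ T.B (m + 1), T.c lam z * (E' (T.A z g) - E (T.A z g)) =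
          ∑ z ∈ T.B (m + 1), T.c lam z * (E' (T.A z g) - E' g) -
          ∑ z ∈ T.B (m + 1), T.c lam z * (E (T.A z g) - E g) := by
        rw [← sum_sub_distrib]
        refine sum_congr rfl fun z _ => ?_
        rw [heq]; ring
      rw [this, h1, h2, sub_zero]
    have h4 := (sum_eq_zero_iff_of_nonneg (fun z _ => mul_nonneg (c_pos T hlam z).le
      (sub_nonneg.2 (hle _ (mono_A T hmono))))).1 h3 y hy
    rcases mul_eq_zero.1 h4 with h5 | h5
    · exact absurd h5 (c_pos T hlam y).ne'
    · linarith
  · rw [A_eq_of_not_mem T hm hy]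
    exact ⟨⟨m, hm⟩, hmono, heq⟩

lemma cyl_occ (x : V) : T.Cyl (T.lev x) (occ x) := by
  intro η ζ h
  simp only [occ_apply]
  rw [h x (by rw [T.mem_B])]

/-- `or` of the `n + 1` first values on the path from `x` to the root, times the value at `y`. -/
def hfun (T : FT V) (x y : V) (n : ℕ) (η : Cfg V) : Bool :=
  (decide (∃ i ≤ n, η (T.par^[i] x) = true)) && η y

lemma lev_iter {x : V} {n : ℕ} (hn : n ≤ T.lev x) : T.lev (T.par^[n] x) = T.lev x - n := by
  induction n with
  | zero => simp
  | succ n ih =>
    rw [Function.iterate_succ', Function.comp_apply]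
    have h1 := ih (by omega)
    have h2 : T.par^[n] x ≠ T.o := by
      intro h
      rw [h, T.lev_o] at h1
      omega
    have := T.lev_par _ h2
    omega

end ClosAux

open ClosAux

theorem closStmt (hDense : DenseStmt.{u}) : ClosStmt.{u} := by
  intro V _ T lam hlam E E' hE hE' hS hS' hle hroot
  -- all occupation variables are good
  have hocc : ∀ (n : ℕ) (x : V), T.lev x = n → Good T E E' (occ x) := by
    intro n
    induction n with
    | zero =>
      intro x hx
      rw [T.lev_eq_zero.1 hx]
      refine ⟨⟨_, cyl_occ _⟩, ?_, hroot⟩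
      intro η ζ h
      exact occ_mono _ h
    | succ n ih =>
      intro y hy
      have hyo : y ≠ T.o := by
        rintro rfl; rw [T.lev_o] at hy; omega
      set x := T.par y with hx
      have hlx : T.lev x = n := by
        have := T.lev_par y hyo
        rw [← hx] at this
        omega
      have hgx := ih x hlx
      have hxy : x ≠ y := T.par_ne hyo
      -- general step
      have key : ∀ k ≤ n, ∃ g : Ob V, Good T E E' g ∧
          ∀ η, g η = if (∃ i ≤ k, η (T.par^[i] x) = true) ∧ η y = true then 1 else 0 := by
        intro k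
        induction k with
        | zero =>
          intro _
          refine ⟨T.A y (occ x), hgx.A hlam hS hS' hle y, fun η => ?_⟩
          rw [T.A_apply, occ_apply]
          have : T.act y η x = (η y && η x) := by
            unfold FT.act
            rw [if_neg hyo, if_neg hxy, if_pos hx]
          rw [this]
          have e : (∃ i ≤ 0, η (T.par^[i] x) = true) ↔ η x = true := by
            constructor
            · rintro ⟨i, hi, h⟩
              obtain rfl : i = 0 := by omega
              simpa using h
            · intro h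
              exact ⟨0, le_rfl, by simpa using h⟩
          simp only [e, Bool.and_eq_true]
          congr 1
          exact propext and_comm
        | succ k ihk =>
          intro hk
          obtain ⟨g, hg, hgη⟩ := ihk (by omega)
          set z := T.par^[k] x with hz
          have hlz : T.lev z = n - k := by rw [hz, lev_iter (by omega), hlx]
          have hzo : z ≠ T.o := by
            intro h; rw [h, T.lev_o] at hlz; omega
          have hpz : T.par^[k + 1] x = T.par z := by
            rw [Function.iterate_succ', Function.comp_apply]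
          have hlpz : T.lev (T.par z) = n - k - 1 := by
            have := T.lev_par z hzo
            omega
          refine ⟨T.A z g, hg.A hlam hS hS' hle z, fun η => ?_⟩
          rw [T.A_apply, hgη]
          have e1 : T.act z η y = η y := by
            have h1 : y ≠ z := by rintro h; rw [← h] at hlz; omega
            have h2 : y ≠ T.par z := by rintro h; rw [← h] at hlpz; omega
            unfold FT.act
            rw [if_neg hzo, if_neg h1, if_neg h2]
          have e2 : T.act z η z = (η z || η (T.par z)) := by
            unfold FT.act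
            rw [if_neg hzo, if_pos rfl]
          have e3 : ∀ i < k, T.act z η (T.par^[i] x) = η (T.par^[i] x) := by
            intro i hi
            have hl : T.lev (T.par^[i] x) = n - i := by rw [lev_iter (by omega), hlx]
            have h1 : T.par^[i] x ≠ z := by intro h; rw [h] at hl; omega
            have h2 : T.par^[i] x ≠ T.par z := by intro h; rw [h] at hl; omega
            unfold FT.act
            rw [if_neg hzo, if_neg h1, if_neg h2]
          have e4 : (∃ i ≤ k, T.act z η (T.par^[i] x) = true) ↔
              ∃ i ≤ k + 1, η (T.par^[i] x) = true := by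
            constructor
            · rintro ⟨i, hi, h⟩
              rcases Nat.lt_or_ge i k with h1 | h1
              · rw [e3 i h1] at h
                exact ⟨i, by omega, h⟩
              · obtain rfl : i = k := by omega
                rw [← hz, e2, Bool.or_eq_true] at h
                rcases h with h | h
                · exact ⟨i, by omega, h⟩
                · exact ⟨i + 1, le_rfl, by rw [hpz]; exact h⟩
            · rintro ⟨i, hi, h⟩
              rcases Nat.lt_or_ge i k with h1 | h1
              · exact ⟨i, by omega, by rw [e3 i h1]; exact h⟩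
              · refine ⟨k, le_rfl, ?_⟩
                rw [← hz, e2, Bool.or_eq_true]
                rcases Nat.lt_or_ge k i with h2 | h2
                · obtain rfl : i = k + 1 := by omega
                  rw [hpz] at h
                  exact Or.inr h
                · obtain rfl : i = k := by omega
                  exact Or.inl h
          rw [e1]
          simp only [e4]
      obtain ⟨g, hg, hgη⟩ := key n le_rfl
      have hroot' : T.par^[n] x = T.o := by
        rw [← T.lev_eq_zero, lev_iter (by omega), hlx]
        omega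
      have : T.A T.o g = occ y := by
        ext η
        rw [T.A_apply, hgη, occ_apply]
        have e1 : T.act T.o η y = η y := by
          unfold FT.act
          rw [if_pos rfl, if_neg hyo]
        have e2 : ∃ i ≤ n, T.act T.o η (T.par^[i] x) = true := by
          refine ⟨n, le_rfl, ?_⟩
          rw [hroot']
          unfold FT.act
          rw [if_pos rfl, if_pos rfl]
        rw [e1]
        simp only [e2, true_and]
      rw [← this]
      exact hg.A hlam hS hS' hle T.o
  have hocc' : ∀ x, E (occ x) = E' (occ x) := fun x => (hocc _ x rfl).2.2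
  have hcyl_le : ∀ (m : ℕ) (f : Ob V), T.Cyl m f → E f ≤ E' f := by
    intro m f hf
    have := hle _ (add_occ_monotone T m f hf)
    simp only [map_add, map_smul, map_sum, hocc', smul_eq_mul] at this
    linarith
  have hcyl : ∀ (m : ℕ) (f : Ob V), T.Cyl m f → E f = E' f := by
    intro m f hf
    refine le_antisymm (hcyl_le m f hf) ?_
    have h1 : T.Cyl m (-f) := fun η ζ h => by
      simp only [ContinuousMap.neg_apply, hf η ζ h]
    have := hcyl_le m (-f) h1
    rw [map_neg, map_neg] at this
    linarith
  intro f
  have hb : ∀ ε > 0, |E f - E' f| ≤ 2 * ε := by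
    intro ε hε
    obtain ⟨m, g, hg, hfg⟩ := hDense V T f ε hε
    have h1 := abs_state_le hE (f - g)
    have h2 := abs_state_le hE' (f - g)
    rw [map_sub] at h1 h2
    have h3 := hcyl m g hg
    calc |E f - E' f| = |(E f - E g) - (E' f - E' g)| := by rw [h3]; ring_nf
      _ ≤ |E f - E g| + |E' f - E' g| := abs_sub _ _
      _ ≤ 2 * ε := by linarith
  have : |E f - E' f| ≤ 0 := by
    refine le_of_forall_pos_le_add fun ε hε => ?_
    have := hb (ε / 2) (by positivity)
    linarith
  have := abs_nonpos_iff.1 this
  linarith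

end Pool.Agent.H40.Tr
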