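import Mathlib

/-!
TASEP on a rooted tree with a flow rule: combinatorial data, configurations, the elementary maps,
the generator on cylinder functions, semigroups and states.
-/

namespace Pool.Agent.H40.Tr

open Finset Filter Topology
open scoped NNReal

/-- Combinatorial data of a rooted tree with a positive flow `R` (`R x` is the rate of the edge
from the parent of `x` to `x`, and `R o = q`). -/
structure FT (V : Type*) where
  o : V
  par : V → V
  lev : V → ℕ
  ch : V → Finset V
  R : V → ℝ
  q : ℝ
  lev_o : lev o = 0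
  lev_par : ∀ x, x ≠ o → lev x = lev (par x) + 1
  mem_ch : ∀ x y, y ∈ ch x ↔ y ≠ o ∧ par y = x
  R_pos : ∀ x, 0 < R x
  R_o : R o = q
  flow : ∀ x, ∑ y ∈ ch x, R y = R x

/-- Configurations. -/
abbrev Cfg (V : Type*) := V → Bool

/-- Observables: continuous functions on the compact space of configurations. -/
abbrev Ob (V : Type*) := C(V → Bool, ℝ)

/-- exponential of a bounded operator. -/
noncomputable def expOp {X : Type*} [NormedAddCommGroup X] [NormedSpace ℝ X] (A : X →L[ℝ] X)
    (t : ℝ) : X →L[ℝ] X := NormedSpace.exp (t • A)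

set_option linter.unusedSectionVars false

namespace FT

variable {V : Type*} [DecidableEq V] (T : FT V)

lemma q_pos : 0 < T.q := by rw [← T.R_o]; exact T.R_pos _

lemma lev_eq_zero {x : V} : T.lev x = 0 ↔ x = T.o := by
  constructor
  · intro h
    by_contra hx
    have := T.lev_par x hx
    omega
  · rintro rfl; exact T.lev_o

lemma lev_ch {x y : V} (h : y ∈ T.ch x) : T.lev y = T.lev x + 1 := by
  obtain ⟨h1, h2⟩ := (T.mem_ch x y).1 h
  rw [T.lev_par y h1, h2]

lemma par_ne {x : V} (h : x ≠ T.o) : T.par x ≠ x := by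
  intro h2
  have := T.lev_par x h
  rw [h2] at this
  omega

/-- `k`-th generation descendants of `x`. -/
def D (x : V) : ℕ → Finset V
  | 0 => {x}
  | k + 1 => (D x k).biUnion T.ch

/-- the `n`-th level. -/
def lv (n : ℕ) : Finset V := T.D T.o n

/-- the ball: levels `0, ..., n`. -/
def B (n : ℕ) : Finset V := (range (n + 1)).biUnion T.lv

lemma mem_D_lev {x y : V} {k : ℕ} (h : y ∈ T.D x k) : T.lev y = T.lev x + k := by
  induction k generalizing y with
  | zero => simp [D] at h; simp [h]
  | succ k ih =>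
    simp only [D, mem_biUnion] at h
    obtain ⟨z, hz, hy⟩ := h
    rw [T.lev_ch hy, ih hz]; ring

lemma mem_lv {x : V} {n : ℕ} : x ∈ T.lv n ↔ T.lev x = n := by
  constructor
  · intro h
    have := T.mem_D_lev h
    rw [T.lev_o] at this; omega
  · induction n generalizing x with
    | zero => intro h; rw [T.lev_eq_zero.1 h]; simp [lv, D]
    | succ n ih =>
      intro h
      have hx : x ≠ T.o := by
        rintro rfl; rw [T.lev_o] at h; omega
      have h2 := T.lev_par x hx
      have := ih (x := T.par x) (by omega)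
      simp only [lv, D, mem_biUnion]
      exact ⟨T.par x, this, (T.mem_ch _ _).2 ⟨hx, rfl⟩⟩

lemma mem_B {x : V} {n : ℕ} : x ∈ T.B n ↔ T.lev x ≤ n := by
  simp only [B, mem_biUnion, mem_range, mem_lv]
  constructor
  · rintro ⟨a, h1, h2⟩; omega
  · intro h; exact ⟨T.lev x, by omega, rfl⟩

lemma B_mono {m n : ℕ} (h : m ≤ n) : T.B m ⊆ T.B n := by
  intro x hx; rw [mem_B] at *; omega

lemma o_mem_B (n : ℕ) : T.o ∈ T.B n := by rw [mem_B, T.lev_o]; omega

lemma par_mem_B {x : V} {n : ℕ} (hx : x ≠ T.o) (h : x ∈ T.B (n + 1)) : T.par x ∈ T.B n := by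
  rw [mem_B] at *
  have := T.lev_par x hx
  omega

lemma sum_biUnion_ch {s : Finset V} (f : V → ℝ) :
    ∑ y ∈ s.biUnion T.ch, f y = ∑ x ∈ s, ∑ y ∈ T.ch x, f y := by
  apply sum_biUnion
  intro a _ b _ hab
  rw [Function.onFun, disjoint_left]
  intro z hz hz'
  exact hab (((T.mem_ch _ _).1 hz).2.symm.trans ((T.mem_ch _ _).1 hz').2)

lemma sum_D_succ (x : V) (k : ℕ) (f : V → ℝ) :
    ∑ y ∈ T.D x (k + 1), f y = ∑ z ∈ T.D x k, ∑ y ∈ T.ch z, f y :=
  T.sum_biUnion_ch f

lemma sum_R_D (x : V) (k : ℕ) : ∑ y ∈ T.D x k, T.R y = T.R x := by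
  induction k with
  | zero => simp [D]
  | succ k ih =>
    rw [sum_D_succ, ← ih]
    exact sum_congr rfl fun z _ => T.flow z

lemma sum_R_lv (n : ℕ) : ∑ y ∈ T.lv n, T.R y = T.q := by
  rw [lv, sum_R_D, T.R_o]

lemma sum_lv_succ (n : ℕ) (f : V → ℝ) :
    ∑ y ∈ T.lv (n + 1), f y = ∑ z ∈ T.lv n, ∑ y ∈ T.ch z, f y :=
  T.sum_D_succ T.o n f

/-! ### Elementary maps -/

/-- Effect of a ring at `y`: at the root, a particle is created if the root is empty; at `y ≠ o`,
a particle at the parent of `y` jumps to `y` if `y` is empty. -/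
def act (y : V) (η : Cfg V) : Cfg V := fun z =>
  if y = T.o then (if z = y then true else η z)
  else if z = y then (η y || η (T.par y))
  else if z = T.par y then (η y && η (T.par y))
  else η z

/-- exchange of the values at `y` and its parent. -/
def sw (y : V) (η : Cfg V) : Cfg V := fun z => η (Equiv.swap y (T.par y) z)

lemma act_continuous (y : V) : Continuous (T.act y) := by
  refine continuous_pi fun z => ?_
  unfold act
  by_cases h : y = T.o
  · by_cases h2 : z = y
    · simp only [h, if_true, h2]; exact continuous_const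
    · simp only [h] at h2 ⊢; simp only [if_true, h2, if_false]; fun_prop
  · simp only [h, if_false]
    by_cases h2 : z = y
    · simp only [h2, if_true]
      have : Continuous fun p : Bool × Bool => (p.1 || p.2) := continuous_of_discreteTopology
      exact this.comp (by fun_prop : Continuous fun a : V → Bool => (a y, a (T.par y)))
    · simp only [h2, if_false]
      by_cases h3 : z = T.par y
      · simp only [h3, if_true]
        have : Continuous fun p : Bool × Bool => (p.1 && p.2) := continuous_of_discreteTopology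
        exact this.comp (by fun_prop : Continuous fun a : V → Bool => (a y, a (T.par y)))
      · simp only [h3, if_false]; fun_prop

lemma sw_continuous (y : V) : Continuous (T.sw y) := by
  refine continuous_pi fun z => ?_
  unfold sw
  fun_prop

lemma act_mono (y : V) : Monotone (T.act y) := by
  intro η ζ h z
  unfold act
  have hz := h z
  have hy := h y
  have hp := h (T.par y)
  split_ifs
  · exact le_rfl
  · exact hz
  · exact sup_le_sup hy hp
  · exact inf_le_inf hy hp
  · exact hz

/-- composition with `act y`. -/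
noncomputable def A (y : V) : Ob V →L[ℝ] Ob V :=
  LinearMap.mkContinuous
    { toFun := fun f => f.comp ⟨T.act y, T.act_continuous y⟩
      map_add' := fun f g => rfl
      map_smul' := fun c f => rfl } 1 (by
    intro f
    rw [one_mul]
    rw [ContinuousMap.norm_le _ (norm_nonneg _)]
    intro η
    exact f.norm_coe_le_norm _)

@[simp] lemma A_apply (y : V) (f : Ob V) (η : Cfg V) : T.A y f η = f (T.act y η) := rfl

/-- composition with `sw y`. -/
noncomputable def W (y : V) (f : Ob V) : Ob V := f.comp ⟨T.sw y, T.sw_continuous y⟩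

@[simp] lemma W_apply (y : V) (f : Ob V) (η : Cfg V) : T.W y f η = f (T.sw y η) := rfl

/-- rate of the ring at `y`. -/
noncomputable def c (lam : ℝ) (y : V) : ℝ := if y = T.o then lam else T.R y

/-- the truncated generator: all rings in the ball `B n`. -/
noncomputable def L (lam : ℝ) (n : ℕ) : Ob V →L[ℝ] Ob V :=
  ∑ y ∈ T.B n, T.c lam y • (T.A y - 1)

lemma L_apply (lam : ℝ) (n : ℕ) (f : Ob V) (η : Cfg V) :
    T.L lam n f η = ∑ y ∈ T.B n, T.c lam y * (f (T.act y η) - f η) := by
  simp only [L, _root_.sum_apply, ContinuousMap.sum_apply]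
  rfl

/-- the semigroup of the truncated generator. -/
noncomputable def Q (lam : ℝ) (n : ℕ) (t : ℝ) : Ob V →L[ℝ] Ob V := expOp (T.L lam n) t

/-- `f` depends only on the ball `B m`. -/
def Cyl (m : ℕ) (f : Ob V) : Prop := ∀ η ζ : Cfg V, (∀ x ∈ T.B m, η x = ζ x) → f η = f ζ

end FT

/-- A state: a positive normalised linear functional on observables. -/
structure State {V : Type*} (E : Ob V →ₗ[ℝ] ℝ) : Prop where
  pos : ∀ f : Ob V, (∀ η, 0 ≤ f η) → 0 ≤ E f
  one : E 1 = 1

/-- Stationarity of a state. -/
def Stat {V : Type*} [DecidableEq V] (T : FT V) (lam : ℝ) (E : Ob V →ₗ[ℝ] ℝ) : Prop :=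
  ∀ (m : ℕ) (f : Ob V), T.Cyl m f → E (T.L lam (m + 1) f) = 0

/-- `P` is the Markov semigroup of the TASEP. -/
structure Sg {V : Type*} [DecidableEq V] (T : FT V) (lam : ℝ)
    (P : ℝ≥0 → Ob V →L[ℝ] Ob V) : Prop where
  zero : ∀ f, P 0 f = f
  add : ∀ s t f, P (s + t) f = P s (P t f)
  pos : ∀ t (f : Ob V), (∀ η, 0 ≤ f η) → ∀ η, 0 ≤ P t f η
  one : ∀ t, P t 1 = 1
  cont : ∀ f, Continuous fun t => P t f
  gen : ∀ (m : ℕ) (f : Ob V), T.Cyl m f →
    Tendsto (fun t : ℝ≥0 => (t : ℝ)⁻¹ • (P t f - f)) (𝓝[>] 0) (𝓝 (T.L lam (m + 1) f))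

/-- the occupation variable of `x`. -/
noncomputable def occ {V : Type*} (x : V) : Ob V :=
  ⟨fun η => if η x = true then 1 else 0, by
    have : Continuous fun b : Bool => (if b = true then (1 : ℝ) else 0) :=
      continuous_of_discreteTopology
    exact this.comp (continuous_apply x)⟩

@[simp] lemma occ_apply {V : Type*} (x : V) (η : Cfg V) :
    occ x η = if η x = true then 1 else 0 := rfl

end Pool.Agent.H40.Tr
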