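import Pool.Agent.H40.Tr.MainA

/-!
Lower bound for the current above the critical intensity.
-/

namespace Pool.Agent.H40.Tr

open Finset Filter Topology MeasureTheory
open scoped NNReal Nat

universe u

set_option linter.unusedVariables false
set_option linter.unusedSectionVars false

namespace Cur

variable {V : Type u} [DecidableEq V] (T : FT V)

/-- the observable of the edge into `y`. -/
noncomputable def g (y : V) : Ob V := occ (T.par y) * (1 - occ y)

lemma g_nonneg (y : V) (η : Cfg V) : 0 ≤ g T y η := by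
  simp only [g, ContinuousMap.mul_apply, ContinuousMap.sub_apply, ContinuousMap.one_apply,
    occ_apply]
  split_ifs <;> norm_num

lemma g_le (y : V) (η : Cfg V) : g T y η ≤ occ (T.par y) η := by
  simp only [g, ContinuousMap.mul_apply, ContinuousMap.sub_apply, ContinuousMap.one_apply,
    occ_apply]
  split_ifs <;> norm_num

lemma L_occ_N (lam : ℝ) (x : V) {N : ℕ} (hN : T.lev x + 1 ≤ N) : T.L lam N (occ x) =
    (if x = T.o then lam • (1 - occ T.o) else T.R x • g T x) - ∑ y ∈ T.ch x, T.R y • g T y := by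
  rw [(T.cyl_occ x).L_eq lam hN, T.L_occ]
  rfl

lemma L_ball (lam : ℝ) (n : ℕ) : ∀ N : ℕ, n + 1 ≤ N →
    T.L lam N (∑ x ∈ T.B n, occ x) =
      lam • (1 - occ T.o) - ∑ y ∈ T.lv (n + 1), T.R y • g T y := by
  induction n with
  | zero =>
    intro N hN
    rw [T.B_zero, sum_singleton, L_occ_N T lam T.o (by rw [T.lev_o]; exact hN), if_pos rfl]
    congr 1
    have : T.lv (0 + 1) = T.ch T.o := by
      simp [FT.lv, FT.D]
    rw [this]
  | succ n ih =>
    intro N hN
    have e : (∑ x ∈ T.B (n + 1), occ x : Ob V) =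
        ∑ x ∈ T.B n, occ x + ∑ x ∈ T.lv (n + 1), occ x := by
      rw [T.B_succ, sum_union]
      rw [disjoint_left]
      intro x hx hx'
      rw [T.mem_B] at hx
      rw [T.mem_lv] at hx'
      omega
    rw [e, map_add, ih N (by omega), map_sum]
    have h1 : ∀ x ∈ T.lv (n + 1), T.L lam N (occ x) =
        T.R x • g T x - ∑ y ∈ T.ch x, T.R y • g T y := by
      intro x hx
      rw [T.mem_lv] at hx
      have hxo : x ≠ T.o := by rintro rfl; rw [T.lev_o] at hx; omega
      rw [L_occ_N T lam x (by omega), if_neg hxo]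
    rw [sum_congr rfl h1, sum_sub_distrib]
    have h2 : ∑ x ∈ T.lv (n + 1), ∑ y ∈ T.ch x, T.R y • g T y =
        ∑ y ∈ T.lv (n + 1 + 1), T.R y • g T y := by
      change _ = ∑ y ∈ (T.lv (n + 1)).biUnion T.ch, T.R y • g T y
      rw [sum_biUnion]
      intro a _ b _ hab
      rw [Function.onFun, disjoint_left]
      intro z hz hz'
      exact hab (((T.mem_ch _ _).1 hz).2.symm.trans ((T.mem_ch _ _).1 hz').2)
    rw [h2]
    abel

lemma cyl_ball (n : ℕ) : T.Cyl n (∑ x ∈ T.B n, occ x : Ob V) :=
  T.cyl_sum _ _ fun x hx => (T.cyl_occ x).mono (T.mem_B.1 hx)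

lemma R_le_q (x : V) : T.R x ≤ T.q := by
  rw [← T.sum_R_lv (T.lev x)]
  exact single_le_sum (f := T.R) (fun y _ => (T.R_pos y).le) (T.mem_lv.2 rfl)

variable {T} {lam : ℝ} {P : ℝ≥0 → Ob V →L[ℝ] Ob V}

/-- value at time `s` of the observable `f` started from the empty configuration. -/
noncomputable def ev (P : ℝ≥0 → Ob V →L[ℝ] Ob V) (f : Ob V) (s : ℝ) : ℝ :=
  P s.toNNReal f (fun _ => false)

lemma ev_cont (hP : Sg T lam P) (f : Ob V) : Continuous (ev P f) :=
  (FT.cev (fun _ => false)).comp ((hP.cont f).comp continuous_real_toNNReal)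

lemma ev_mono (hP : Sg T lam P) {f h : Ob V} (hfh : ∀ η, f η ≤ h η) (s : ℝ) :
    ev P f s ≤ ev P h s := by
  have := hP.pos s.toNNReal (h - f) (fun η => by simpa using hfh η) (fun _ => false)
  rw [map_sub] at this
  simpa [ev] using this

lemma ev_sub (f h : Ob V) (s : ℝ) : ev P (f - h) s = ev P f s - ev P h s := by
  simp [ev]

lemma ev_smul (a : ℝ) (f : Ob V) (s : ℝ) : ev P (a • f) s = a * ev P f s := by
  simp [ev]

lemma ev_sum {ι : Type*} (S : Finset ι) (F : ι → Ob V) (s : ℝ) :
    ev P (∑ i ∈ S, F i) s = ∑ i ∈ S, ev P (F i) s := by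
  simp [ev]

lemma ev_one (hP : Sg T lam P) (s : ℝ) : ev P 1 s = 1 := by
  simp [ev, hP.one]

lemma ev_nonneg (hP : Sg T lam P) {f : Ob V} (hf : ∀ η, 0 ≤ f η) (s : ℝ) : 0 ≤ ev P f s :=
  hP.pos _ f hf _

lemma ev_int (hl : 0 < lam) (hP : Sg T lam P) {m : ℕ} {f : Ob V} (hf : T.Cyl m f) {t : ℝ}
    (ht : 0 ≤ t) : ev P f t = f (fun _ => false) + ∫ s in (0 : ℝ)..t, ev P (T.L lam (m + 1) f) s := by
  have := sgIntStmt V T lam hl P hP t.toNNReal m f hf (fun _ => false)
  rw [Real.coe_toNNReal _ ht] at this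
  exact this

lemma occ_empty (x : V) : (occ x : Ob V) (fun _ => false) = 0 := by simp

/-- the weighted density at level `n`. -/
noncomputable def bb (T : FT V) (P : ℝ≥0 → Ob V →L[ℝ] Ob V) (n : ℕ) (s : ℝ) : ℝ :=
  ∑ x ∈ T.lv n, T.R x * ev P (occ x) s

lemma bb_cont (hP : Sg T lam P) (n : ℕ) : Continuous (bb T P n) := by
  unfold bb
  have := fun x => ev_cont hP (occ x)
  fun_prop

lemma bb_bound (hl : 0 < lam) (hP : Sg T lam P) (n : ℕ) : ∀ t : ℝ, 0 ≤ t →
    bb T P n t ≤ T.q * ((T.q * t) ^ n / (n ! : ℝ)) := by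
  have hq := T.q_pos
  induction n with
  | zero =>
    intro t ht
    have h1 : ev P (occ T.o) t ≤ 1 := by
      rw [← ev_one hP t]
      refine ev_mono hP (fun η => ?_) t
      simp only [occ_apply, ContinuousMap.one_apply]
      split_ifs <;> norm_num
    have h0 : T.lv 0 = {T.o} := by simp [FT.lv, FT.D]
    simp only [bb, h0, sum_singleton, T.R_o, pow_zero, Nat.factorial_zero, Nat.cast_one, div_one,
      mul_one]
    nlinarith
  | succ n ih =>
    intro t ht
    have h1 : ∀ x ∈ T.lv (n + 1), T.R x * ev P (occ x) t ≤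
        ∫ s in (0 : ℝ)..t, T.q * (T.R x * ev P (occ (T.par x)) s) := by
      intro x hx
      rw [T.mem_lv] at hx
      have hxo : x ≠ T.o := by rintro rfl; rw [T.lev_o] at hx; omega
      have h2 := ev_int hl hP (T.cyl_occ x) ht
      rw [occ_empty, zero_add] at h2
      rw [h2, ← intervalIntegral.integral_const_mul]
      refine intervalIntegral.integral_mono_on ht
        ((ev_cont hP _).const_mul _ |>.intervalIntegrable _ _)
        (((ev_cont hP _).const_mul _).const_mul _ |>.intervalIntegrable _ _) fun s hs => ?_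
      have h3 : ev P (T.L lam (T.lev x + 1) (occ x)) s ≤ T.R x * ev P (occ (T.par x)) s := by
        rw [L_occ_N T lam x le_rfl, if_neg hxo, ev_sub, ev_smul, ev_sum]
        have h4 : 0 ≤ ∑ y ∈ T.ch x, ev P (T.R y • g T y) s := by
          refine sum_nonneg fun y _ => ?_
          rw [ev_smul]
          exact mul_nonneg (T.R_pos y).le (ev_nonneg hP (g_nonneg T y) s)
        have h5 : ev P (g T x) s ≤ ev P (occ (T.par x)) s := ev_mono hP (g_le T x) s
        have := T.R_pos x
        nlinarith
      have h6 : 0 ≤ T.R x * ev P (occ (T.par x)) s := by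
        refine mul_nonneg (T.R_pos x).le (ev_nonneg hP (fun η => ?_) s)
        simp only [occ_apply]
        split_ifs <;> norm_num
      calc T.R x * ev P (T.L lam (T.lev x + 1) (occ x)) s
          ≤ T.R x * (T.R x * ev P (occ (T.par x)) s) :=
            mul_le_mul_of_nonneg_left h3 (T.R_pos x).le
        _ ≤ T.q * (T.R x * ev P (occ (T.par x)) s) :=
            mul_le_mul_of_nonneg_right (R_le_q T x) h6
    have h2 : bb T P (n + 1) t ≤ ∫ s in (0 : ℝ)..t, T.q * bb T P n s := by
      calc bb T P (n + 1) t ≤ ∑ x ∈ T.lv (n + 1),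
            ∫ s in (0 : ℝ)..t, T.q * (T.R x * ev P (occ (T.par x)) s) := sum_le_sum h1
        _ = ∫ s in (0 : ℝ)..t, ∑ x ∈ T.lv (n + 1), T.q * (T.R x * ev P (occ (T.par x)) s) := by
            rw [intervalIntegral.integral_finsetSum]
            intro x _
            exact ((ev_cont hP _).const_mul _).const_mul _ |>.intervalIntegrable _ _
        _ = _ := by
            congr 1
            ext s
            rw [← mul_sum, T.sum_lv_succ]
            congr 1
            unfold bb
            refine sum_congr rfl fun z _ => ?_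
            rw [← T.flow z, sum_mul]
            refine sum_congr rfl fun y hy => ?_
            rw [((T.mem_ch z y).1 hy).2]
    refine h2.trans ?_
    calc ∫ s in (0 : ℝ)..t, T.q * bb T P n s
        ≤ ∫ s in (0 : ℝ)..t, T.q * (T.q * ((T.q * s) ^ n / (n ! : ℝ))) := by
          refine intervalIntegral.integral_mono_on ht
            ((bb_cont hP n).const_mul _ |>.intervalIntegrable _ _)
            (Continuous.intervalIntegrable (by fun_prop) _ _) fun s hs => ?_
          exact mul_le_mul_of_nonneg_left (ih s hs.1) hq.le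
      _ = T.q * ((T.q * t) ^ (n + 1) / ((n + 1)! : ℝ)) := by
          have : ∀ s : ℝ, T.q * (T.q * ((T.q * s) ^ n / (n ! : ℝ))) =
              (T.q ^ (n + 2) / (n ! : ℝ)) * s ^ n := by
            intro s; rw [mul_pow]; ring
          simp only [this]
          rw [intervalIntegral.integral_const_mul, integral_pow, Nat.factorial_succ, mul_pow]
          push_cast
          field_simp
          simp
          ring

/-- mass balance. -/
lemma balance (hl : 0 < lam) (hP : Sg T lam P) (n : ℕ) {t : ℝ} (ht : 0 ≤ t) :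
    ∑ x ∈ T.B n, ev P (occ x) t = (∫ s in (0 : ℝ)..t, lam * (1 - ev P (occ T.o) s)) -
      ∫ s in (0 : ℝ)..t, ∑ y ∈ T.lv (n + 1), T.R y * ev P (g T y) s := by
  have h := ev_int hl hP (cyl_ball T n) ht
  rw [L_ball T lam n (n + 1) le_rfl, ev_sum] at h
  rw [h]
  have h0 : (∑ x ∈ T.B n, occ x : Ob V) (fun _ => false) = 0 := by
    rw [ContinuousMap.sum_apply]
    exact sum_eq_zero fun x _ => occ_empty x
  rw [h0, zero_add, ← intervalIntegral.integral_sub]
  · congr 1
    ext s
    rw [ev_sub, ev_smul, ev_sub, ev_one hP, ev_sum]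
    simp only [ev_smul]
  · exact (continuous_const.mul (continuous_const.sub (ev_cont hP _))).intervalIntegrable _ _
  · refine Continuous.intervalIntegrable ?_ _ _
    have := fun y => ev_cont hP (g T y)
    fun_prop

/-- comparison of the time-integrated currents. -/
lemma current (hl : T.q / 2 ≤ lam) (hP : Sg T lam P) {t : ℝ} (ht : 0 ≤ t) :
    t * (T.q / 4) ≤ ∫ s in (0 : ℝ)..t, lam * (1 - ev P (occ T.o) s) := by
  have hq := T.q_pos
  have hl0 : 0 < T.q / 2 := by positivity
  have hlam : 0 < lam := by linarith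
  obtain ⟨P', hP'⟩ := sgExistsStmt V T (T.q / 2) hl0
  obtain ⟨E', hE', hS', _, hocc⟩ := nuStmt.{u} V T (1 / 2) (by norm_num) (by norm_num)
  have hS'' : Stat T (T.q / 2) E' := by
    have : 1 / 2 * T.q = T.q / 2 := by ring
    rwa [this] at hS'
  have hhalf : ∀ s : ℝ, ev P' (occ T.o) s ≤ 1 / 2 := by
    intro s
    have h1 := sgStatStmt V T (T.q / 2) hl0 P' hP' E' hE' hS'' s.toNNReal (occ T.o)
    rw [hocc] at h1
    have h2 := sgMonoStmt V T (T.q / 2) hl0 P' hP' s.toNNReal (occ T.o) (occ_monotone T.o)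
    have h3 := hE'.pos (P' s.toNNReal (occ T.o) -
      (P' s.toNNReal (occ T.o) (fun _ => false)) • (1 : Ob V)) (fun η => by
        simp only [ContinuousMap.sub_apply, ContinuousMap.smul_apply, ContinuousMap.one_apply,
          smul_eq_mul, mul_one, sub_nonneg]
        exact h2 (fun z => Bool.false_le _))
    rw [map_sub, map_smul, hE'.one, h1, smul_eq_mul, mul_one] at h3
    unfold ev
    linarith
  have key : ∀ n : ℕ, t * (T.q / 4) - t * (T.q * ((T.q * t) ^ n / (n ! : ℝ))) ≤
      ∫ s in (0 : ℝ)..t, lam * (1 - ev P (occ T.o) s) := by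
    intro n
    have b1 := balance hlam hP n ht
    have b2 := balance hl0 hP' n ht
    have h1 : ∑ x ∈ T.B n, ev P' (occ x) t ≤ ∑ x ∈ T.B n, ev P (occ x) t :=
      sum_le_sum fun x _ => sgCompStmt V T lam (T.q / 2) hl0 hl P P' hP hP' t.toNNReal (occ x)
        (occ_monotone x) _
    have h2 : 0 ≤ ∫ s in (0 : ℝ)..t, ∑ y ∈ T.lv (n + 1), T.R y * ev P (g T y) s := by
      refine intervalIntegral.integral_nonneg ht fun s _ => ?_
      exact sum_nonneg fun y _ => mul_nonneg (T.R_pos y).le (ev_nonneg hP (g_nonneg T y) s)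
    have h3 : t * (T.q / 4) ≤ ∫ s in (0 : ℝ)..t, T.q / 2 * (1 - ev P' (occ T.o) s) := by
      calc t * (T.q / 4) = ∫ s in (0 : ℝ)..t, T.q / 4 := by
            rw [intervalIntegral.integral_const, sub_zero, smul_eq_mul]
        _ ≤ _ := by
          refine intervalIntegral.integral_mono_on ht (by simp)
            ((continuous_const.mul (continuous_const.sub (ev_cont hP' _))).intervalIntegrable _ _)
            fun s _ => ?_
          have := hhalf s
          nlinarith
    have h4 : ∫ s in (0 : ℝ)..t, ∑ y ∈ T.lv (n + 1), T.R y * ev P' (g T y) s ≤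
        t * (T.q * ((T.q * t) ^ n / (n ! : ℝ))) := by
      calc ∫ s in (0 : ℝ)..t, ∑ y ∈ T.lv (n + 1), T.R y * ev P' (g T y) s
          ≤ ∫ s in (0 : ℝ)..t, T.q * ((T.q * t) ^ n / (n ! : ℝ)) := by
            refine intervalIntegral.integral_mono_on ht (Continuous.intervalIntegrable ?_ _ _)
              (by simp) fun s hs => ?_
            · have := fun y => ev_cont hP' (g T y)
              fun_prop
            · have h5 : ∑ y ∈ T.lv (n + 1), T.R y * ev P' (g T y) s ≤ bb T P' n s := by
                calc ∑ y ∈ T.lv (n + 1), T.R y * ev P' (g T y) s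
                    ≤ ∑ y ∈ T.lv (n + 1), T.R y * ev P' (occ (T.par y)) s :=
                      sum_le_sum fun y _ => mul_le_mul_of_nonneg_left
                        (ev_mono hP' (g_le T y) s) (T.R_pos y).le
                  _ = bb T P' n s := by
                      rw [T.sum_lv_succ]
                      unfold bb
                      refine sum_congr rfl fun z _ => ?_
                      rw [← T.flow z, sum_mul]
                      refine sum_congr rfl fun y hy => ?_
                      rw [((T.mem_ch z y).1 hy).2]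
              refine h5.trans ((bb_bound hl0 hP' n s hs.1).trans ?_)
              have := hs.1
              have := hs.2
              gcongr
        _ = _ := by rw [intervalIntegral.integral_const, sub_zero, smul_eq_mul]
    linarith
  have hlim : Tendsto (fun n : ℕ => t * (T.q / 4) - t * (T.q * ((T.q * t) ^ n / (n ! : ℝ))))
      atTop (𝓝 (t * (T.q / 4) - t * (T.q * 0))) :=
    ((FloorSemiring.tendsto_pow_div_factorial_atTop (T.q * t)).const_mul T.q |>.const_mul t).const_sub _
  have := le_of_tendsto hlim (Eventually.of_forall key)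
  simpa using this

/-- The stationary current is at least `q / 4`. -/
lemma current_limit (hl : T.q / 2 ≤ lam) (hP : Sg T lam P) {a : ℝ}
    (ha : Tendsto (fun t : ℝ≥0 => P t (occ T.o) (fun _ => false)) atTop (𝓝 a)) :
    T.q / 4 ≤ lam * (1 - a) := by
  have hq := T.q_pos
  have hlam : 0 < lam := by linarith
  by_contra hcon
  push Not at hcon
  set c := (lam * (1 - a) + T.q / 4) / 2 with hc
  have hc1 : lam * (1 - a) < c := by rw [hc]; linarith
  have hc2 : c < T.q / 4 := by rw [hc]; linarith
  have h1 : Tendsto (fun t : ℝ≥0 => lam * (1 - P t (occ T.o) (fun _ => false))) atTop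
      (𝓝 (lam * (1 - a))) := (ha.const_sub 1).const_mul lam
  obtain ⟨s₀, hs₀⟩ := eventually_atTop.1 (h1.eventually_lt_const hc1)
  have hev : ∀ s : ℝ, (s₀ : ℝ) ≤ s → lam * (1 - ev P (occ T.o) s) ≤ c := by
    intro s hs
    exact (hs₀ s.toNNReal (by rw [Real.le_toNNReal_iff_coe_le ((s₀.2).trans hs)]; exact hs)).le
  have hev2 : ∀ s : ℝ, lam * (1 - ev P (occ T.o) s) ≤ lam := by
    intro s
    have : 0 ≤ ev P (occ T.o) s := ev_nonneg hP (fun η => by
      simp only [occ_apply]; split_ifs <;> norm_num) s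
    nlinarith
  have hcont : Continuous fun s => lam * (1 - ev P (occ T.o) s) :=
    continuous_const.mul (continuous_const.sub (ev_cont hP _))
  have hbound : ∀ t : ℝ, (s₀ : ℝ) ≤ t → t * (T.q / 4) ≤ s₀ * lam + (t - s₀) * c := by
    intro t ht
    refine (current hl hP (s₀.2.trans ht)).trans ?_
    rw [← intervalIntegral.integral_add_adjacent_intervals
      (hcont.intervalIntegrable 0 (s₀ : ℝ)) (hcont.intervalIntegrable (s₀ : ℝ) t)]
    refine add_le_add ?_ ?_
    · calc ∫ s in (0 : ℝ)..s₀, lam * (1 - ev P (occ T.o) s) ≤ ∫ s in (0 : ℝ)..s₀, lam :=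
          intervalIntegral.integral_mono_on s₀.2 (hcont.intervalIntegrable _ _) (by simp)
            fun s _ => hev2 s
        _ = _ := by simp
    · calc ∫ s in (s₀ : ℝ)..t, lam * (1 - ev P (occ T.o) s) ≤ ∫ s in (s₀ : ℝ)..t, c :=
          intervalIntegral.integral_mono_on ht (hcont.intervalIntegrable _ _) (by simp)
            fun s hs => hev s hs.1
        _ = _ := by simp
  -- choose a large time
  have hpos : 0 < T.q / 4 - c := by linarith
  obtain ⟨n, hn⟩ := exists_nat_gt ((s₀ * lam + |s₀ * c|) / (T.q / 4 - c))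
  have h2 := hbound (max n s₀) (le_max_right _ _)
  rw [div_lt_iff₀ hpos] at hn
  have h3 : (n : ℝ) ≤ max (n : ℝ) s₀ := le_max_left _ _
  have h4 : (n : ℝ) * (T.q / 4 - c) ≤ max (n : ℝ) s₀ * (T.q / 4 - c) := by gcongr
  have h5 := neg_abs_le ((s₀ : ℝ) * c)
  nlinarith

end Cur

end Pool.Agent.H40.Tr
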