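import Pool.Agent.H40.Tr.Spec

/-!
Density of cylinder functions.
-/

namespace Pool.Agent.H40.Tr

open Finset Filter Topology

universe u

/-- the configuration restricted to the ball of radius `m`. -/
def FT.restr {V : Type*} [DecidableEq V] (T : FT V) (m : ℕ) (η : V → Bool) : V → Bool :=
  fun x => if x ∈ T.B m then η x else false

lemma FT.continuous_restr {V : Type*} [DecidableEq V] (T : FT V) (m : ℕ) :
    Continuous (T.restr m) := by
  refine continuous_pi fun x => ?_
  unfold FT.restr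
  by_cases h : x ∈ T.B m
  · simpa [h] using continuous_apply x
  · simpa [h] using continuous_const

theorem denseStmt : DenseStmt.{u} := by
  intro V _ T f ε hε
  have key : ∀ η : V → Bool, ∃ s : Finset V, ∀ ζ : V → Bool, (∀ x ∈ s, ζ x = η x) →
      |f ζ - f η| < ε / 2 := by
    intro η
    have h1 : IsOpen {ζ : V → Bool | |f ζ - f η| < ε / 2} :=
      isOpen_lt (by fun_prop) continuous_const
    have h2 : η ∈ {ζ : V → Bool | |f ζ - f η| < ε / 2} := by
      simp [Set.mem_ofPred_eq]; positivity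
    obtain ⟨I, u, hu, hs⟩ := isOpen_pi_iff.1 h1 η h2
    refine ⟨I, fun ζ hζ => ?_⟩
    have : ζ ∈ (I : Set V).pi u := by
      intro x hx
      rw [hζ x (by simpa using hx)]
      exact (hu x (by simpa using hx)).2
    exact hs this
  choose s hs using key
  have hnhds : ∀ η ∈ (Set.univ : Set (V → Bool)),
      {ζ : V → Bool | ∀ x ∈ s η, ζ x = η x} ∈ 𝓝 η := by
    intro η _
    have : IsOpen {ζ : V → Bool | ∀ x ∈ s η, ζ x = η x} := by
      have h : {ζ : V → Bool | ∀ x ∈ s η, ζ x = η x} = ⋂ x ∈ s η, {ζ : V → Bool | ζ x = η x} := by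
        ext ζ; simp
      rw [h]
      refine isOpen_biInter_finset fun x _ => ?_
      have h3 : IsOpen ((fun ζ : V → Bool => ζ x) ⁻¹' ({η x} : Set Bool)) :=
        (isOpen_discrete ({η x} : Set Bool)).preimage (continuous_apply x)
      exact h3
    exact this.mem_nhds (by simp)
  obtain ⟨t, -, ht⟩ := isCompact_univ.elim_nhds_subcover
    (fun η => {ζ : V → Bool | ∀ x ∈ s η, ζ x = η x}) hnhds
  obtain ⟨m, hm⟩ : ∃ m : ℕ, ∀ η ∈ t, ∀ x ∈ s η, x ∈ T.B m := by
    refine ⟨t.sup fun η => (s η).sup T.lev, fun η hη x hx => ?_⟩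
    rw [T.mem_B]
    exact (Finset.le_sup (f := T.lev) hx).trans
      (Finset.le_sup (f := fun η => (s η).sup T.lev) hη)
  refine ⟨m, ⟨fun η => f (T.restr m η), f.continuous.comp (T.continuous_restr m)⟩, ?_, ?_⟩
  · intro η ζ h
    have : T.restr m η = T.restr m ζ := by
      funext x
      unfold FT.restr
      by_cases hx : x ∈ T.B m
      · simp [hx, h x hx]
      · simp [hx]
    simp [this]
  · rw [ContinuousMap.norm_le _ hε.le]
    intro ζ
    have hζ : ζ ∈ ⋃ η ∈ t, {ζ : V → Bool | ∀ x ∈ s η, ζ x = η x} := ht (Set.mem_univ ζ)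
    simp only [Set.mem_iUnion] at hζ
    obtain ⟨η, hη, h⟩ := hζ
    have h : ∀ x ∈ s η, ζ x = η x := h
    have h1 := hs η ζ h
    have h2 := hs η (T.restr m ζ) (fun x hx => by
      simp [FT.restr, hm η hη x hx, h x hx])
    simp only [ContinuousMap.sub_apply, ContinuousMap.coe_mk, Real.norm_eq_abs]
    rw [abs_lt] at h1 h2
    rw [abs_le]
    constructor <;> linarith [h1.1, h1.2, h2.1, h2.2]

end Pool.Agent.H40.Tr
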