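import Pool.Agent.H40.Tr.Spec

/-!
Dissipation bound (module DISS).
-/

namespace Pool.Agent.H40.Tr

open Finset Filter Topology

universe u

namespace Diss

variable {V : Type u} [DecidableEq V] (T : FT V)

/-- the trace of a configuration on the ball `B N`. -/
def rs (N : ℕ) (η : Cfg V) : Finset V := (T.B N).filter (fun x => η x = true)

lemma mem_rs {N : ℕ} {η : Cfg V} {x : V} : x ∈ rs T N η ↔ x ∈ T.B N ∧ η x = true := by
  simp [rs]

lemma rs_mem (N : ℕ) (η : Cfg V) : rs T N η ∈ (T.B N).powerset := by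
  simp [rs]

lemma rs_cont (N : ℕ) (φ : Finset V → ℝ) : Continuous fun η : Cfg V => φ (rs T N η) := by
  apply IsLocallyConstant.continuous
  rw [IsLocallyConstant.iff_exists_open]
  intro η
  refine ⟨⋂ x ∈ T.B N, {ζ | ζ x = η x}, ?_, ?_, ?_⟩
  · apply isOpen_biInter_finset
    intro x _
    have hc : Continuous fun ζ : Cfg V => ζ x := continuous_apply x
    exact (isOpen_discrete ({η x} : Set Bool)).preimage hc
  · simp
  · intro ζ hζ
    have : rs T N ζ = rs T N η := by
      ext x
      simp only [mem_rs]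
      constructor
      · rintro ⟨h1, h2⟩
        refine ⟨h1, ?_⟩
        have := Set.mem_iInter₂.1 hζ x h1
        simp only [Set.mem_ofPred_eq] at this
        rw [← this]; exact h2
      · rintro ⟨h1, h2⟩
        refine ⟨h1, ?_⟩
        have := Set.mem_iInter₂.1 hζ x h1
        simp only [Set.mem_ofPred_eq] at this
        rw [this]; exact h2
    simp only [this]

/-- the observable attached to a function of the trace. -/
def fn (N : ℕ) (φ : Finset V → ℝ) : Ob V := ⟨fun η => φ (rs T N η), rs_cont T N φ⟩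

@[simp] lemma fn_apply (N : ℕ) (φ : Finset V → ℝ) (η : Cfg V) : fn T N φ η = φ (rs T N η) := rfl

/-- mass of a trace. -/
noncomputable def ms (E : Ob V →ₗ[ℝ] ℝ) (N : ℕ) (S : Finset V) : ℝ :=
  E (fn T N (fun S' => if S' = S then 1 else 0))

variable {T}

omit [DecidableEq V] in
lemma E_mono {E : Ob V →ₗ[ℝ] ℝ} (hE : State E) {f g : Ob V} (h : ∀ η, f η ≤ g η) :
    E f ≤ E g := by
  have := hE.pos (g - f) (fun η => by simp [h η])
  rw [map_sub] at this
  linarith

lemma ms_nonneg {E : Ob V →ₗ[ℝ] ℝ} (hE : State E) (N : ℕ) (S : Finset V) : 0 ≤ ms T E N S := by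
  apply hE.pos
  intro η
  simp only [fn_apply]
  split_ifs <;> norm_num

lemma E_fn (E : Ob V →ₗ[ℝ] ℝ) (N : ℕ) (φ : Finset V → ℝ) :
    E (fn T N φ) = ∑ S ∈ (T.B N).powerset, φ S * ms T E N S := by
  have h : fn T N φ = ∑ S ∈ (T.B N).powerset,
      φ S • fn T N (fun S' => if S' = S then (1 : ℝ) else 0) := by
    ext η
    rw [ContinuousMap.sum_apply]
    simp only [ContinuousMap.smul_apply, fn_apply, smul_eq_mul, mul_ite, mul_one, mul_zero]
    rw [sum_ite_eq]
    rw [if_pos (rs_mem T N η)]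
  rw [h, map_sum]
  refine sum_congr rfl fun S _ => ?_
  rw [map_smul, smul_eq_mul]; rfl

lemma sum_ms {E : Ob V →ₗ[ℝ] ℝ} (hE : State E) (N : ℕ) :
    ∑ S ∈ (T.B N).powerset, ms T E N S = 1 := by
  have h := E_fn (T := T) E N (fun _ => 1)
  have h2 : fn T N (fun _ => (1 : ℝ)) = 1 := by ext η; simp
  rw [h2, hE.one] at h
  simpa using h.symm

lemma ms_le_one {E : Ob V →ₗ[ℝ] ℝ} (hE : State E) (N : ℕ) (S : Finset V) : ms T E N S ≤ 1 := by
  rw [← hE.one]
  apply E_mono hE
  intro η
  simp only [fn_apply, ContinuousMap.one_apply]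
  split_ifs <;> norm_num

/-- the exchanged trace. -/
def sg (T : FT V) (y : V) (S : Finset V) : Finset V :=
  S.map (Equiv.swap y (T.par y)).toEmbedding

lemma mem_sg {y x : V} {S : Finset V} : x ∈ sg T y S ↔ Equiv.swap y (T.par y) x ∈ S := by
  unfold sg
  rw [mem_map_equiv, Equiv.symm_swap]

lemma sg_sg (y : V) (S : Finset V) : sg T y (sg T y S) = S := by
  ext x
  rw [mem_sg, mem_sg, Equiv.swap_apply_self]

lemma sg_mem {N : ℕ} {y : V} (hy : y ∈ T.B N) (hyo : y ≠ T.o) {S : Finset V}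
    (hS : S ∈ (T.B N).powerset) : sg T y S ∈ (T.B N).powerset := by
  rw [mem_powerset] at *
  intro x hx
  rw [mem_sg] at hx
  have hp : T.par y ∈ T.B N := by
    rw [T.mem_B] at *
    have := T.lev_par y hyo
    omega
  have h := hS hx
  by_cases h1 : x = y
  · rw [h1]; exact hy
  · by_cases h2 : x = T.par y
    · rw [h2]; exact hp
    · rwa [Equiv.swap_apply_of_ne_of_ne h1 h2] at h

lemma y_mem_sg {y : V} {S : Finset V} : y ∈ sg T y S ↔ T.par y ∈ S := by
  rw [mem_sg, Equiv.swap_apply_left]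

lemma p_mem_sg {y : V} {S : Finset V} : T.par y ∈ sg T y S ↔ y ∈ S := by
  rw [mem_sg, Equiv.swap_apply_right]

lemma sg_eq_self {y : V} {S : Finset V} (h : y ∈ S ↔ T.par y ∈ S) : sg T y S = S := by
  ext x
  rw [mem_sg]
  by_cases h1 : x = y
  · rw [h1, Equiv.swap_apply_left]; exact h.symm
  · by_cases h2 : x = T.par y
    · rw [h2, Equiv.swap_apply_right]; exact h
    · rw [Equiv.swap_apply_of_ne_of_ne h1 h2]

/-- traces with a particle at the parent of `y` and none at `y`. -/
def P10 (T : FT V) (N : ℕ) (y : V) : Finset (Finset V) :=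
  (T.B N).powerset.filter (fun S => T.par y ∈ S ∧ y ∉ S)

lemma sum_split {N : ℕ} {y : V} (hy : y ∈ T.B N) (hyo : y ≠ T.o) (F : Finset V → ℝ)
    (hF : ∀ S, (y ∈ S ↔ T.par y ∈ S) → F S = 0) :
    ∑ S ∈ (T.B N).powerset, F S = ∑ S ∈ P10 T N y, (F S + F (sg T y S)) := by
  have h1 : ∑ S ∈ (T.B N).powerset, F S =
      ∑ S ∈ (T.B N).powerset, (if T.par y ∈ S ∧ y ∉ S then F S else 0) +
      ∑ S ∈ (T.B N).powerset, (if T.par y ∉ S ∧ y ∈ S then F S else 0) := by
    rw [← sum_add_distrib]
    refine sum_congr rfl fun S _ => ?_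
    by_cases a : T.par y ∈ S <;> by_cases b : y ∈ S <;> simp [a, b]
    · exact hF S (by simp [a, b])
    · exact hF S (by simp [a, b])
  rw [h1, sum_add_distrib, P10, sum_filter, sum_filter]
  congr 1
  refine sum_nbij' (sg T y) (sg T y) (fun S hS => sg_mem hy hyo hS)
    (fun S hS => sg_mem hy hyo hS) (fun S _ => sg_sg y S) (fun S _ => sg_sg y S) ?_
  intro S _
  rw [sg_sg]
  simp only [y_mem_sg, p_mem_sg]
  congr 1
  simp [and_comm]

/-- Hellinger-type dissipation. -/
noncomputable def Hel (T : FT V) (E : Ob V →ₗ[ℝ] ℝ) (N : ℕ) (y : V) : ℝ :=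
  ∑ S ∈ P10 T N y, (√(ms T E N S) - √(ms T E N (sg T y S))) ^ 2

lemma par_mem_B' {N : ℕ} {y : V} (hy : y ∈ T.B N) (hyo : y ≠ T.o) : T.par y ∈ T.B N := by
  rw [T.mem_B] at *
  have := T.lev_par y hyo
  omega

lemma occ_eq {N : ℕ} {x : V} (hx : x ∈ T.B N) :
    occ x = fn T N (fun S => if x ∈ S then 1 else 0) := by
  ext η
  simp [mem_rs, hx]

lemma u_diff {E : Ob V →ₗ[ℝ] ℝ} {N : ℕ} {y : V} (hy : y ∈ T.B N)
    (hyo : y ≠ T.o) :
    E (occ y) - E (occ (T.par y)) =
      ∑ S ∈ P10 T N y, (ms T E N (sg T y S) - ms T E N S) := by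
  rw [occ_eq hy, occ_eq (par_mem_B' hy hyo), E_fn, E_fn, ← sum_sub_distrib]
  rw [sum_split hy hyo]
  · refine sum_congr rfl fun S hS => ?_
    simp only [P10, mem_filter] at hS
    simp only [y_mem_sg, p_mem_sg]
    simp [hS.2.1, hS.2.2]
    ring
  · intro S h
    by_cases b : y ∈ S
    · simp [b, h.1 b]
    · have c : T.par y ∉ S := fun c => b (h.2 c)
      simp [b, c]

lemma mass_P10 {E : Ob V →ₗ[ℝ] ℝ} (hE : State E) {N : ℕ} {y : V} (hy : y ∈ T.B N)
    (hyo : y ≠ T.o) :
    ∑ S ∈ P10 T N y, (ms T E N S + ms T E N (sg T y S)) ≤ 1 := by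
  have h := sum_split hy hyo (fun S => if (y ∈ S ↔ T.par y ∈ S) then 0 else ms T E N S)
    (fun S h => by rw [if_pos h])
  have h2 : ∑ S ∈ P10 T N y, (ms T E N S + ms T E N (sg T y S)) =
      ∑ S ∈ P10 T N y, ((fun S => if (y ∈ S ↔ T.par y ∈ S) then 0 else ms T E N S) S +
        (fun S => if (y ∈ S ↔ T.par y ∈ S) then 0 else ms T E N S) (sg T y S)) := by
    refine sum_congr rfl fun S hS => ?_
    simp only [P10, mem_filter] at hS
    simp only [y_mem_sg, p_mem_sg]
    simp [hS.2.1, hS.2.2]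
  rw [h2, ← h, ← sum_ms (T := T) hE N]
  refine sum_le_sum fun S _ => ?_
  split_ifs
  · exact ms_nonneg hE N S
  · exact le_rfl

lemma cyl_eq_fn {N : ℕ} {g : Ob V} (hg : T.Cyl N g) :
    g = fn T N (fun S => g (fun x => decide (x ∈ S))) := by
  ext η
  simp only [fn_apply]
  apply hg
  intro x hx
  by_cases h : η x = true
  · simp [mem_rs, hx, h]
  · simp [mem_rs, h]

lemma rs_sw {N : ℕ} {y : V} (hy : y ∈ T.B N) (hyo : y ≠ T.o) (η : Cfg V) :
    rs T N (T.sw y η) = sg T y (rs T N η) := by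
  ext x
  rw [mem_rs, mem_sg, mem_rs]
  have hp := par_mem_B' hy hyo
  have : x ∈ T.B N ↔ Equiv.swap y (T.par y) x ∈ T.B N := by
    by_cases h1 : x = y
    · rw [h1, Equiv.swap_apply_left]; simp [hy, hp]
    · by_cases h2 : x = T.par y
      · rw [h2, Equiv.swap_apply_right]; simp [hy, hp]
      · rw [Equiv.swap_apply_of_ne_of_ne h1 h2]
  rw [this]
  rfl

lemma diff_bound {E : Ob V →ₗ[ℝ] ℝ} (hE : State E) {N : ℕ} {y : V} (hy : y ∈ T.B N)
    (hyo : y ≠ T.o) {g : Ob V} (hg : T.Cyl N g) (h01 : ∀ η, 0 ≤ g η ∧ g η ≤ 1) :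
    (E g - E (T.W y g)) ^ 2 ≤ 2 * Hel T E N y := by
  set G : Finset V → ℝ := fun S => g (fun x => decide (x ∈ S)) with hG
  have hg1 : g = fn T N G := cyl_eq_fn hg
  have hg2 : T.W y g = fn T N (fun S => G (sg T y S)) := by
    ext η
    rw [FT.W_apply, fn_apply, ← rs_sw hy hyo]
    conv_lhs => rw [hg1]
    rfl
  have hG01 : ∀ S, 0 ≤ G S ∧ G S ≤ 1 := fun S => h01 _
  have e1 : E g - E (T.W y g) = ∑ S ∈ P10 T N y,
      (ms T E N S - ms T E N (sg T y S)) * (G S - G (sg T y S)) := by
    rw [hg2]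
    conv_lhs => rw [hg1]
    rw [E_fn, E_fn, ← sum_sub_distrib, sum_split hy hyo]
    · refine sum_congr rfl fun S _ => ?_
      rw [sg_sg]; ring
    · intro S h
      rw [sg_eq_self h]; ring
  have e2 : |E g - E (T.W y g)| ≤ ∑ S ∈ P10 T N y,
      |√(ms T E N S) - √(ms T E N (sg T y S))| * (√(ms T E N S) + √(ms T E N (sg T y S))) := by
    rw [e1]
    refine (abs_sum_le_sum_abs _ _).trans (sum_le_sum fun S _ => ?_)
    rw [abs_mul]
    have a1 : |G S - G (sg T y S)| ≤ 1 := by
      rw [abs_le]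
      have := hG01 S
      have := hG01 (sg T y S)
      constructor <;> linarith
    have a2 : ms T E N S - ms T E N (sg T y S) =
        (√(ms T E N S) - √(ms T E N (sg T y S))) * (√(ms T E N S) + √(ms T E N (sg T y S))) := by
      have b1 := Real.mul_self_sqrt (ms_nonneg (T := T) hE N S)
      have b2 := Real.mul_self_sqrt (ms_nonneg (T := T) hE N (sg T y S))
      nlinarith
    have a3 : |ms T E N S - ms T E N (sg T y S)| =
        |√(ms T E N S) - √(ms T E N (sg T y S))| *
          (√(ms T E N S) + √(ms T E N (sg T y S))) := by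
      rw [a2, abs_mul]
      congr 1
      exact abs_of_nonneg (by positivity)
    calc |ms T E N S - ms T E N (sg T y S)| * |G S - G (sg T y S)|
        ≤ |ms T E N S - ms T E N (sg T y S)| * 1 := by
          exact mul_le_mul_of_nonneg_left a1 (abs_nonneg _)
      _ = _ := by rw [mul_one, a3]
  have e3 : (∑ S ∈ P10 T N y, |√(ms T E N S) - √(ms T E N (sg T y S))| *
      (√(ms T E N S) + √(ms T E N (sg T y S)))) ^ 2 ≤
      (∑ S ∈ P10 T N y, |√(ms T E N S) - √(ms T E N (sg T y S))| ^ 2) *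
      ∑ S ∈ P10 T N y, (√(ms T E N S) + √(ms T E N (sg T y S))) ^ 2 :=
    sum_mul_sq_le_sq_mul_sq _ _ _
  have e4 : ∑ S ∈ P10 T N y, (√(ms T E N S) + √(ms T E N (sg T y S))) ^ 2 ≤ 2 := by
    calc ∑ S ∈ P10 T N y, (√(ms T E N S) + √(ms T E N (sg T y S))) ^ 2
        ≤ ∑ S ∈ P10 T N y, 2 * (ms T E N S + ms T E N (sg T y S)) := by
          refine sum_le_sum fun S _ => ?_
          have b1 := Real.mul_self_sqrt (ms_nonneg (T := T) hE N S)
          have b2 := Real.mul_self_sqrt (ms_nonneg (T := T) hE N (sg T y S))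
          nlinarith [sq_nonneg (√(ms T E N S) - √(ms T E N (sg T y S)))]
      _ = 2 * ∑ S ∈ P10 T N y, (ms T E N S + ms T E N (sg T y S)) := by rw [mul_sum]
      _ ≤ 2 * 1 := by
          exact mul_le_mul_of_nonneg_left (mass_P10 hE hy hyo) (by norm_num)
      _ = 2 := by norm_num
  have e5 : ∑ S ∈ P10 T N y, |√(ms T E N S) - √(ms T E N (sg T y S))| ^ 2 = Hel T E N y := by
    unfold Hel
    refine sum_congr rfl fun S _ => ?_
    rw [sq_abs]
  have e6 : 0 ≤ Hel T E N y := sum_nonneg fun S _ => sq_nonneg _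
  calc (E g - E (T.W y g)) ^ 2 = |E g - E (T.W y g)| ^ 2 := (sq_abs _).symm
    _ ≤ (∑ S ∈ P10 T N y, |√(ms T E N S) - √(ms T E N (sg T y S))| *
        (√(ms T E N S) + √(ms T E N (sg T y S)))) ^ 2 := by
          exact pow_le_pow_left₀ (abs_nonneg _) e2 2
    _ ≤ Hel T E N y * ∑ S ∈ P10 T N y, (√(ms T E N S) + √(ms T E N (sg T y S))) ^ 2 := by
          rw [← e5]; exact e3
    _ ≤ Hel T E N y * 2 := mul_le_mul_of_nonneg_left e4 e6
    _ = 2 * Hel T E N y := by ring

/-! ### scalar inequalities -/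

lemma scal1 {a b ε : ℝ} (ha : 0 ≤ a) (ha1 : a ≤ 1) (hb : 0 ≤ b) (hε : 0 < ε) :
    a * (Real.log (b + ε) - Real.log (a + ε)) ≤
      -(√a - √b) ^ 2 + (b - a) + 2 * √ε := by
  have hbε : 0 < b + ε := by linarith
  have haε : 0 < a + ε := by linarith
  have h1 : Real.log (b + ε) - Real.log (a + ε) ≤ 2 * (√(b + ε) / √(a + ε) - 1) := by
    rw [← Real.log_div hbε.ne' haε.ne']
    have hx : 0 < (b + ε) / (a + ε) := div_pos hbε haε
    have : Real.log ((b + ε) / (a + ε)) = 2 * Real.log (√((b + ε) / (a + ε))) := by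
      rw [Real.log_sqrt hx.le]; ring
    rw [this, Real.sqrt_div hbε.le]
    have h := Real.log_le_sub_one_of_pos (x := √(b + ε) / √(a + ε))
      (div_pos (Real.sqrt_pos.2 hbε) (Real.sqrt_pos.2 haε))
    linarith
  have h2 : a * (√(b + ε) / √(a + ε)) ≤ √a * √(b + ε) := by
    rw [mul_div_assoc', div_le_iff₀ (Real.sqrt_pos.2 haε)]
    have h3 : √a * √(a + ε) ≥ a := by
      have : √a ≤ √(a + ε) := Real.sqrt_le_sqrt (by linarith)
      nlinarith [Real.mul_self_sqrt ha, Real.sqrt_nonneg a]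
    nlinarith [Real.sqrt_nonneg (b + ε)]
  have h3 : √(b + ε) ≤ √b + √ε := by
    rw [Real.sqrt_le_left (by positivity)]
    nlinarith [Real.mul_self_sqrt hb, Real.mul_self_sqrt hε.le, Real.sqrt_nonneg b,
      Real.sqrt_nonneg ε, mul_nonneg (Real.sqrt_nonneg b) (Real.sqrt_nonneg ε)]
  have h4 : √a ≤ 1 := by
    rw [Real.sqrt_le_iff]; constructor <;> linarith
  have h5 : √a * √(b + ε) ≤ √a * √b + √ε := by
    have : √a * √(b + ε) ≤ √a * (√b + √ε) := mul_le_mul_of_nonneg_left h3 (Real.sqrt_nonneg a)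
    nlinarith [Real.sqrt_nonneg ε, Real.sqrt_nonneg a]
  have h6 : a * (Real.log (b + ε) - Real.log (a + ε)) ≤
      a * (2 * (√(b + ε) / √(a + ε) - 1)) := mul_le_mul_of_nonneg_left h1 ha
  nlinarith [Real.mul_self_sqrt ha, Real.mul_self_sqrt hb]

lemma scal2 {a b ε : ℝ} (ha : 0 ≤ a) (hb : 0 ≤ b) (hε : 0 < ε) :
    a * max 0 (Real.log (b + ε) - Real.log (a + ε)) ≤ b := by
  have hbε : 0 < b + ε := by linarith
  have haε : 0 < a + ε := by linarith
  rcases le_total (Real.log (b + ε) - Real.log (a + ε)) 0 with h | h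
  · rw [max_eq_left h, mul_zero]; exact hb
  · rw [max_eq_right h, ← Real.log_div hbε.ne' haε.ne']
    have h1 := Real.log_le_sub_one_of_pos (x := (b + ε) / (a + ε)) (div_pos hbε haε)
    have h2 : a * Real.log ((b + ε) / (a + ε)) ≤ a * ((b + ε) / (a + ε) - 1) :=
      mul_le_mul_of_nonneg_left h1 ha
    have h3 : a * ((b + ε) / (a + ε) - 1) ≤ b := by
      have : (b + ε) / (a + ε) - 1 = (b - a) / (a + ε) := by
        field_simp; ring
      rw [this, mul_div_assoc', div_le_iff₀ haε]
      nlinarith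
    linarith

/-! ### The generator -/

lemma L_E (E : Ob V →ₗ[ℝ] ℝ) (lam : ℝ) (n : ℕ) (f : Ob V) :
    E (T.L lam n f) = ∑ y ∈ T.B n, T.c lam y * (E (T.A y f) - E f) := by
  have : T.L lam n f = ∑ y ∈ T.B n, T.c lam y • (T.A y f - f) := by
    ext η
    rw [T.L_apply, ContinuousMap.sum_apply]
    rfl
  rw [this, map_sum]
  refine sum_congr rfl fun y _ => ?_
  rw [map_smul, map_sub, smul_eq_mul]

lemma rs_act {N : ℕ} {y : V} (hy : y ∈ T.B N) (hyo : y ≠ T.o) (η : Cfg V) :
    rs T N (T.act y η) =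
      if T.par y ∈ rs T N η ∧ y ∉ rs T N η then sg T y (rs T N η) else rs T N η := by
  have hp := par_mem_B' hy hyo
  have hpy : T.par y ≠ y := T.par_ne hyo
  split_ifs with h
  · rw [mem_rs, mem_rs] at h
    have h1 : η (T.par y) = true := h.1.2
    have h2 : η y = false := by
      by_contra h3
      exact h.2 ⟨hy, by simpa using h3⟩
    rw [← rs_sw hy hyo]
    have : T.act y η = T.sw y η := by
      funext z
      simp only [FT.act, FT.sw, hyo, if_false]
      by_cases a : z = y
      · subst a; simp [h1]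
      · by_cases b : z = T.par y
        · subst b
          simp [h2, hpy]
        · simp [a, b, Equiv.swap_apply_of_ne_of_ne a b]
    rw [this]
  · have : T.act y η = η := by
      rw [mem_rs, mem_rs] at h
      funext z
      simp only [FT.act, hyo, if_false]
      by_cases a : z = y
      · subst a
        by_cases c : η z = true
        · simp [c]
        · have : ¬ η (T.par z) = true := fun d => h ⟨⟨hp, d⟩, fun e => c e.2⟩
          simp [c, this]
      · by_cases b : z = T.par y
        · subst b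
          by_cases c : η (T.par y) = true
          · have : η y = true := by
              by_contra d
              exact h ⟨⟨hp, c⟩, fun e => d e.2⟩
            simp [c, this, hpy]
          · simp [c, hpy]
        · simp [a, b]
    rw [this]

lemma rs_act_o {N : ℕ} (η : Cfg V) :
    rs T N (T.act T.o η) = insert T.o (rs T N η) := by
  ext z
  rw [mem_insert, mem_rs, mem_rs]
  simp only [FT.act, if_true]
  by_cases a : z = T.o
  · subst a; simp [T.o_mem_B]
  · simp [a]

lemma rs_act_bd {N : ℕ} {y : V} (hy : y ∉ T.B N) (hyo : y ≠ T.o) (η : Cfg V) :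
    rs T N (T.act y η) =
      if η y = true then rs T N η else (rs T N η).erase (T.par y) := by
  have hpy : T.par y ≠ y := T.par_ne hyo
  ext z
  split_ifs with h
  · rw [mem_rs, mem_rs]
    refine and_congr_right fun hz => ?_
    have hzy : z ≠ y := fun e => hy (e ▸ hz)
    simp only [FT.act, hyo, if_false, hzy]
    by_cases b : z = T.par y
    · subst b; simp [h]
    · simp [b]
  · rw [mem_rs, mem_erase, mem_rs]
    constructor
    · rintro ⟨hz, h2⟩
      have hzy : z ≠ y := fun e => hy (e ▸ hz)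
      simp only [FT.act, hyo, if_false, hzy] at h2
      by_cases b : z = T.par y
      · simp [b, h] at h2
      · simp only [b, if_false] at h2
        exact ⟨b, hz, h2⟩
    · rintro ⟨b, hz, h2⟩
      have hzy : z ≠ y := fun e => hy (e ▸ hz)
      refine ⟨hz, ?_⟩
      simp only [FT.act, hyo, if_false, hzy, b]
      exact h2

lemma ring_in {E : Ob V →ₗ[ℝ] ℝ} (hE : State E) {N : ℕ} {y : V} (hy : y ∈ T.B N)
    (hyo : y ≠ T.o) {ε : ℝ} (hε : 0 < ε) (f : Ob V)
    (hf : f = fn T N (fun S => Real.log (ms T E N S + ε))) :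
    E (T.A y f) - E f ≤ -Hel T E N y + (E (occ y) - E (occ (T.par y))) +
      (2 ^ (T.B N).card : ℕ) * (2 * √ε) := by
  have h1 : T.A y f = fn T N (fun S => if T.par y ∈ S ∧ y ∉ S then
      Real.log (ms T E N (sg T y S) + ε) else Real.log (ms T E N S + ε)) := by
    ext η
    rw [FT.A_apply, hf, fn_apply, fn_apply, rs_act hy hyo]
    split_ifs <;> rfl
  have h2 : E (T.A y f) - E f = ∑ S ∈ P10 T N y, ms T E N S *
      (Real.log (ms T E N (sg T y S) + ε) - Real.log (ms T E N S + ε)) := by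
    rw [h1]
    conv_lhs => rw [hf]
    rw [E_fn, E_fn, ← sum_sub_distrib, P10, sum_filter]
    refine sum_congr rfl fun S _ => ?_
    split_ifs <;> ring
  rw [h2, u_diff hy hyo, Hel, ← sum_neg_distrib, ← sum_add_distrib]
  calc ∑ S ∈ P10 T N y, ms T E N S *
      (Real.log (ms T E N (sg T y S) + ε) - Real.log (ms T E N S + ε))
      ≤ ∑ S ∈ P10 T N y, ((-(√(ms T E N S) - √(ms T E N (sg T y S))) ^ 2 +
        (ms T E N (sg T y S) - ms T E N S)) + 2 * √ε) := by
        refine sum_le_sum fun S _ => ?_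
        exact scal1 (ms_nonneg hE N S) (ms_le_one hE N S) (ms_nonneg hE N _) hε
    _ = ∑ S ∈ P10 T N y, (-(√(ms T E N S) - √(ms T E N (sg T y S))) ^ 2 +
        (ms T E N (sg T y S) - ms T E N S)) + (P10 T N y).card * (2 * √ε) := by
        rw [sum_add_distrib, sum_const, nsmul_eq_mul]
    _ ≤ _ := by
        have : ((P10 T N y).card : ℝ) ≤ (2 ^ (T.B N).card : ℕ) := by
          rw [← card_powerset]
          exact_mod_cast card_le_card (filter_subset _ _)
        have h3 : 0 ≤ 2 * √ε := by positivity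
        nlinarith [mul_le_mul_of_nonneg_right this h3]

lemma ring_o {E : Ob V →ₗ[ℝ] ℝ} (hE : State E) {N : ℕ} {ε : ℝ} (hε : 0 < ε) (f : Ob V)
    (hf : f = fn T N (fun S => Real.log (ms T E N S + ε))) :
    E (T.A T.o f) - E f ≤ 1 := by
  have h1 : T.A T.o f = fn T N (fun S => Real.log (ms T E N (insert T.o S) + ε)) := by
    ext η
    rw [FT.A_apply, hf, fn_apply, fn_apply, rs_act_o]
  have h2 : E (T.A T.o f) - E f = ∑ S ∈ (T.B N).powerset, ms T E N S *
      (Real.log (ms T E N (insert T.o S) + ε) - Real.log (ms T E N S + ε)) := by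
    rw [h1]
    conv_lhs => rw [hf]
    rw [E_fn, E_fn, ← sum_sub_distrib]
    refine sum_congr rfl fun S _ => ?_
    ring
  rw [h2]
  calc ∑ S ∈ (T.B N).powerset, ms T E N S *
      (Real.log (ms T E N (insert T.o S) + ε) - Real.log (ms T E N S + ε))
      ≤ ∑ S ∈ (T.B N).powerset, (if T.o ∈ S then 0 else ms T E N (insert T.o S)) := by
        refine sum_le_sum fun S _ => ?_
        split_ifs with h
        · rw [insert_eq_of_mem h]; simp
        · refine le_trans ?_ (scal2 (ms_nonneg (T := T) hE N S)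
            (ms_nonneg (T := T) hE N (insert T.o S)) hε)
          exact mul_le_mul_of_nonneg_left (le_max_right _ _) (ms_nonneg hE N S)
    _ = ∑ S ∈ (T.B N).powerset.filter (fun S => T.o ∉ S), ms T E N (insert T.o S) := by
        rw [sum_filter]
        refine sum_congr rfl fun S _ => ?_
        by_cases h : T.o ∈ S <;> simp [h]
    _ = ∑ S ∈ ((T.B N).powerset.filter (fun S => T.o ∉ S)).image (insert T.o), ms T E N S := by
        rw [sum_image]
        intro S hS S' hS' h
        simp only [coe_filter, Set.mem_ofPred_eq] at hS hS'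
        have := congrArg (fun X => X.erase T.o) h
        simpa [erase_insert hS.2, erase_insert hS'.2] using this
    _ ≤ ∑ S ∈ (T.B N).powerset, ms T E N S := by
        apply sum_le_sum_of_subset_of_nonneg
        · intro S hS
          simp only [mem_image, mem_filter, mem_powerset] at hS
          obtain ⟨S', hS', rfl⟩ := hS
          rw [mem_powerset]
          exact insert_subset (T.o_mem_B N) hS'.1
        · intro S _ _
          exact ms_nonneg hE N S
    _ = 1 := sum_ms hE N

lemma ring_bd {E : Ob V →ₗ[ℝ] ℝ} (hE : State E) {N : ℕ} {y : V} (hy : y ∉ T.B N)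
    (hyo : y ≠ T.o) {ε : ℝ} (hε : 0 < ε) (f : Ob V)
    (hf : f = fn T N (fun S => Real.log (ms T E N S + ε))) :
    E (T.A y f) - E f ≤ 1 := by
  set p := T.par y with hp
  have h1 : ∀ η, (T.A y f - f) η ≤ fn T N (fun S => if p ∈ S then
      max 0 (Real.log (ms T E N (S.erase p) + ε) - Real.log (ms T E N S + ε)) else 0) η := by
    intro η
    rw [ContinuousMap.sub_apply, FT.A_apply, hf, fn_apply, fn_apply, fn_apply, rs_act_bd hy hyo,
      ← hp]
    by_cases h : η y = true
    · simp only [h, if_true, sub_self]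
      split_ifs
      · exact le_max_left _ _
      · exact le_rfl
    · simp only [h]
      by_cases h2 : p ∈ rs T N η
      · simp only [h2, if_true]
        exact le_max_right _ _
      · simp [h2]
  have h2 : E (T.A y f) - E f ≤ ∑ S ∈ (T.B N).powerset, (if p ∈ S then
      max 0 (Real.log (ms T E N (S.erase p) + ε) - Real.log (ms T E N S + ε)) else 0) *
        ms T E N S := by
    rw [← map_sub, ← E_fn]
    exact E_mono hE h1
  refine h2.trans ?_
  calc ∑ S ∈ (T.B N).powerset, (if p ∈ S then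
      max 0 (Real.log (ms T E N (S.erase p) + ε) - Real.log (ms T E N S + ε)) else 0) *
        ms T E N S
      ≤ ∑ S ∈ (T.B N).powerset, (if p ∈ S then ms T E N (S.erase p) else 0) := by
        refine sum_le_sum fun S _ => ?_
        split_ifs with h
        · rw [mul_comm]
          exact scal2 (ms_nonneg hE N S) (ms_nonneg hE N (S.erase p)) hε
        · simp
    _ = ∑ S ∈ (T.B N).powerset.filter (fun S => p ∈ S), ms T E N (S.erase p) := by
        rw [sum_filter]
    _ = ∑ S ∈ ((T.B N).powerset.filter (fun S => p ∈ S)).image (fun S => S.erase p),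
        ms T E N S := by
        rw [sum_image]
        intro S hS S' hS' h
        simp only [coe_filter, Set.mem_ofPred_eq] at hS hS'
        have := congrArg (fun X => insert p X) h
        simpa [insert_erase hS.2, insert_erase hS'.2] using this
    _ ≤ ∑ S ∈ (T.B N).powerset, ms T E N S := by
        apply sum_le_sum_of_subset_of_nonneg
        · intro S hS
          simp only [mem_image, mem_filter, mem_powerset] at hS
          obtain ⟨S', hS', rfl⟩ := hS
          rw [mem_powerset]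
          exact (erase_subset _ _).trans hS'.1
        · intro S _ _
          exact ms_nonneg hE N S
    _ = 1 := sum_ms hE N

lemma B_succ (N : ℕ) : T.B (N + 1) = T.B N ∪ T.lv (N + 1) := by
  ext x
  rw [mem_union, T.mem_B, T.mem_B, T.mem_lv]
  omega

lemma B_disj (N : ℕ) : Disjoint (T.B N) (T.lv (N + 1)) := by
  rw [disjoint_left]
  intro x hx hx'
  rw [T.mem_B] at hx
  rw [T.mem_lv] at hx'
  omega

/-- telescoping of the flow. -/
lemma telesc (u : V → ℝ) (N : ℕ) :
    ∑ y ∈ (T.B N).erase T.o, T.R y * (u y - u (T.par y)) =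
      ∑ y ∈ T.lv N, T.R y * u y - T.q * u T.o := by
  induction N with
  | zero =>
    have h1 : (T.B 0).erase T.o = ∅ := by
      ext x
      rw [mem_erase, T.mem_B]
      simp only [nonpos_iff_eq_zero, T.lev_eq_zero, notMem_empty, iff_false]
      tauto
    have h2 : T.lv 0 = {T.o} := rfl
    rw [h1, h2, sum_empty, sum_singleton, T.R_o]; ring
  | succ N ih =>
    have h1 : (T.B (N + 1)).erase T.o = (T.B N).erase T.o ∪ T.lv (N + 1) := by
      rw [B_succ]
      ext x
      simp only [mem_erase, mem_union]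
      constructor
      · rintro ⟨a, b | b⟩
        · exact Or.inl ⟨a, b⟩
        · exact Or.inr b
      · rintro (⟨a, b⟩ | b)
        · exact ⟨a, Or.inl b⟩
        · refine ⟨?_, Or.inr b⟩
          rintro rfl
          rw [T.mem_lv, T.lev_o] at b
          omega
    have h2 : Disjoint ((T.B N).erase T.o) (T.lv (N + 1)) :=
      (B_disj N).mono_left (erase_subset _ _)
    rw [h1, sum_union h2, ih]
    have h3 : ∑ y ∈ T.lv (N + 1), T.R y * (u y - u (T.par y)) =
        ∑ y ∈ T.lv (N + 1), T.R y * u y - ∑ y ∈ T.lv (N + 1), T.R y * u (T.par y) := by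
      rw [← sum_sub_distrib]
      exact sum_congr rfl fun y _ => by ring
    have h4 : ∑ y ∈ T.lv (N + 1), T.R y * u (T.par y) = ∑ z ∈ T.lv N, T.R z * u z := by
      rw [T.sum_lv_succ]
      refine sum_congr rfl fun z _ => ?_
      rw [← T.flow z, sum_mul]
      refine sum_congr rfl fun y hy => ?_
      rw [((T.mem_ch z y).1 hy).2]
    rw [h3, h4]; ring

omit [DecidableEq V] in
lemma occ_le {E : Ob V →ₗ[ℝ] ℝ} (hE : State E) (x : V) : E (occ x) ≤ 1 := by
  rw [← hE.one]
  apply E_mono hE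
  intro η
  simp only [occ_apply, ContinuousMap.one_apply]
  split_ifs <;> norm_num

omit [DecidableEq V] in
lemma occ_nonneg {E : Ob V →ₗ[ℝ] ℝ} (hE : State E) (x : V) : 0 ≤ E (occ x) := by
  apply hE.pos
  intro η
  simp only [occ_apply]
  split_ifs <;> norm_num

lemma hel_eps {E : Ob V →ₗ[ℝ] ℝ} (hE : State E) {lam : ℝ} (hlam : 0 < lam)
    (hS : Stat T lam E) (N : ℕ) {ε : ℝ} (hε : 0 < ε) :
    ∑ y ∈ (T.B N).erase T.o, T.R y * Hel T E N y ≤ 2 * T.q + lam +
      (∑ y ∈ (T.B N).erase T.o, T.R y * (2 ^ (T.B N).card : ℕ)) * (2 * √ε) := by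
  set f : Ob V := fn T N (fun S => Real.log (ms T E N S + ε)) with hf
  have hcyl : T.Cyl N f := by
    intro η ζ h
    rw [hf, fn_apply, fn_apply]
    have : rs T N η = rs T N ζ := by
      ext x
      rw [mem_rs, mem_rs]
      exact and_congr_right fun hx => by rw [h x hx]
    rw [this]
  have h0 := hS N f hcyl
  rw [L_E, B_succ, sum_union (B_disj N), ← add_sum_erase _ _ (T.o_mem_B N)] at h0
  have hco : T.c lam T.o = lam := by simp [FT.c]
  rw [hco] at h0
  have b1 : lam * (E (T.A T.o f) - E f) ≤ lam := by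
    have := ring_o hE hε f hf
    nlinarith
  have b2 : ∑ y ∈ T.lv (N + 1), T.c lam y * (E (T.A y f) - E f) ≤ T.q := by
    rw [← T.sum_R_lv (N + 1)]
    refine sum_le_sum fun y hy => ?_
    have hyl := T.mem_lv.1 hy
    have hyo : y ≠ T.o := by rintro rfl; rw [T.lev_o] at hyl; omega
    have hyB : y ∉ T.B N := by rw [T.mem_B]; omega
    have h1 := ring_bd hE hyB hyo hε f hf
    have h2 : T.c lam y = T.R y := by simp [FT.c, hyo]
    rw [h2]
    have := T.R_pos y
    nlinarith
  have b3 : ∑ y ∈ (T.B N).erase T.o, T.c lam y * (E (T.A y f) - E f) ≤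
      -(∑ y ∈ (T.B N).erase T.o, T.R y * Hel T E N y) +
      ∑ y ∈ (T.B N).erase T.o, T.R y * (E (occ y) - E (occ (T.par y))) +
      (∑ y ∈ (T.B N).erase T.o, T.R y * (2 ^ (T.B N).card : ℕ)) * (2 * √ε) := by
    rw [← sum_neg_distrib, ← sum_add_distrib, sum_mul, ← sum_add_distrib]
    refine sum_le_sum fun y hy => ?_
    rw [mem_erase] at hy
    have h1 := ring_in hE hy.2 hy.1 hε f hf
    have h2 : T.c lam y = T.R y := by simp [FT.c, hy.1]
    rw [h2]
    have := mul_le_mul_of_nonneg_left h1 (T.R_pos y).le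
    linarith
  rw [telesc] at b3
  have b4 : ∑ y ∈ T.lv N, T.R y * E (occ y) ≤ T.q := by
    rw [← T.sum_R_lv N]
    refine sum_le_sum fun y _ => ?_
    have := occ_le hE y
    have := T.R_pos y
    nlinarith
  have b5 : 0 ≤ T.q * E (occ T.o) := mul_nonneg T.q_pos.le (occ_nonneg hE _)
  linarith

lemma hel_bound {E : Ob V →ₗ[ℝ] ℝ} (hE : State E) {lam : ℝ} (hlam : 0 < lam)
    (hS : Stat T lam E) (N : ℕ) :
    ∑ y ∈ (T.B N).erase T.o, T.R y * Hel T E N y ≤ 2 * T.q + lam := by
  set C := ∑ y ∈ (T.B N).erase T.o, T.R y * (2 ^ (T.B N).card : ℕ)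
  have ht : Tendsto (fun ε : ℝ => 2 * T.q + lam + C * (2 * √ε)) (𝓝[>] 0)
      (𝓝 (2 * T.q + lam + C * (2 * √0))) := by
    apply Tendsto.mono_left _ nhdsWithin_le_nhds
    apply Continuous.tendsto
    fun_prop
  rw [Real.sqrt_zero, mul_zero, mul_zero, add_zero] at ht
  refine ge_of_tendsto ht ?_
  filter_upwards [self_mem_nhdsWithin] with ε hε
  exact hel_eps hE hlam hS N hε

/-- the set of discrepancies. -/
def dset (T : FT V) (E : Ob V →ₗ[ℝ] ℝ) (y : V) : Set ℝ :=
  {r | ∃ (m : ℕ) (g : Ob V), T.Cyl m g ∧ (∀ η, 0 ≤ g η ∧ g η ≤ 1) ∧ r = |E g - E (T.W y g)|}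

lemma dset_zero (E : Ob V →ₗ[ℝ] ℝ) (y : V) : (0 : ℝ) ∈ dset T E y := by
  refine ⟨0, 0, fun _ _ _ => rfl, fun _ => by simp, ?_⟩
  have : T.W y (0 : Ob V) = 0 := by ext η; simp
  rw [this]; simp

lemma dset_bdd {E : Ob V →ₗ[ℝ] ℝ} (hE : State E) (y : V) : BddAbove (dset T E y) := by
  refine ⟨1, ?_⟩
  rintro r ⟨m, g, -, h01, rfl⟩
  have h1 : E g ≤ 1 := by
    rw [← hE.one]; exact E_mono hE fun η => (h01 η).2
  have h2 : 0 ≤ E g := hE.pos _ fun η => (h01 η).1
  have h3 : E (T.W y g) ≤ 1 := by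
    rw [← hE.one]; exact E_mono hE fun η => (h01 _).2
  have h4 : 0 ≤ E (T.W y g) := hE.pos _ fun η => (h01 _).1
  rw [abs_le]; constructor <;> linarith

end Diss

open Diss in
theorem dissStmt : DissStmt.{u} := by
  intro V _ T lam hlam E hE hS
  refine ⟨fun y => sSup (dset T E y), fun y => le_csSup (dset_bdd hE y) (dset_zero E y), ?_, ?_⟩
  · intro y _ m g hg h01
    exact le_csSup (dset_bdd hE y) ⟨m, g, hg, h01, rfl⟩
  · intro M
    -- approximation
    have key : ∀ δ : ℝ, 0 < δ → ∑ y ∈ (T.B M).erase T.o,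
        T.R y * (max 0 (sSup (dset T E y) - δ)) ^ 2 ≤ 2 * (2 * T.q + lam) := by
      intro δ hδ
      have hex : ∀ y : V, ∃ (m : ℕ) (g : Ob V), T.Cyl m g ∧ (∀ η, 0 ≤ g η ∧ g η ≤ 1) ∧
          sSup (dset T E y) - δ < |E g - E (T.W y g)| := by
        intro y
        obtain ⟨r, ⟨m, g, h1, h2, rfl⟩, h3⟩ := exists_lt_of_lt_csSup
          (⟨0, dset_zero E y⟩ : (dset T E y).Nonempty)
          (show sSup (dset T E y) - δ < sSup (dset T E y) by linarith)
        exact ⟨m, g, h1, h2, h3⟩
      choose m g hg1 hg2 hg3 using hex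
      set N := max M ((T.B M).sup m) with hN
      have hMN : M ≤ N := le_max_left _ _
      calc ∑ y ∈ (T.B M).erase T.o, T.R y * (max 0 (sSup (dset T E y) - δ)) ^ 2
          ≤ ∑ y ∈ (T.B M).erase T.o, T.R y * (2 * Hel T E N y) := by
            refine sum_le_sum fun y hy => ?_
            rw [mem_erase] at hy
            refine mul_le_mul_of_nonneg_left ?_ (T.R_pos y).le
            have hcyl : T.Cyl N (g y) := by
              intro η ζ h
              apply hg1 y
              intro x hx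
              apply h
              refine T.B_mono ?_ hx
              exact (le_sup (f := m) hy.2).trans (le_max_right _ _)
            have h1 := diff_bound hE (T.B_mono hMN hy.2) hy.1 hcyl (hg2 y)
            refine le_trans ?_ h1
            rw [← sq_abs (E (g y) - E (T.W y (g y)))]
            apply pow_le_pow_left₀ (le_max_left _ _)
            exact max_le (abs_nonneg _) (hg3 y).le
        _ ≤ ∑ y ∈ (T.B N).erase T.o, T.R y * (2 * Hel T E N y) := by
            apply sum_le_sum_of_subset_of_nonneg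
            · exact erase_subset_erase _ (T.B_mono hMN)
            · intro y _ _
              have : 0 ≤ Hel T E N y := sum_nonneg fun S _ => sq_nonneg _
              have := T.R_pos y
              positivity
        _ = 2 * ∑ y ∈ (T.B N).erase T.o, T.R y * Hel T E N y := by
            rw [mul_sum]
            exact sum_congr rfl fun y _ => by ring
        _ ≤ 2 * (2 * T.q + lam) := by
            have := hel_bound hE hlam hS N
            linarith
    have ht : Tendsto (fun δ : ℝ => ∑ y ∈ (T.B M).erase T.o,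
        T.R y * (max 0 (sSup (dset T E y) - δ)) ^ 2) (𝓝[>] 0)
        (𝓝 (∑ y ∈ (T.B M).erase T.o, T.R y * (max 0 (sSup (dset T E y) - 0)) ^ 2)) := by
      apply Tendsto.mono_left _ nhdsWithin_le_nhds
      apply Continuous.tendsto (f := fun δ : ℝ => ∑ y ∈ (T.B M).erase T.o,
        T.R y * (max 0 (sSup (dset T E y) - δ)) ^ 2)
      fun_prop
    have hlim := le_of_tendsto ht (by
      filter_upwards [self_mem_nhdsWithin] with δ hδ
      exact key δ hδ)
    refine le_trans (le_of_eq ?_) hlim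
    refine sum_congr rfl fun y _ => ?_
    rw [sub_zero, max_eq_right (le_csSup (dset_bdd hE y) (dset_zero E y))]

end Pool.Agent.H40.Tr
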