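import Pool.Agent.H40.Tr.Spec

/-!
Module FLUX: the current of a stationary state.
-/

namespace Pool.Agent.H40.Tr

open Finset Filter Topology
open scoped NNReal

universe u

namespace FT

variable {V : Type u} [DecidableEq V] (T : FT V)

lemma occ_act_root (x : V) (η : Cfg V) :
    occ x (T.act T.o η) - occ x η = if x = T.o then 1 - occ T.o η else 0 := by
  by_cases hx : x = T.o
  · subst hx; simp [act]
  · simp [act, hx]

lemma occ_act_ne {y : V} (hy : y ≠ T.o) (x : V) (η : Cfg V) :
    occ x (T.act y η) - occ x η =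
      (if x = y then occ (T.par y) η * (1 - occ y η) else 0) -
      (if x = T.par y then occ (T.par y) η * (1 - occ y η) else 0) := by
  have hp := T.par_ne hy
  by_cases hx : x = y
  · subst hx
    have hp' : x ≠ T.par x := fun h => hp h.symm
    simp only [occ_apply, act, hy, hp', if_true, if_false]
    cases η x <;> cases η (T.par x) <;> simp
  · by_cases hx2 : x = T.par y
    · subst hx2
      simp only [occ_apply, act, hy, hp, if_true, if_false]
      cases η y <;> cases η (T.par y) <;> simp
    · simp [act, hy, hx, hx2]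

lemma cyl_occ (x : V) : T.Cyl (T.lev x) (occ x) := by
  intro η ζ h
  have := h x (by rw [mem_B])
  simp [this]

/-- The generator on occupation variables. -/
lemma L_occ (lam : ℝ) (x : V) : T.L lam (T.lev x + 1) (occ x) =
    (if x = T.o then lam • (1 - occ T.o) else T.R x • (occ (T.par x) * (1 - occ x))) -
    ∑ y ∈ T.ch x, T.R y • (occ (T.par y) * (1 - occ y)) := by
  ext η
  rw [L_apply]
  have ho : T.o ∈ T.B (T.lev x + 1) := T.o_mem_B _
  rw [← Finset.add_sum_erase _ _ ho, T.occ_act_root]
  have h1 : ∑ y ∈ (T.B (T.lev x + 1)).erase T.o,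
      T.c lam y * (occ x (T.act y η) - occ x η) =
      ∑ y ∈ (T.B (T.lev x + 1)).erase T.o,
        ((if x = y then T.R y * (occ (T.par y) η * (1 - occ y η)) else 0) -
          (if x = T.par y then T.R y * (occ (T.par y) η * (1 - occ y η)) else 0)) := by
    refine Finset.sum_congr rfl fun y hy => ?_
    have hyo : y ≠ T.o := (Finset.mem_erase.1 hy).1
    rw [T.occ_act_ne hyo, c, if_neg hyo, mul_sub, mul_ite, mul_ite, mul_zero]
  rw [h1, Finset.sum_sub_distrib]
  have h2 : ∑ y ∈ (T.B (T.lev x + 1)).erase T.o,
      (if x = T.par y then T.R y * (occ (T.par y) η * (1 - occ y η)) else 0) =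
      ∑ y ∈ T.ch x, T.R y * (occ (T.par y) η * (1 - occ y η)) := by
    rw [← Finset.sum_filter]
    refine Finset.sum_congr ?_ fun _ _ => rfl
    ext y
    simp only [mem_filter, Finset.mem_erase, mem_B, T.mem_ch]
    constructor
    · rintro ⟨⟨h1, h2⟩, h3⟩; exact ⟨h1, h3.symm⟩
    · rintro ⟨h1, h2⟩
      refine ⟨⟨h1, ?_⟩, h2.symm⟩
      rw [T.lev_par y h1, h2]
  rw [h2]
  have h3 : ((∑ y ∈ T.ch x, T.R y • (occ (T.par y) * (1 - occ y)) : Ob V)) η =
      ∑ y ∈ T.ch x, T.R y * (occ (T.par y) η * (1 - occ y η)) := by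
    rw [ContinuousMap.sum_apply]
    refine Finset.sum_congr rfl fun y _ => ?_
    simp only [ContinuousMap.smul_apply, ContinuousMap.mul_apply, ContinuousMap.sub_apply,
      ContinuousMap.one_apply, smul_eq_mul]
  rw [ContinuousMap.sub_apply, h3]
  by_cases hx : x = T.o
  · rw [if_pos hx, if_pos hx]
    have h4 : ∑ y ∈ (T.B (T.lev x + 1)).erase T.o,
        (if x = y then T.R y * (occ (T.par y) η * (1 - occ y η)) else 0) = 0 := by
      refine Finset.sum_eq_zero fun y hy => ?_
      have hyo : y ≠ T.o := (Finset.mem_erase.1 hy).1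
      rw [if_neg]
      rintro rfl
      exact hyo hx
    rw [h4]
    simp only [c, if_true, ContinuousMap.smul_apply, ContinuousMap.sub_apply,
      ContinuousMap.one_apply, smul_eq_mul]
    ring
  · rw [if_neg hx, if_neg hx, mul_zero]
    have h4 : ∑ y ∈ (T.B (T.lev x + 1)).erase T.o,
        (if x = y then T.R y * (occ (T.par y) η * (1 - occ y η)) else 0) =
        T.R x * (occ (T.par x) η * (1 - occ x η)) := by
      rw [Finset.sum_ite_eq, if_pos]
      rw [Finset.mem_erase, mem_B]
      exact ⟨hx, by omega⟩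
    rw [h4]
    simp only [ContinuousMap.smul_apply, ContinuousMap.sub_apply, ContinuousMap.mul_apply,
      ContinuousMap.one_apply, smul_eq_mul]
    ring

end FT

theorem fluxStmt : FluxStmt.{u} := by
  intro V _ T lam hlam E hE hS
  have key : ∀ x : V, E (if x = T.o then lam • (1 - occ T.o)
      else T.R x • (occ (T.par x) * (1 - occ x))) = flux T E x := by
    intro x
    have h := hS (T.lev x) (occ x) (T.cyl_occ x)
    rw [T.L_occ, map_sub, sub_eq_zero, map_sum] at h
    rw [h, flux]
    refine Finset.sum_congr rfl fun y _ => ?_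
    rw [map_smul, smul_eq_mul]
  have h1 : flux T E T.o = lam * (1 - E (occ T.o)) := by
    have h := key T.o
    rw [if_pos rfl, map_smul, map_sub, hE.one, smul_eq_mul] at h
    exact h.symm
  have h2 : ∀ x, x ≠ T.o → T.R x * E (occ (T.par x) * (1 - occ x)) = flux T E x := by
    intro x hx
    have h := key x
    rw [if_neg hx, map_smul, smul_eq_mul] at h
    exact h
  refine ⟨h1, h2, ?_⟩
  intro x k
  induction k with
  | zero =>
    rw [T.sum_D_succ]
    simp only [FT.D, Finset.sum_singleton]
    rfl
  | succ k ih =>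
    rw [T.sum_D_succ, ← ih]
    refine Finset.sum_congr rfl fun z hz => ?_
    have hzo : z ≠ T.o := by
      intro h
      have := T.mem_D_lev hz
      rw [h, T.lev_o] at this
      omega
    exact (h2 z hzo).symm

end Pool.Agent.H40.Tr
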