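import Mathlib

/-!
TASEP on a tree with a reservoir at the root: the definitions used in the final statements.
-/

namespace Pool.Agent.H40.Tr

open Filter Topology MeasureTheory
open scoped NNReal

/-- `y` is a child of `x` in the tree `G` rooted at `o`. -/
def ChildOf {V : Type*} (G : SimpleGraph V) (o x y : V) : Prop :=
  G.Adj x y ∧ G.dist o y = G.dist o x + 1

/-- `G` is a locally finite tree, and the rates `r x y > 0` of the directed edges `(x, y)` (from
parent to child) satisfy a flow rule of strength `q > 0`. -/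
structure FlowTree {V : Type*} (G : SimpleGraph V) (o : V) (r : V → V → ℝ) (q : ℝ) : Prop where
  isTree : G.IsTree
  locallyFinite : ∀ x, (G.neighborSet x).Finite
  rate_pos : ∀ x y, ChildOf G o x y → 0 < r x y
  strength_pos : 0 < q
  flow_root : ∑ᶠ y ∈ {y | ChildOf G o o y}, r o y = q
  flow : ∀ z x, ChildOf G o z x → r z x = ∑ᶠ y ∈ {y | ChildOf G o x y}, r x y

open Classical in
/-- The configuration with the values at `x` and `y` exchanged. -/
noncomputable def exch {V : Type*} (x y : V) (η : V → Bool) : V → Bool :=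
  fun z => η (Equiv.swap x y z)

open Classical in
/-- The configuration with the value at `o` flipped. -/
noncomputable def flip {V : Type*} (o : V) (η : V → Bool) : V → Bool :=
  Function.update η o (!η o)

open Classical in
/-- The generator of the TASEP on `G` with reservoir intensity `lam` at the root. -/
noncomputable def gen {V : Type*} (G : SimpleGraph V) (o : V) (r : V → V → ℝ) (lam : ℝ)
    (f : (V → Bool) → ℝ) (η : V → Bool) : ℝ :=
  lam * (if η o = false then f (flip o η) - f η else 0) +
  ∑ᶠ e : V × V, if ChildOf G o e.1 e.2 ∧ η e.1 = true ∧ η e.2 = false then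
    r e.1 e.2 * (f (exch e.1 e.2 η) - f η) else 0

/-- `P` is the Feller semigroup of the TASEP on `G`: a strongly continuous Markov semigroup on
`C({0,1}^V)` whose derivative at time zero, on cylinder functions, is given by `gen`. -/
structure IsTasep {V : Type*} (G : SimpleGraph V) (o : V) (r : V → V → ℝ) (lam : ℝ)
    (P : ℝ≥0 → C(V → Bool, ℝ) →L[ℝ] C(V → Bool, ℝ)) : Prop where
  zero : ∀ f, P 0 f = f
  add : ∀ s t f, P (s + t) f = P s (P t f)
  positive : ∀ t f, 0 ≤ f → 0 ≤ P t f
  one : ∀ t, P t 1 = 1
  continuous : ∀ f, Continuous fun t => P t f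
  generator : ∀ (f : C(V → Bool, ℝ)) (s : Finset V), DependsOn (f : (V → Bool) → ℝ) (s : Set V) →
    TendstoUniformly (fun (t : ℝ≥0) (η : V → Bool) => (P t f η - f η) / t)
      (gen G o r lam f) (𝓝[>] 0)

/-- The Bernoulli measure with parameter `ρ` on `{0,1}`. -/
noncomputable def bern (ρ : ℝ) : Measure Bool :=
  ENNReal.ofReal ρ • Measure.dirac true + ENNReal.ofReal (1 - ρ) • Measure.dirac false

/-- The Bernoulli product measure `ν_ρ` on `{0,1}^V`. -/
noncomputable def nu (V : Type*) (ρ : ℝ) : Measure (V → Bool) :=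
  Measure.infinitePi fun _ : V => bern ρ

/-- `lim_{t → ∞} ν_0 S_t = π` in the weak topology (`ν_0` is the point mass on the empty
configuration). -/
def LimitLaw {V : Type*} (P : ℝ≥0 → C(V → Bool, ℝ) →L[ℝ] C(V → Bool, ℝ))
    (π : Measure (V → Bool)) : Prop :=
  ∀ f : C(V → Bool, ℝ), Tendsto (fun t => P t f (fun _ => false)) atTop (𝓝 (∫ η, f η ∂π))

end Pool.Agent.H40.Tr
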