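import Pool.Agent.H40.Tr.Spec

/-!
Module GR: from the rooted tree graph with a flow rule to the combinatorial data `FT`.
-/

namespace Pool.Agent.H40.Tr

open Finset Filter Topology MeasureTheory
open scoped NNReal

universe u

namespace Gr

variable {V : Type u} {G : SimpleGraph V} {o : V}

lemma exists_parent (h : G.IsTree) {x : V} (hx : x ≠ o) : ∃ y, ChildOf G o y x := by
  obtain ⟨p, hp, hl⟩ := h.connected.exists_path_of_dist o x
  have hnil : ¬ p.Nil := SimpleGraph.Walk.not_nil_of_ne (fun h => hx h.symm)
  have hadj : G.Adj p.penultimate x := p.adj_penultimate hnil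
  refine ⟨p.penultimate, hadj, ?_⟩
  rcases h.dist_eq_dist_add_one_of_adj o hadj with h1 | h1
  · exfalso
    -- the walk obtained by dropping the last edge is too short
    have h2 : G.dist o p.penultimate ≤ p.dropLast.length := SimpleGraph.dist_le _
    have h3 : p.dropLast.length ≤ p.length := by
      simp [SimpleGraph.Walk.length_dropLast]
    omega
  · exact h1

lemma unique_parent (h : G.IsTree) {x y z : V} (h1 : ChildOf G o y x) (h2 : ChildOf G o z x) :
    y = z := by
  obtain ⟨p, hp, hl⟩ := h.connected.exists_path_of_dist o y
  obtain ⟨p', hp', hl'⟩ := h.connected.exists_path_of_dist o z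
  have hq : (p.concat h1.1).IsPath := by
    apply SimpleGraph.Walk.isPath_of_length_eq_dist
    rw [SimpleGraph.Walk.length_concat, hl, h1.2]
  have hq' : (p'.concat h2.1).IsPath := by
    apply SimpleGraph.Walk.isPath_of_length_eq_dist
    rw [SimpleGraph.Walk.length_concat, hl', h2.2]
  have hss := h.isAcyclic.subsingleton_path o x
  have this : (⟨_, hq⟩ : G.Path o x) = ⟨_, hq'⟩ := Subsingleton.elim _ _
  have h3 : p.concat h1.1 = p'.concat h2.1 := congrArg Subtype.val this
  have h4 := congrArg SimpleGraph.Walk.penultimate h3
  simpa using h4

open Classical in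
/-- the parent. -/
noncomputable def par (G : SimpleGraph V) (o : V) (x : V) : V :=
  if h : ∃ y, ChildOf G o y x then h.choose else o

lemma par_spec (h : G.IsTree) {x : V} (hx : x ≠ o) : ChildOf G o (par G o x) x := by
  have := exists_parent h hx
  unfold par
  rw [dif_pos this]
  exact this.choose_spec

lemma child_ne {x y : V} (h : ChildOf G o x y) : y ≠ o := by
  rintro rfl
  have := h.2
  simp at this

lemma child_iff (h : G.IsTree) {x y : V} : ChildOf G o x y ↔ y ≠ o ∧ par G o y = x := by
  constructor
  · intro h1
    have hy := child_ne h1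
    exact ⟨hy, unique_parent h (par_spec h hy) h1⟩
  · rintro ⟨h1, rfl⟩
    exact par_spec h h1

variable {r : V → V → ℝ} {q : ℝ}

lemma finite_ch (F : FlowTree G o r q) (x : V) : {y | ChildOf G o x y}.Finite :=
  (F.locallyFinite x).subset fun _ hy => hy.1

open Classical in
/-- the rates. -/
noncomputable def R (G : SimpleGraph V) (o : V) (r : V → V → ℝ) (q : ℝ) (x : V) : ℝ :=
  if x = o then q else r (par G o x) x

lemma R_ne {x : V} (hx : x ≠ o) : R G o r q x = r (par G o x) x := by
  unfold R; rw [if_neg hx]

/-- the data. -/
noncomputable def ft (F : FlowTree G o r q) : FT V where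
  o := o
  par := par G o
  lev := G.dist o
  ch := fun x => (finite_ch F x).toFinset
  R := R G o r q
  q := q
  lev_o := by simp
  lev_par := fun x hx => (par_spec F.isTree hx).2
  mem_ch := fun x y => by
    rw [Set.Finite.mem_toFinset, Set.mem_ofPred_eq, child_iff F.isTree]
  R_pos := fun x => by
    by_cases hx : x = o
    · unfold R; rw [if_pos hx]; exact F.strength_pos
    · rw [R_ne hx]; exact F.rate_pos _ _ (par_spec F.isTree hx)
  R_o := by unfold R; rw [if_pos rfl]
  flow := fun x => by
    have key : ∑ y ∈ (finite_ch F x).toFinset, R G o r q y = ∑ᶠ y ∈ {y | ChildOf G o x y}, r x y := by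
      rw [finsum_mem_eq_finite_toFinset_sum _ (finite_ch F x)]
      refine Finset.sum_congr rfl fun y hy => ?_
      rw [Set.Finite.mem_toFinset, Set.mem_ofPred_eq, child_iff F.isTree] at hy
      rw [R_ne hy.1, hy.2]
    rw [key]
    by_cases hx : x = o
    · subst hx
      rw [F.flow_root]; unfold R; rw [if_pos rfl]
    · rw [R_ne hx]
      exact (F.flow _ _ (par_spec F.isTree hx)).symm

lemma exch_left (x y : V) (η : V → Bool) : exch x y η x = η y := by
  classical
  unfold exch
  simp

lemma exch_right (x y : V) (η : V → Bool) : exch x y η y = η x := by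
  classical
  unfold exch
  simp

lemma exch_ne {x y z : V} (η : V → Bool) (h1 : z ≠ x) (h2 : z ≠ y) : exch x y η z = η z := by
  classical
  unfold exch
  rw [Equiv.swap_apply_of_ne_of_ne h1 h2]

lemma flip_self (η : V → Bool) : flip o η o = !η o := by
  classical
  unfold flip
  simp

lemma flip_ne (η : V → Bool) {z : V} (h : z ≠ o) : flip o η z = η z := by
  classical
  unfold flip
  simp [h]

variable [DecidableEq V]

lemma gen_eq (F : FlowTree G o r q) (lam : ℝ) (m : ℕ) (f : Ob V) (hf : (ft F).Cyl m f)
    (η : V → Bool) : gen G o r lam f η = (ft F).L lam (m + 1) f η := by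
  rw [FT.L_apply]
  have ho : o ∈ (ft F).B (m + 1) := (ft F).o_mem_B _
  rw [← Finset.add_sum_erase _ _ ho]
  unfold gen
  congr 1
  · have hc : (ft F).c lam o = lam := by unfold FT.c; exact if_pos rfl
    rw [hc]
    congr 1
    have hact : ∀ z, (ft F).act o η z = if z = o then true else η z := by
      intro z
      unfold FT.act
      have : o = (ft F).o := rfl
      rw [if_pos this]
    split_ifs with h
    · congr 2
      funext z
      rw [hact]
      by_cases hz : z = o
      · subst hz; rw [flip_self]; simp [h]
      · rw [flip_ne η hz]; simp [hz]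
    · have : (ft F).act o η = η := by
        funext z
        rw [hact]
        by_cases hz : z = o
        · subst hz; simp at h; simp [h]
        · simp [hz]
      rw [this]; ring
  · refine (finsum_eq_sum_of_support_subset _
      (s := (((ft F).B (m + 1)).erase o).image fun y => (par G o y, y)) ?_).trans ?_
    · intro e he
      rw [Function.mem_support] at he
      have hc : ChildOf G o e.1 e.2 ∧ η e.1 = true ∧ η e.2 = false := by
        by_contra hcon
        exact he (if_neg hcon)
      rw [if_pos hc] at he
      have hne := child_ne hc.1
      have hpar := ((child_iff F.isTree).1 hc.1).2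
      rw [Finset.coe_image, Set.mem_image]
      refine ⟨e.2, ?_, ?_⟩
      · rw [Finset.mem_coe, Finset.mem_erase]
        refine ⟨hne, ?_⟩
        by_contra hB
        apply he
        rw [FT.mem_B] at hB
        have hlev : (ft F).lev e.2 = G.dist o e.2 := rfl
        rw [hlev] at hB
        have h2 := hc.1.2
        have : f (exch e.1 e.2 η) = f η := by
          apply hf
          intro x hx
          rw [FT.mem_B] at hx
          have hlev' : (ft F).lev x = G.dist o x := rfl
          rw [hlev'] at hx
          apply exch_ne
          · rintro rfl; omega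
          · rintro rfl; omega
        rw [this]; ring
      · rw [hpar]
    rw [Finset.sum_image]
    · refine Finset.sum_congr rfl fun y hy => ?_
      rw [Finset.mem_erase] at hy
      have hyo : y ≠ (ft F).o := hy.1
      have hc : (ft F).c lam y = r (par G o y) y := by
        unfold FT.c
        rw [if_neg hyo]
        exact R_ne hy.1
      rw [hc]
      have hch := par_spec F.isTree hy.1
      have hne : par G o y ≠ y := (ft F).par_ne hyo
      have hact : ∀ z, (ft F).act y η z = if z = y then (η y || η (par G o y))
          else if z = par G o y then (η y && η (par G o y)) else η z := by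
        intro z
        unfold FT.act
        rw [if_neg hyo]
        rfl
      by_cases hcond : η (par G o y) = true ∧ η y = false
      · rw [if_pos ⟨hch, hcond⟩]
        congr 3
        funext z
        rw [hact]
        by_cases h1 : z = y
        · subst h1
          rw [exch_right]
          simp [hcond.1, hcond.2]
        · by_cases h2 : z = par G o y
          · rw [h2, exch_left]
            simp [hcond.1, hcond.2, hne]
          · rw [exch_ne η h2 h1]
            simp [h1, h2]
      · rw [if_neg (fun h => hcond h.2)]
        have : (ft F).act y η = η := by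
          funext z
          rw [hact]
          by_cases h1 : z = y
          · subst h1
            cases ha : η z <;> cases hb : η (par G o z) <;> simp_all
          · by_cases h2 : z = par G o y
            · rw [if_neg h1, if_pos h2, h2]
              cases ha : η y <;> cases hb : η (par G o y) <;> simp_all
            · simp [h1, h2]
        rw [this]; ring
    · intro a _ b _ hab
      exact (Prod.ext_iff.1 hab).2

end Gr

theorem graphStmt : GraphStmt.{u} := by
  intro V _ G o r q F
  refine ⟨Gr.ft F, rfl, rfl, fun x => rfl, ?_, ?_, ?_⟩
  · intro x y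
    rw [(Gr.ft F).mem_ch]
    exact Gr.child_iff F.isTree
  · intro x y h
    obtain ⟨h1, h2⟩ := (Gr.child_iff F.isTree).1 h
    show Gr.R G o r q y = r x y
    rw [Gr.R_ne h1, h2]
  · intro lam P
    have key : ∀ (m : ℕ) (f : Ob V), (Gr.ft F).Cyl m f →
        (TendstoUniformly (fun (t : ℝ≥0) (η : V → Bool) => (P t f η - f η) / t)
          (gen G o r lam f) (𝓝[>] 0) ↔
        Tendsto (fun t : ℝ≥0 => (t : ℝ)⁻¹ • (P t f - f)) (𝓝[>] 0)
          (𝓝 ((Gr.ft F).L lam (m + 1) f))) := by
      intro m f hf
      rw [ContinuousMap.tendsto_iff_tendstoUniformly]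
      have h1 : gen G o r lam f = ((Gr.ft F).L lam (m + 1) f : (V → Bool) → ℝ) := by
        funext η
        exact Gr.gen_eq F lam m f hf η
      have h2 : (fun (t : ℝ≥0) (η : V → Bool) => (P t f η - f η) / t) =
          fun (t : ℝ≥0) (η : V → Bool) => ((t : ℝ)⁻¹ • (P t f - f)) η := by
        funext t η
        simp only [ContinuousMap.smul_apply, ContinuousMap.sub_apply, smul_eq_mul]
        rw [div_eq_inv_mul]
      rw [h1, h2]
    constructor
    · intro h
      refine ⟨h.zero, h.add, ?_, h.one, h.continuous, ?_⟩
      · intro t f hf η
        exact (ContinuousMap.le_def.1 (h.positive t f (ContinuousMap.le_def.2 hf))) η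
      · intro m f hf
        refine (key m f hf).1 (h.generator f ((Gr.ft F).B m) ?_)
        intro η ζ hηζ
        exact hf η ζ fun x hx => hηζ x hx
    · intro h
      refine ⟨h.zero, h.add, ?_, h.one, h.cont, ?_⟩
      · intro t f hf
        exact ContinuousMap.le_def.2 (h.pos t f (ContinuousMap.le_def.1 hf))
      · intro f s hs
        have hf : (Gr.ft F).Cyl (s.sup (Gr.ft F).lev) f := by
          intro η ζ hηζ
          apply hs
          intro x hx
          apply hηζ
          rw [FT.mem_B]
          exact Finset.le_sup (f := (Gr.ft F).lev) hx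
        exact (key _ f hf).2 (h.gen _ f hf)

end Pool.Agent.H40.Tr
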