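import Pool.Agent.H40.Tr.Clos

/-!
Module LIM: the law at time `t` of the process started from the empty configuration converges to
the smallest stationary state.
-/

namespace Pool.Agent.H40.Tr

open Finset Filter Topology MeasureTheory
open scoped NNReal

universe u

namespace LimAux

open ClosAux

variable {V : Type*} [DecidableEq V]

set_option linter.unusedSectionVars false

/-- the law at time `t` from `η`, as a linear functional. -/
noncomputable def ev (P : ℝ≥0 → Ob V →L[ℝ] Ob V) (t : ℝ≥0) (η : Cfg V) : Ob V →ₗ[ℝ] ℝ where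
  toFun f := P t f η
  map_add' f g := by rw [map_add]; rfl
  map_smul' c f := by rw [map_smul]; rfl

lemma ev_apply (P : ℝ≥0 → Ob V →L[ℝ] Ob V) (t : ℝ≥0) (η : Cfg V) (f : Ob V) :
    ev P t η f = P t f η := rfl

variable {T : FT V} {lam : ℝ} {P : ℝ≥0 → Ob V →L[ℝ] Ob V}

lemma ev_state (hP : Sg T lam P) (t : ℝ≥0) (η : Cfg V) : State (ev P t η) where
  pos f hf := hP.pos t f hf η
  one := by rw [ev_apply, hP.one]; rfl

/-- lower bound of a monotone observable by its value at the empty configuration. -/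
lemma le_state {E : Ob V →ₗ[ℝ] ℝ} (hE : State E) {f : Ob V} (hf : Monotone f) :
    f (fun _ => false) ≤ E f := by
  have h : E (f (fun _ => false) • (1 : Ob V)) ≤ E f := state_mono hE (fun η => by
    simp only [ContinuousMap.smul_apply, ContinuousMap.one_apply, smul_eq_mul, mul_one]
    exact hf (fun x => Bool.false_le _))
  rw [map_smul, hE.one, smul_eq_mul, mul_one] at h
  exact h

lemma mono_time (hP : Sg T lam P) (hmono : ∀ (t : ℝ≥0) (f : Ob V), Monotone f → Monotone (P t f))
    {f : Ob V} (hf : Monotone f) : Monotone fun t => P t f (fun _ => false) := by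
  intro s t hst
  obtain ⟨r, rfl⟩ := exists_add_of_le hst
  show P s f (fun _ => false) ≤ P (s + r) f (fun _ => false)
  rw [add_comm, hP.add]
  exact le_state (ev_state hP r _) (hmono s f hf)

lemma conv_mono (hP : Sg T lam P) (hmono : ∀ (t : ℝ≥0) (f : Ob V), Monotone f → Monotone (P t f))
    {f : Ob V} (hf : Monotone f) :
    ∃ l : ℝ, Tendsto (fun t => P t f (fun _ => false)) atTop (𝓝 l) := by
  refine ⟨_, tendsto_atTop_ciSup (mono_time hP hmono hf) ⟨‖f‖, ?_⟩⟩
  rintro _ ⟨t, rfl⟩
  exact state_le_norm (ev_state hP t _) f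

lemma occ_sum_monotone (T : FT V) (m : ℕ) {c : ℝ} (hc : 0 ≤ c) :
    Monotone (c • ∑ x ∈ T.B m, occ x : Ob V) := by
  intro η ζ h
  simp only [ContinuousMap.smul_apply, ContinuousMap.sum_apply, smul_eq_mul]
  exact mul_le_mul_of_nonneg_left (sum_le_sum fun x _ => occ_mono x h) hc

lemma conv_cyl (hP : Sg T lam P) (hmono : ∀ (t : ℝ≥0) (f : Ob V), Monotone f → Monotone (P t f))
    {m : ℕ} {f : Ob V} (hf : T.Cyl m f) :
    ∃ l : ℝ, Tendsto (fun t => P t f (fun _ => false)) atTop (𝓝 l) := by
  obtain ⟨a, ha⟩ := conv_mono hP hmono (add_occ_monotone T m f hf)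
  obtain ⟨b, hb⟩ := conv_mono hP hmono
    (occ_sum_monotone T m (by positivity : (0 : ℝ) ≤ 2 * ‖f‖))
  refine ⟨a - b, (ha.sub hb).congr fun t => ?_⟩
  rw [map_add]
  simp only [ContinuousMap.add_apply, add_sub_cancel_right]

lemma conv_all (hP : Sg T lam P) (hmono : ∀ (t : ℝ≥0) (f : Ob V), Monotone f → Monotone (P t f))
    (hD : ∀ (f : Ob V) (ε : ℝ), 0 < ε → ∃ (m : ℕ) (g : Ob V), T.Cyl m g ∧ ‖f - g‖ ≤ ε)
    (f : Ob V) :
    ∃ l : ℝ, Tendsto (fun t => P t f (fun _ => false)) atTop (𝓝 l) := by
  refine cauchySeq_tendsto_of_complete (Metric.cauchySeq_iff'.2 fun ε hε => ?_)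
  obtain ⟨m, g, hg, hfg⟩ := hD f (ε / 4) (by positivity)
  obtain ⟨l, hl⟩ := conv_cyl hP hmono hg
  obtain ⟨N, hN⟩ := Metric.cauchySeq_iff'.1 hl.cauchySeq (ε / 4) (by positivity)
  refine ⟨N, fun n hn => ?_⟩
  have h1 := hN n hn
  have h2 : ∀ t, |P t f (fun _ => false) - P t g (fun _ => false)| ≤ ε / 4 := by
    intro t
    have := abs_state_le (ev_state hP t (fun _ => false)) (f - g)
    rw [map_sub, ev_apply, ev_apply] at this
    exact this.trans hfg
  have h3 := abs_le.1 (h2 n)
  have h4 := abs_le.1 (h2 N)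
  rw [Real.dist_eq, abs_lt] at h1 ⊢
  constructor <;> linarith [h1.1, h1.2, h3.1, h3.2, h4.1, h4.2]

end LimAux

open ClosAux LimAux

theorem limStmt (h1 : SgMonoStmt.{u}) (h2 : SgStatStmt.{u}) (h3 : DenseStmt.{u}) :
    LimStmt.{u} := by
  intro V _ T lam hlam P hP
  have hmono := h1 V T lam hlam P hP
  choose F hF using conv_all hP hmono (h3 V T)
  let E : Ob V →ₗ[ℝ] ℝ :=
    { toFun := F
      map_add' := fun f g => by
        refine tendsto_nhds_unique (hF (f + g)) (((hF f).add (hF g)).congr fun t => ?_)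
        rw [map_add]; rfl
      map_smul' := fun c f => by
        refine tendsto_nhds_unique (hF (c • f)) (((hF f).const_smul c).congr fun t => ?_)
        rw [map_smul]; rfl }
  have hE : ∀ f : Ob V, Tendsto (fun t => P t f (fun _ => false)) atTop (𝓝 (E f)) := hF
  have hst : State E := by
    constructor
    · intro f hf
      exact ge_of_tendsto' (hE f) fun t => hP.pos t f hf _
    · refine tendsto_nhds_unique (hE 1) ?_
      simp only [hP.one]
      exact tendsto_const_nhds
  have hinv : ∀ s f, E (P s f) = E f := by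
    intro s f
    refine tendsto_nhds_unique (hE (P s f)) ?_
    have h0 : Tendsto (fun t : ℝ≥0 => t + s) atTop atTop :=
      tendsto_atTop_mono (fun t => le_self_add) tendsto_id
    refine ((hE f).comp h0).congr fun t => ?_
    simp only [Function.comp_apply]
    rw [hP.add]
  refine ⟨E, hst, ?_, hE, ?_⟩
  · intro m f hf
    have hc : Continuous E := by
      refine AddMonoidHomClass.continuous_of_bound E 1 fun f => ?_
      rw [one_mul]
      exact abs_state_le hst f
    have ha := (hc.tendsto _).comp (hP.gen m f hf)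
    have hb : (fun t : ℝ≥0 => E ((t : ℝ)⁻¹ • (P t f - f))) = fun _ => 0 := by
      funext t
      rw [map_smul, map_sub, hinv, sub_self, smul_zero]
    have ha' : Tendsto (fun _ : ℝ≥0 => (0 : ℝ)) (𝓝[>] 0) (𝓝 (E (T.L lam (m + 1) f))) := by
      rw [← hb]; exact ha
    exact tendsto_nhds_unique ha' tendsto_const_nhds
  · intro E' hE' hS' f hf
    refine le_of_tendsto' (hE f) fun t => ?_
    rw [← h2 V T lam hlam P hP E' hE' hS' t f]
    exact le_state hE' (hmono t f hf)

end Pool.Agent.H40.Tr
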