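import Pool.Agent.H40.Tr.Spec

/-!
Module NU: the Bernoulli product measure is stationary.
-/

namespace Pool.Agent.H40.Tr

open Finset Filter Topology MeasureTheory
open scoped NNReal

universe u

namespace FT

variable {V : Type u} [DecidableEq V] (T : FT V)

include T in
lemma countable : Countable V := by
  have h : (Set.univ : Set V) = ⋃ n, (T.lv n : Set V) := by
    ext x
    simp only [Set.mem_univ, Set.mem_iUnion, Finset.mem_coe, T.mem_lv, true_iff]
    exact ⟨_, rfl⟩
  rw [← Set.countable_univ_iff, h]
  exact Set.countable_iUnion fun n => (T.lv n).countable_toSet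

end FT

section Nu

set_option linter.unusedSectionVars false

variable {V : Type u} [DecidableEq V]

lemma bern_prob {ρ : ℝ} (h0 : 0 ≤ ρ) (h1 : ρ ≤ 1) : IsProbabilityMeasure (bern ρ) := by
  constructor
  rw [bern]
  simp only [Measure.coe_add, Measure.coe_smul, Pi.add_apply, Pi.smul_apply, measure_univ,
    smul_eq_mul, mul_one]
  rw [← ENNReal.ofReal_add h0 (by linarith)]
  simp

lemma bern_apply (ρ : ℝ) (s : Set Bool) [Decidable (true ∈ s)] [Decidable (false ∈ s)] :
    bern ρ s = (if true ∈ s then ENNReal.ofReal ρ else 0) +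
      (if false ∈ s then ENNReal.ofReal (1 - ρ) else 0) := by
  rw [bern]
  simp only [Measure.coe_add, Measure.coe_smul, Pi.add_apply, Pi.smul_apply, smul_eq_mul,
    Measure.dirac_apply, Set.indicator_apply]
  split_ifs <;> simp

lemma measurable_upd (x : V) (b : Bool) :
    Measurable fun η : V → Bool => Function.update η x b := by
  rw [measurable_pi_iff]
  intro z
  by_cases h : z = x
  · subst h; simp
  · simp only [Function.update_of_ne h]; exact measurable_pi_apply z

lemma continuous_upd (x : V) (b : Bool) :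
    Continuous fun η : V → Bool => Function.update η x b :=
  continuous_id.update x continuous_const

lemma preimage_upd_pi (x : V) (b : Bool) (s : Finset V) (t : V → Set Bool)
    [Decidable (x ∈ s ∧ b ∉ t x)] :
    (fun η : V → Bool => Function.update η x b) ⁻¹' (Set.pi s t) =
      if x ∈ s ∧ b ∉ t x then ∅ else Set.pi (s.erase x) t := by
  ext η
  simp only [Set.mem_preimage, Set.mem_pi, Finset.mem_coe]
  split_ifs with h
  · simp only [Set.mem_empty_iff_false, iff_false]
    intro h2
    have := h2 x h.1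
    simp only [Function.update_self] at this
    exact h.2 this
  · simp only [Set.mem_pi, Finset.mem_coe, Finset.mem_erase]
    constructor
    · rintro h2 i ⟨hi, his⟩
      have := h2 i his
      rwa [Function.update_of_ne hi] at this
    · intro h2 i his
      by_cases hi : i = x
      · subst hi
        rw [Function.update_self]
        by_contra h3
        exact h ⟨his, h3⟩
      · rw [Function.update_of_ne hi]
        exact h2 i ⟨hi, his⟩

/-- Resampling identity for the measure. -/
lemma nu_resample {ρ : ℝ} (h0 : 0 ≤ ρ) (h1 : ρ ≤ 1) (x : V) :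
    ENNReal.ofReal ρ • (nu V ρ).map (fun η : V → Bool => Function.update η x true) +
      ENNReal.ofReal (1 - ρ) • (nu V ρ).map (fun η : V → Bool => Function.update η x false) =
      nu V ρ := by
  classical
  have := bern_prob h0 h1
  conv_rhs => rw [nu]
  apply Measure.eq_infinitePi
  intro s t ht
  have hm : MeasurableSet (Set.pi (s : Set V) t) :=
    MeasurableSet.pi s.countable_toSet fun i _ => ht i
  simp only [Measure.coe_add, Measure.coe_smul, Pi.add_apply, Pi.smul_apply, smul_eq_mul]
  rw [Measure.map_apply (measurable_upd x true) hm, Measure.map_apply (measurable_upd x false) hm,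
    preimage_upd_pi, preimage_upd_pi]
  have he : nu V ρ (Set.pi (s.erase x : Finset V) t) = ∏ i ∈ s.erase x, bern ρ (t i) := by
    rw [nu, Measure.infinitePi_pi _ (fun i _ => ht i)]
  by_cases hx : x ∈ s
  · have hprod : ∏ i ∈ s, bern ρ (t i) = bern ρ (t x) * ∏ i ∈ s.erase x, bern ρ (t i) :=
      (Finset.mul_prod_erase s (fun i => bern ρ (t i)) hx).symm
    rw [hprod, bern_apply ρ (t x), ← he]
    simp only [hx, true_and]
    by_cases ha : true ∈ t x <;> by_cases hb : false ∈ t x <;> simp [ha, hb, add_mul]
  · have hne : s.erase x = s := Finset.erase_eq_of_notMem hx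
    simp only [hx, false_and, if_false]
    rw [he, hne, ← add_mul, ← ENNReal.ofReal_add h0 (by linarith)]
    simp

lemma nu_prob {ρ : ℝ} (h0 : 0 ≤ ρ) (h1 : ρ ≤ 1) : IsProbabilityMeasure (nu V ρ) := by
  have := bern_prob h0 h1
  rw [nu]
  infer_instance

lemma ob_measurable [Countable V] (f : Ob V) : Measurable f := f.continuous.measurable

lemma ob_integrable [Countable V] (μ : Measure (V → Bool)) [IsFiniteMeasure μ] (f : Ob V) :
    Integrable (fun η => f η) μ := by
  refine Integrable.of_bound f.continuous.measurable.aestronglyMeasurable ‖f‖ ?_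
  exact Eventually.of_forall fun η => f.norm_coe_le_norm η

/-- Resampling identity for integrals. -/
lemma int_resample [Countable V] {ρ : ℝ} (h0 : 0 ≤ ρ) (h1 : ρ ≤ 1) (x : V) (f : Ob V) :
    ∫ η, f η ∂(nu V ρ) = ρ * ∫ η, f (Function.update η x true) ∂(nu V ρ) +
      (1 - ρ) * ∫ η, f (Function.update η x false) ∂(nu V ρ) := by
  have := nu_prob (V := V) h0 h1
  conv_lhs => rw [← nu_resample h0 h1 x]
  have m1 : IsFiniteMeasure ((nu V ρ).map (fun η : V → Bool => Function.update η x true)) := by
    infer_instance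
  have m2 : IsFiniteMeasure ((nu V ρ).map (fun η : V → Bool => Function.update η x false)) := by
    infer_instance
  rw [integral_add_measure, integral_smul_measure, integral_smul_measure,
    integral_map, integral_map, ENNReal.toReal_ofReal h0, ENNReal.toReal_ofReal (by linarith)]
  · rfl
  · exact (measurable_upd x false).aemeasurable
  · exact f.continuous.measurable.aestronglyMeasurable
  · exact (measurable_upd x true).aemeasurable
  · exact f.continuous.measurable.aestronglyMeasurable
  · exact (ob_integrable _ f).smul_measure ENNReal.ofReal_ne_top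
  · exact (ob_integrable _ f).smul_measure ENNReal.ofReal_ne_top

/-- update as a continuous map on observables. -/
noncomputable def updOb (x : V) (b : Bool) (f : Ob V) : Ob V :=
  f.comp ⟨fun η => Function.update η x b, continuous_upd x b⟩

lemma updOb_apply (x : V) (b : Bool) (f : Ob V) (η : Cfg V) :
    updOb x b f η = f (Function.update η x b) := rfl

/-- The state given by the product measure. -/
noncomputable def nuE [Countable V] (ρ : ℝ) (h0 : 0 ≤ ρ) (h1 : ρ ≤ 1) : Ob V →ₗ[ℝ] ℝ where
  toFun f := ∫ η, f η ∂(nu V ρ)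
  map_add' f g := by
    have := nu_prob (V := V) h0 h1
    exact integral_add (ob_integrable _ f) (ob_integrable _ g)
  map_smul' c f := by
    exact integral_const_mul c _

lemma nuE_apply [Countable V] {ρ : ℝ} (h0 : 0 ≤ ρ) (h1 : ρ ≤ 1) (f : Ob V) :
    nuE ρ h0 h1 f = ∫ η, f η ∂(nu V ρ) := rfl

lemma nuE_resample [Countable V] {ρ : ℝ} (h0 : 0 ≤ ρ) (h1 : ρ ≤ 1) (x : V) (f : Ob V) :
    nuE ρ h0 h1 f = ρ * nuE ρ h0 h1 (updOb x true f) +
      (1 - ρ) * nuE ρ h0 h1 (updOb x false f) :=
  int_resample h0 h1 x f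

lemma nuE_state [Countable V] {ρ : ℝ} (h0 : 0 ≤ ρ) (h1 : ρ ≤ 1) :
    State (nuE (V := V) ρ h0 h1) := by
  have := nu_prob (V := V) h0 h1
  constructor
  · intro f hf
    exact integral_nonneg hf
  · rw [nuE_apply]
    simp

end Nu

section Main

variable {V : Type u} [DecidableEq V] (T : FT V)

/-- double update. -/
lemma nuE_resample2 [Countable V] {ρ : ℝ} (h0 : 0 ≤ ρ) (h1 : ρ ≤ 1) (y p : V) (f : Ob V) :
    nuE ρ h0 h1 f =
      ρ * (ρ * nuE ρ h0 h1 (updOb y true (updOb p true f)) +
        (1 - ρ) * nuE ρ h0 h1 (updOb y false (updOb p true f))) +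
      (1 - ρ) * (ρ * nuE ρ h0 h1 (updOb y true (updOb p false f)) +
        (1 - ρ) * nuE ρ h0 h1 (updOb y false (updOb p false f))) := by
  rw [nuE_resample h0 h1 p f, nuE_resample h0 h1 y (updOb p true f),
    nuE_resample h0 h1 y (updOb p false f)]

lemma upd_act {y : V} (hy : y ≠ T.o) (a b : Bool) (f : Ob V) :
    updOb y a (updOb (T.par y) b (T.A y f)) =
      updOb y (a || b) (updOb (T.par y) (a && b) f) := by
  have hp := T.par_ne hy
  ext η
  simp only [updOb_apply, FT.A_apply]
  congr 1
  funext z
  unfold FT.act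
  rw [if_neg hy]
  by_cases hz : z = y
  · subst hz
    rw [if_pos rfl]
    rw [Function.update_of_ne (fun h => hp h.symm), Function.update_of_ne (fun h => hp h.symm)]
    simp
  · rw [if_neg hz]
    by_cases hz2 : z = T.par y
    · subst hz2
      rw [if_pos rfl]
      rw [Function.update_of_ne (fun h => hp h.symm)]
      simp
    · rw [if_neg hz2]
      simp [Function.update_of_ne hz, Function.update_of_ne hz2]

lemma upd_occ_y {y : V} (hy : y ≠ T.o) (a b : Bool) (f : Ob V) :
    updOb y a (updOb (T.par y) b (occ y * f)) =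
      (if a = true then (1 : ℝ) else 0) • updOb y a (updOb (T.par y) b f) := by
  have hp := T.par_ne hy
  ext η
  simp only [updOb_apply, ContinuousMap.mul_apply, ContinuousMap.smul_apply, smul_eq_mul,
    occ_apply]
  rw [Function.update_of_ne (fun h => hp h.symm), Function.update_self]

lemma upd_occ_p {y : V} (_hy : y ≠ T.o) (a b : Bool) (f : Ob V) :
    updOb y a (updOb (T.par y) b (occ (T.par y) * f)) =
      (if b = true then (1 : ℝ) else 0) • updOb y a (updOb (T.par y) b f) := by
  ext η
  simp only [updOb_apply, ContinuousMap.mul_apply, ContinuousMap.smul_apply, smul_eq_mul,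
    occ_apply]
  rw [Function.update_self]

lemma nuE_act [Countable V] {ρ : ℝ} (h0 : 0 ≤ ρ) (h1 : ρ ≤ 1) {y : V} (hy : y ≠ T.o)
    (f : Ob V) :
    nuE ρ h0 h1 (T.A y f) - nuE ρ h0 h1 f =
      nuE ρ h0 h1 (occ y * f) - nuE ρ h0 h1 (occ (T.par y) * f) := by
  rw [nuE_resample2 h0 h1 y (T.par y) (T.A y f), nuE_resample2 h0 h1 y (T.par y) f,
    nuE_resample2 h0 h1 y (T.par y) (occ y * f),
    nuE_resample2 h0 h1 y (T.par y) (occ (T.par y) * f)]
  simp only [upd_act T hy, upd_occ_y T hy, upd_occ_p T hy, map_smul, smul_eq_mul, if_true,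
    Bool.false_eq_true, if_false, Bool.or_true, Bool.or_false, Bool.and_true, Bool.and_false,
    Bool.false_or]
  ring

lemma nuE_act_root [Countable V] {ρ : ℝ} (h0 : 0 ≤ ρ) (h1 : ρ ≤ 1) (f : Ob V) :
    ρ * (nuE ρ h0 h1 (T.A T.o f) - nuE ρ h0 h1 f) =
      nuE ρ h0 h1 (occ T.o * f) - ρ * nuE ρ h0 h1 f := by
  have e1 : T.A T.o f = updOb T.o true f := by
    ext η
    simp only [updOb_apply, FT.A_apply]
    congr 1
    funext z
    unfold FT.act
    rw [if_pos rfl]
    by_cases hz : z = T.o
    · subst hz; simp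
    · rw [if_neg hz, Function.update_of_ne hz]
  have e2 : updOb T.o true (occ T.o * f) = updOb T.o true f := by
    ext η
    simp [updOb_apply]
  have e3 : updOb T.o false (occ T.o * f) = 0 := by
    ext η
    simp [updOb_apply]
  rw [e1, nuE_resample h0 h1 T.o (occ T.o * f), e2, e3, map_zero]
  ring

lemma nuE_occ_indep [Countable V] {ρ : ℝ} (h0 : 0 ≤ ρ) (h1 : ρ ≤ 1) (y : V)
    (f : Ob V) (hf : ∀ b, updOb y b f = f) :
    nuE ρ h0 h1 (occ y * f) = ρ * nuE ρ h0 h1 f := by
  have e2 : updOb y true (occ y * f) = f := by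
    conv_rhs => rw [← hf true]
    ext η
    simp [updOb_apply]
  have e3 : updOb y false (occ y * f) = 0 := by
    ext η
    simp [updOb_apply]
  rw [nuE_resample h0 h1 y (occ y * f), e2, e3, map_zero]
  ring

/-- Telescoping along the flow. -/
lemma flow_telescope (g : V → ℝ) (m : ℕ) :
    ∑ y ∈ (T.B m).erase T.o, T.R y * (g y - g (T.par y)) =
      ∑ y ∈ T.lv m, T.R y * g y - T.q * g T.o := by
  induction m with
  | zero =>
    have h1 : (T.B 0).erase T.o = ∅ := by
      ext x
      simp only [Finset.mem_erase, T.mem_B, Finset.notMem_empty, iff_false]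
      rintro ⟨h1, h2⟩
      exact h1 (T.lev_eq_zero.1 (by omega))
    rw [h1, FT.lv, FT.D]
    simp [T.R_o]
  | succ m ih =>
    have h1 : (T.B (m + 1)).erase T.o = (T.B m).erase T.o ∪ T.lv (m + 1) := by
      ext x
      simp only [Finset.mem_erase, T.mem_B, Finset.mem_union, T.mem_lv]
      constructor
      · rintro ⟨h1, h2⟩
        by_cases h : T.lev x ≤ m
        · exact Or.inl ⟨h1, h⟩
        · right; omega
      · rintro (⟨h1, h2⟩ | h)
        · exact ⟨h1, by omega⟩
        · refine ⟨?_, by omega⟩
          rintro rfl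
          rw [T.lev_o] at h
          omega
    have h2 : Disjoint ((T.B m).erase T.o) (T.lv (m + 1)) := by
      rw [Finset.disjoint_left]
      intro x hx hx2
      simp only [Finset.mem_erase, T.mem_B, T.mem_lv] at hx hx2
      omega
    rw [h1, Finset.sum_union h2, ih]
    have h3 : ∑ y ∈ T.lv (m + 1), T.R y * (g y - g (T.par y)) =
        ∑ y ∈ T.lv (m + 1), T.R y * g y - ∑ y ∈ T.lv m, T.R y * g y := by
      simp only [mul_sub, Finset.sum_sub_distrib]
      congr 1
      rw [T.sum_lv_succ]
      refine Finset.sum_congr rfl fun z _ => ?_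
      have : ∑ y ∈ T.ch z, T.R y * g (T.par y) = ∑ y ∈ T.ch z, T.R y * g z :=
        Finset.sum_congr rfl fun y hy => by rw [((T.mem_ch z y).1 hy).2]
      rw [this, ← Finset.sum_mul, T.flow]
    rw [h3]
    ring

end Main

theorem nuStmt : NuStmt.{u} := by
  intro V _ T ρ h0 h1
  have : Countable V := T.countable
  refine ⟨nuE ρ h0 h1, nuE_state h0 h1, ?_, fun f => rfl, ?_⟩
  · intro m f hf
    have e1 : T.L (ρ * T.q) (m + 1) f =
        ∑ y ∈ T.B (m + 1), T.c (ρ * T.q) y • (T.A y f - f) := by
      ext η
      rw [T.L_apply, ContinuousMap.sum_apply]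
      rfl
    rw [e1, map_sum, ← Finset.add_sum_erase _ _ (T.o_mem_B (m + 1))]
    have e2 : ∑ y ∈ (T.B (m + 1)).erase T.o,
        nuE ρ h0 h1 (T.c (ρ * T.q) y • (T.A y f - f)) =
        ∑ y ∈ (T.B (m + 1)).erase T.o, T.R y *
          ((fun z => nuE ρ h0 h1 (occ z * f)) y -
            (fun z => nuE ρ h0 h1 (occ z * f)) (T.par y)) := by
      refine Finset.sum_congr rfl fun y hy => ?_
      have hyo : y ≠ T.o := (Finset.mem_erase.1 hy).1
      rw [map_smul, map_sub, smul_eq_mul, nuE_act T h0 h1 hyo, FT.c, if_neg hyo]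
    rw [e2, flow_telescope]
    have e3 : ∑ y ∈ T.lv (m + 1), T.R y * (fun z => nuE ρ h0 h1 (occ z * f)) y =
        T.q * (ρ * nuE ρ h0 h1 f) := by
      rw [← T.sum_R_lv (m + 1), Finset.sum_mul]
      refine Finset.sum_congr rfl fun y hy => ?_
      have hl := T.mem_lv.1 hy
      simp only
      rw [nuE_occ_indep h0 h1 y f]
      intro b
      ext η
      rw [updOb_apply]
      apply hf
      intro x hx
      rw [Function.update_of_ne]
      rintro rfl
      have := T.mem_B.1 hx
      omega
    rw [e3, map_smul, map_sub, smul_eq_mul]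
    have e4 := nuE_act_root T h0 h1 f
    have e5 : T.c (ρ * T.q) T.o = ρ * T.q := by rw [FT.c, if_pos rfl]
    rw [e5]
    linear_combination T.q * e4
  · intro x
    have := nuE_occ_indep h0 h1 x (1 : Ob V) (fun b => by ext η; rfl)
    rw [mul_one, (nuE_state h0 h1).one, mul_one] at this
    exact this

end Pool.Agent.H40.Tr
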