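import Pool.Agent.H40.Tr.Semi
import Pool.Agent.H40.Tr.Nu
import Pool.Agent.H40.Tr.Flux
import Pool.Agent.H40.Tr.Block
import Pool.Agent.H40.Tr.Clos
import Pool.Agent.H40.Tr.Diss
import Pool.Agent.H40.Tr.Lim

/-!
Part (a): below and at the critical intensity the limit from the empty configuration is the
Bernoulli product measure.
-/

namespace Pool.Agent.H40.Tr

open Finset Filter Topology MeasureTheory
open scoped NNReal Nat

universe u

set_option linter.unusedVariables false

lemma occ_monotone {V : Type*} (x : V) : Monotone (occ x : Ob V) := by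
  intro η ζ h
  have := h x
  simp only [occ_apply]
  cases h1 : η x <;> cases h2 : ζ x
  · simp
  · simp
  · rw [h1, h2] at this
    have h3 : (true : Bool) ≤ false := this
    exact absurd h3 (by decide)
  · simp

lemma State.sq_le {V : Type*} {E : Ob V →ₗ[ℝ] ℝ} (hE : State E) (S : Ob V) :
    E S ^ 2 ≤ E (S * S) := by
  have h := hE.pos ((S - E S • (1 : Ob V)) * (S - E S • (1 : Ob V))) (fun η => by
    simp only [ContinuousMap.mul_apply]; exact mul_self_nonneg _)
  have e : (S - E S • (1 : Ob V)) * (S - E S • (1 : Ob V)) =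
      S * S - (2 * E S) • S + (E S ^ 2) • (1 : Ob V) := by
    ext η
    simp only [ContinuousMap.mul_apply, ContinuousMap.sub_apply, ContinuousMap.smul_apply,
      ContinuousMap.add_apply, ContinuousMap.one_apply, smul_eq_mul]
    ring
  rw [e, map_add, map_sub, map_smul, map_smul, hE.one] at h
  simp only [smul_eq_mul] at h
  nlinarith

lemma State.block_le {V : Type*} {E : Ob V →ₗ[ℝ] ℝ} (hE : State E) (S : Ob V) :
    E (S * (1 - S)) ≤ E S * (1 - E S) := by
  rw [mul_sub, mul_one, map_sub]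
  have := hE.sq_le S
  nlinarith

lemma E_bl {V : Type*} (T : FT V) (E : Ob V →ₗ[ℝ] ℝ) (K : ℕ) (y : V) :
    E (bl T K y) = ((K : ℝ) + 1)⁻¹ * ∑ i ∈ range (K + 1), E (occ (T.par^[i] y)) := by
  rw [bl, map_smul, map_sum, smul_eq_mul]

lemma le_of_block {F A : ℝ} (hA : 0 ≤ A)
    (h : ∀ K : ℕ, 1 ≤ K → ∀ ε : ℝ, 0 < ε → F ≤ ((K : ℝ) + 1) / K * A + ε) : F ≤ A := by
  refine le_of_forall_pos_le_add fun ε hε => ?_
  obtain ⟨K, hK⟩ := exists_nat_gt (2 * A / ε)
  have hK0 : (0 : ℝ) < K := lt_of_le_of_lt (by positivity) hK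
  have hK1 : 1 ≤ K := by exact_mod_cast hK0
  have h1 := h K hK1 (ε / 2) (by positivity)
  have h2 : ((K : ℝ) + 1) / K * A = A + A / K := by field_simp
  have h3 : A / K ≤ ε / 2 := by
    rw [div_lt_iff₀ hε] at hK
    rw [div_le_iff₀ hK0]
    linarith
  linarith

theorem limStmt' : LimStmt.{u} := limStmt sgMonoStmt sgStatStmt denseStmt

theorem mainA (V : Type u) [DecidableEq V] (T : FT V) (ρ : ℝ) (h0 : 0 < ρ) (h1 : ρ ≤ 1 / 2)
    (P : ℝ≥0 → Ob V →L[ℝ] Ob V) (hP : Sg T (ρ * T.q) P) (f : Ob V) :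
    Tendsto (fun t => P t f (fun _ => false)) atTop (𝓝 (∫ η, f η ∂(nu V ρ))) := by
  have hq := T.q_pos
  have hlam : 0 < ρ * T.q := by positivity
  obtain ⟨E, hE, hS, hlim, hdom⟩ := limStmt'.{u} V T (ρ * T.q) hlam P hP
  obtain ⟨E', hE', hS', hint, hocc⟩ := nuStmt.{u} V T ρ h0.le (by linarith)
  have hle := hdom E' hE' hS'
  have hu : ∀ x, E (occ x) ≤ ρ := fun x => by
    rw [← hocc x]; exact hle _ (occ_monotone x)
  have hflux := (fluxStmt.{u} V T (ρ * T.q) hlam E hE hS).1
  have hup : flux T E T.o ≤ T.q * (ρ * (1 - ρ)) := by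
    refine le_of_block (mul_nonneg hq.le (mul_nonneg h0.le (by linarith))) ?_
    intro K hK ε hε
    obtain ⟨N, hN⟩ := blockStmt.{u} dissStmt fluxStmt V T (ρ * T.q) hlam E hE hS T.o K hK ε hε
    refine (hN N le_rfl).trans ?_
    have hK0 : (0 : ℝ) < K := by exact_mod_cast hK
    gcongr
    have hsum : ∑ y ∈ T.D T.o (N + K), T.R y * (ρ * (1 - ρ)) = T.q * (ρ * (1 - ρ)) := by
      rw [← sum_mul, T.sum_R_D, T.R_o]
    rw [← hsum]
    refine sum_le_sum fun y _ => mul_le_mul_of_nonneg_left ?_ (T.R_pos y).le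
    refine (hE.block_le _).trans ?_
    have hs : E (bl T K y) ≤ ρ := by
      rw [E_bl]
      have : ∑ i ∈ range (K + 1), E (occ (T.par^[i] y)) ≤ ∑ i ∈ range (K + 1), ρ :=
        sum_le_sum fun i _ => hu _
      rw [sum_const, card_range, nsmul_eq_mul] at this
      push_cast at this
      rw [inv_mul_le_iff₀ (by positivity)]
      linarith
    nlinarith
  have hroot : E (occ T.o) = E' (occ T.o) := by
    rw [hocc]
    refine le_antisymm (hu _) ?_
    rw [hflux] at hup
    have h3 : ρ * T.q * (1 - E (occ T.o)) ≤ ρ * T.q * (1 - ρ) := by linarith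
    have h4 := le_of_mul_le_mul_left h3 hlam
    linarith
  have hEq := closStmt.{u} denseStmt V T (ρ * T.q) hlam E E' hE hE' hS hS' hle hroot f
  rw [← hint f, ← hEq]
  exact hlim f

end Pool.Agent.H40.Tr
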