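import Pool.Agent.H40.Tr.Cur

/-!
Above the critical intensity: the current through every edge is one quarter of the rate, densities
are at least one half, and the weighted level averages of the densities tend to one half.
-/

namespace Pool.Agent.H40.Tr

open Finset Filter Topology MeasureTheory
open scoped NNReal Nat

universe u

set_option linter.unusedVariables false
set_option linter.unusedSectionVars false

/-- abstract averaging step. -/
lemma avg_step (a : ℕ → ℝ) (c : ℝ) (k K : ℕ) (h : ∀ m, k ≤ m → m < k + K → a (m + 1) ≤ a m + c)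
    (hc : 0 ≤ c) :
    a (k + K) ≤ ((K : ℝ) + 1)⁻¹ * ∑ i ∈ range (K + 1), a (k + (K - i)) + K * c := by
  have h1 : ∀ i, i ≤ K → a (k + K) ≤ a (k + (K - i)) + i * c := by
    intro i
    induction i with
    | zero => intro _; simp
    | succ i ih =>
      intro hi
      have h2 := ih (by omega)
      have h3 := h (k + (K - (i + 1))) (by omega) (by omega)
      have e : k + (K - (i + 1)) + 1 = k + (K - i) := by omega
      rw [e] at h3
      push_cast
      linarith
  have h2 : ∑ i ∈ range (K + 1), a (k + K) ≤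
      ∑ i ∈ range (K + 1), (a (k + (K - i)) + K * c) := by
    refine sum_le_sum fun i hi => ?_
    rw [mem_range] at hi
    refine (h1 i (by omega)).trans ?_
    have : (i : ℝ) ≤ K := by exact_mod_cast (by omega : i ≤ K)
    have := mul_le_mul_of_nonneg_right this hc
    linarith
  rw [sum_add_distrib, sum_const, sum_const, card_range, nsmul_eq_mul, nsmul_eq_mul] at h2
  push_cast at h2
  have h3 : (0 : ℝ) < (K : ℝ) + 1 := by positivity
  rw [← sub_le_iff_le_add, le_inv_mul_iff₀ h3]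
  linarith

theorem mainB (V : Type u) [DecidableEq V] (T : FT V) (lam : ℝ) (hl : T.q / 2 ≤ lam)
    (P : ℝ≥0 → Ob V →L[ℝ] Ob V) (hP : Sg T lam P) (E : Ob V →ₗ[ℝ] ℝ)
    (hlim : ∀ f : Ob V, Tendsto (fun t => P t f (fun _ => false)) atTop (𝓝 (E f))) :
    (∀ f : Ob V, Monotone f → ∫ η, f η ∂(nu V (1 / 2)) ≤ E f) ∧
    (∀ x, 1 / 2 ≤ E (occ x)) ∧
    (∀ y, y ≠ T.o → E (occ (T.par y) * (1 - occ y)) = 1 / 4) ∧
    (E (occ T.o) = 1 - T.q / (4 * lam)) ∧
    Tendsto (fun n => ∑ x ∈ T.lv n, T.R x * |E (occ x) - 1 / 2|) atTop (𝓝 0) := by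
  have hq := T.q_pos
  have hlam : 0 < lam := by linarith
  obtain ⟨E₀, hE, hS, hlim₀, _⟩ := limStmt'.{u} V T lam hlam P hP
  have hEE : E₀ = E := LinearMap.ext fun f => tendsto_nhds_unique (hlim₀ f) (hlim f)
  subst hEE
  -- lower bound for the state
  have hl0 : 0 < T.q / 2 := by positivity
  obtain ⟨P', hP'⟩ := sgExistsStmt V T (T.q / 2) hl0
  obtain ⟨E', hE', hS', hint, hocc⟩ := nuStmt.{u} V T (1 / 2) (by norm_num) (by norm_num)
  have hPh : Sg T (1 / 2 * T.q) P' := by
    have : 1 / 2 * T.q = T.q / 2 := by ring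
    rwa [this]
  have hdom : ∀ f : Ob V, Monotone f → ∫ η, f η ∂(nu V (1 / 2)) ≤ E₀ f := by
    intro f hf
    have h1 := mainA V T (1 / 2) (by norm_num) le_rfl P' hPh f
    exact le_of_tendsto_of_tendsto' h1 (hlim f) fun t =>
      sgCompStmt V T lam (T.q / 2) hl0 hl P P' hP hP' t f hf _
  have hlow : ∀ x, 1 / 2 ≤ E₀ (occ x) := by
    intro x
    have h1 := hdom (occ x) (occ_monotone x)
    rwa [← hint, hocc] at h1
  obtain ⟨hf1, hf2, hf3⟩ := fluxStmt.{u} V T lam hlam E₀ hE hS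
  have hcur : T.q / 4 ≤ flux T E₀ T.o := by
    rw [hf1]
    exact Cur.current_limit hl hP (hlim (occ T.o))
  have hblock := blockStmt.{u} dissStmt fluxStmt V T lam hlam E₀ hE hS
  have hS4 : ∀ S : Ob V, E₀ (S * (1 - S)) ≤ 1 / 4 := by
    intro S
    refine (hE.block_le S).trans ?_
    nlinarith [sq_nonneg (E₀ S - 1 / 2)]
  have hup : ∀ x, flux T E₀ x ≤ T.R x / 4 := by
    intro x
    refine le_of_block (by have := T.R_pos x; positivity) ?_
    intro K hK ε hε
    obtain ⟨N, hN⟩ := hblock x K hK ε hε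
    refine (hN N le_rfl).trans ?_
    have hK0 : (0 : ℝ) < K := by exact_mod_cast hK
    gcongr
    have hsum : ∑ y ∈ T.D x (N + K), T.R y * (1 / 4) = T.R x / 4 := by
      rw [← sum_mul, T.sum_R_D]; ring
    rw [← hsum]
    exact sum_le_sum fun y _ => mul_le_mul_of_nonneg_left (hS4 _) (T.R_pos y).le
  -- sum of the fluxes over a level
  have hlev : ∀ n, ∑ x ∈ T.lv n, flux T E₀ x = flux T E₀ T.o := by
    intro n
    cases n with
    | zero => simp [FT.lv, FT.D]
    | succ n =>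
      rw [← hf3 T.o n]
      refine sum_congr rfl fun x hx => ?_
      refine (hf2 x ?_).symm
      rintro rfl
      have := T.mem_lv.1 hx
      rw [T.lev_o] at this
      omega
  have heq : ∀ x, flux T E₀ x = T.R x / 4 := by
    intro x
    have h1 : ∑ y ∈ T.lv (T.lev x), flux T E₀ y = ∑ y ∈ T.lv (T.lev x), T.R y / 4 := by
      refine le_antisymm (sum_le_sum fun y _ => hup y) ?_
      rw [hlev, ← sum_div, T.sum_R_lv]
      exact hcur
    exact (sum_eq_sum_iff_of_le fun y _ => hup y).1 h1 x (T.mem_lv.2 rfl)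
  have hedge : ∀ y, y ≠ T.o → E₀ (occ (T.par y) * (1 - occ y)) = 1 / 4 := by
    intro y hy
    have h1 := hf2 y hy
    rw [heq] at h1
    have h2 := T.R_pos y
    have h3 : T.R y * E₀ (occ (T.par y) * (1 - occ y)) = T.R y * (1 / 4) := by rw [h1]; ring
    exact mul_left_cancel₀ h2.ne' h3
  refine ⟨hdom, hlow, hedge, ?_, ?_⟩
  · have h1 := heq T.o
    rw [hf1, T.R_o] at h1
    field_simp
    linarith
  -- level averages
  obtain ⟨τ, hτ0, hτ, hτs⟩ := dissStmt.{u} V T lam hlam E₀ hE hS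
  have ht := Block.tend T τ _ hτs T.o
  set a : ℕ → ℝ := fun n => ∑ x ∈ T.lv n, T.R x * (E₀ (occ x) - 1 / 2) with ha
  have ha0 : ∀ n, 0 ≤ a n := fun n => sum_nonneg fun x _ =>
    mul_nonneg (T.R_pos x).le (by have := hlow x; linarith)
  have habs : (fun n => ∑ x ∈ T.lv n, T.R x * |E₀ (occ x) - 1 / 2|) = a := by
    ext n
    refine sum_congr rfl fun x _ => ?_
    rw [abs_of_nonneg (by have := hlow x; linarith)]
  rw [habs]
  have hdiff : ∀ n, a (n + 1) ≤ a n + ∑ y ∈ T.lv (n + 1), T.R y * τ y := by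
    intro n
    have e : a n = ∑ y ∈ T.lv (n + 1), T.R y * (E₀ (occ (T.par y)) - 1 / 2) := by
      rw [T.sum_lv_succ]
      refine sum_congr rfl fun z _ => ?_
      rw [← T.flow z, sum_mul]
      refine sum_congr rfl fun y hy => ?_
      rw [((T.mem_ch z y).1 hy).2]
    rw [e, ← sum_add_distrib]
    refine sum_le_sum fun y hy => ?_
    have hyo : y ≠ T.o := by
      rintro rfl
      have := T.mem_lv.1 hy
      rw [T.lev_o] at this
      omega
    have h1 := hτ y hyo (T.lev y) (occ y) (T.cyl_occ y) (fun η => by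
      simp only [occ_apply]; split_ifs <;> norm_num)
    have h2 : T.W y (occ y) = occ (T.par y) := by
      ext η
      simp only [FT.W_apply, occ_apply, FT.sw, Equiv.swap_apply_left]
    rw [h2] at h1
    have h3 := (abs_le.1 h1).2
    have h4 := T.R_pos y
    nlinarith
  have hτlim : Tendsto (fun n => ∑ y ∈ T.lv n, T.R y * τ y) atTop (𝓝 0) := by
    have h1 : Tendsto (fun n => Real.sqrt (T.q * ∑ z ∈ T.lv n, T.R z * τ z ^ 2)) atTop
        (𝓝 0) := by
      have := (ht.const_mul T.q).sqrt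
      rw [mul_zero, Real.sqrt_zero] at this
      exact this
    refine squeeze_zero (fun n => sum_nonneg fun z _ => mul_nonneg (T.R_pos z).le (hτ0 z))
      (fun n => ?_) h1
    have hcs : (∑ z ∈ T.lv n, T.R z * τ z) ^ 2 ≤
        (∑ z ∈ T.lv n, T.R z) * ∑ z ∈ T.lv n, T.R z * τ z ^ 2 := by
      exact sum_sq_le_sum_mul_sum_of_sq_le_mul (T.lv n) (r := fun z => T.R z * τ z)
        (f := fun z => T.R z) (g := fun z => T.R z * τ z ^ 2)
        (fun z _ => (T.R_pos z).le) (fun z _ => mul_nonneg (T.R_pos z).le (sq_nonneg _))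
        (fun z _ => by apply le_of_eq; ring)
    rw [T.sum_R_lv] at hcs
    exact Real.le_sqrt_of_sq_le hcs
  rw [Metric.tendsto_atTop]
  intro η hη
  -- parameters
  obtain ⟨K, hK⟩ := exists_nat_gt (8 * T.q ^ 2 / η ^ 2)
  have hKpos : (0 : ℝ) < K := lt_of_le_of_lt (by positivity) hK
  have hK1 : 1 ≤ K := by exact_mod_cast hKpos
  set ε : ℝ := η ^ 2 / (32 * T.q) with hε
  have hεpos : 0 < ε := by positivity
  obtain ⟨N₁, hN₁⟩ := hblock T.o K hK1 ε hεpos
  obtain ⟨N₂, hN₂⟩ := eventually_atTop.1 (hτlim.eventually_lt_const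
    (show 0 < η / (4 * K) by positivity))
  refine ⟨N₁ + N₂ + K, fun n hn => ?_⟩
  obtain ⟨k, rfl⟩ : ∃ k, n = k + K := ⟨n - K, by omega⟩
  have hk1 := hN₁ k (by omega)
  rw [heq, T.R_o] at hk1
  -- the block means
  set s : V → ℝ := fun y => E₀ (bl T K y) - 1 / 2 with hs
  have h1 : ∑ y ∈ T.D T.o (k + K), T.R y * E₀ (bl T K y * (1 - bl T K y)) ≤
      T.q / 4 - ∑ y ∈ T.D T.o (k + K), T.R y * s y ^ 2 := by
    have e : T.q / 4 - ∑ y ∈ T.D T.o (k + K), T.R y * s y ^ 2 =
        ∑ y ∈ T.D T.o (k + K), T.R y * (1 / 4 - s y ^ 2) := by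
      have : T.q / 4 = ∑ y ∈ T.D T.o (k + K), T.R y * (1 / 4) := by
        rw [← sum_mul, T.sum_R_D, T.R_o]; ring
      rw [this, ← sum_sub_distrib]
      exact sum_congr rfl fun y _ => by ring
    rw [e]
    refine sum_le_sum fun y _ => mul_le_mul_of_nonneg_left ?_ (T.R_pos y).le
    refine (hE.block_le _).trans (le_of_eq ?_)
    rw [hs]
    ring
  have h2 : ∑ y ∈ T.D T.o (k + K), T.R y * s y ^ 2 ≤ T.q / (4 * (K + 1)) + ε := by
    set Y := ∑ y ∈ T.D T.o (k + K), T.R y * s y ^ 2 with hY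
    have h3 : T.q / 4 ≤ ((K : ℝ) + 1) / K * (T.q / 4 - Y) + ε := by
      refine hk1.trans ?_
      gcongr
    have hK2 : (0 : ℝ) < (K : ℝ) + 1 := by positivity
    have h4 : T.q / 4 * K ≤ (K + 1) * (T.q / 4 - Y) + ε * K := by
      have := mul_le_mul_of_nonneg_right h3 hKpos.le
      calc T.q / 4 * K ≤ (((K : ℝ) + 1) / K * (T.q / 4 - Y) + ε) * K := this
        _ = _ := by field_simp
    have h5 : (K + 1) * Y ≤ T.q / 4 + ε * (K + 1) := by nlinarith
    have h6 : Y ≤ (T.q / 4 + ε * (K + 1)) / (K + 1) := by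
      rw [le_div_iff₀ hK2]; linarith
    refine h6.trans (le_of_eq ?_)
    field_simp
  have h3 : (∑ y ∈ T.D T.o (k + K), T.R y * s y) ^ 2 ≤
      T.q * (T.q / (4 * (K + 1)) + ε) := by
    have hcs : (∑ z ∈ T.D T.o (k + K), T.R z * s z) ^ 2 ≤
        (∑ z ∈ T.D T.o (k + K), T.R z) * ∑ z ∈ T.D T.o (k + K), T.R z * s z ^ 2 := by
      exact sum_sq_le_sum_mul_sum_of_sq_le_mul _ (r := fun z => T.R z * s z)
        (f := fun z => T.R z) (g := fun z => T.R z * s z ^ 2)
        (fun z _ => (T.R_pos z).le) (fun z _ => mul_nonneg (T.R_pos z).le (sq_nonneg _))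
        (fun z _ => by apply le_of_eq; ring)
    rw [T.sum_R_D, T.R_o] at hcs
    exact hcs.trans (mul_le_mul_of_nonneg_left h2 hq.le)
  have h4 : T.q * (T.q / (4 * (K + 1)) + ε) ≤ (η / 4) ^ 2 := by
    have h5 : T.q * (T.q / (4 * (K + 1))) ≤ η ^ 2 / 32 := by
      rw [div_lt_iff₀ (by positivity)] at hK
      rw [mul_div_assoc', div_le_div_iff₀ (by positivity) (by norm_num)]
      nlinarith
    have h6 : T.q * ε = η ^ 2 / 32 := by
      rw [hε]; field_simp
    rw [mul_add, h6]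
    linarith [sq_nonneg η, (by ring : (η / 4) ^ 2 = η ^ 2 / 16)]
  have h5 : ∑ y ∈ T.D T.o (k + K), T.R y * s y ≤ η / 4 :=
    (le_abs_self _).trans (abs_le_of_sq_le_sq (h3.trans h4) (by positivity))
  have h6 : ∑ y ∈ T.D T.o (k + K), T.R y * s y =
      ((K : ℝ) + 1)⁻¹ * ∑ i ∈ range (K + 1), a (k + (K - i)) := by
    have e1 : ∀ y, T.R y * s y = ((K : ℝ) + 1)⁻¹ * ∑ i ∈ range (K + 1),
        T.R y * (E₀ (occ (T.par^[i] y)) - 1 / 2) := by
      intro y
      rw [hs]
      simp only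
      rw [E_bl, ← mul_sum, sum_sub_distrib, sum_const, card_range, nsmul_eq_mul]
      push_cast
      field_simp
    rw [sum_congr rfl fun y _ => e1 y, ← mul_sum, sum_comm]
    congr 1
    refine sum_congr rfl fun i hi => ?_
    rw [mem_range] at hi
    have e2 := Block.push T T.o (k + (K - i)) i (fun z => E₀ (occ z) - 1 / 2)
    have e3 : k + (K - i) + i = k + K := by omega
    rw [e3] at e2
    exact e2
  have h7 := avg_step a (η / (4 * K)) k K (fun m hm _ => by
    have := hdiff m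
    have h8 := hN₂ (m + 1) (by omega)
    linarith) (by positivity)
  rw [← h6] at h7
  have h8 : (K : ℝ) * (η / (4 * K)) = η / 4 := by field_simp
  rw [h8] at h7
  rw [Real.dist_eq, sub_zero, abs_of_nonneg (ha0 _)]
  linarith

end Pool.Agent.H40.Tr
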