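import Pool.Agent.H40.Tr.MainB

/-!
From positive functionals on observables to measures.
-/

namespace Pool.Agent.H40.Tr

open Finset Filter Topology MeasureTheory
open scoped NNReal Nat

universe u

lemma exists_measure {V : Type u} [Countable V] (E : Ob V →ₗ[ℝ] ℝ) (hE : State E) :
    ∃ π : Measure (V → Bool), IsProbabilityMeasure π ∧ ∀ f : Ob V, ∫ η, f η ∂π = E f := by
  let L : CompactlySupportedContinuousMap (V → Bool) ℝ →ₗ[ℝ] ℝ :=
    { toFun := fun f => E f.toContinuousMap
      map_add' := fun f g => by rw [← map_add]; rfl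
      map_smul' := fun c f => by rw [← map_smul]; rfl }
  let Λ : CompactlySupportedContinuousMap (V → Bool) ℝ →ₚ[ℝ] ℝ :=
    PositiveLinearMap.mk₀ L (fun f hf => hE.pos _ (fun η => hf η))
  have h1 : ∀ f : Ob V, ∫ η, f η ∂(RealRMK.rieszMeasure Λ) = E f := by
    intro f
    have := RealRMK.integral_rieszMeasure Λ
      (CompactlySupportedContinuousMap.continuousMapEquiv f)
    exact this
  have h2 := h1 1
  rw [hE.one] at h2
  simp only [ContinuousMap.one_apply, integral_const, smul_eq_mul, mul_one] at h2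
  refine ⟨RealRMK.rieszMeasure Λ, ⟨?_⟩, h1⟩
  rw [Measure.real, ENNReal.toReal_eq_one_iff] at h2
  exact h2

end Pool.Agent.H40.Tr
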