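import Pool.Agent.H40.Tr.Semi5
import Pool.Agent.H40.Tr.Dens

/-!
The semigroup statements.
-/

namespace Pool.Agent.H40.Tr

open Finset Filter Topology
open scoped NNReal Nat

universe u

set_option linter.unusedVariables false

lemma denseT {V : Type u} [DecidableEq V] (T : FT V) : T.Dense :=
  fun f ε hε => denseStmt.{u} V T f ε hε

theorem sgExistsStmt : SgExistsStmt.{u} := fun _ _ T _ hl => FT.Sg_exists (denseT T) hl.le

theorem sgApproxStmt : SgApproxStmt.{u} := fun _ _ T lam hl P hP t f => by
  have := FT.Q_tendsto_P (denseT T) hl.le hP t t.2 f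
  rwa [Real.toNNReal_coe] at this

theorem sgMonoStmt : SgMonoStmt.{u} := fun _ _ T lam hl P hP t f hf =>
  FT.Sg_monotone (denseT T) hl.le hP t hf

theorem sgCompStmt : SgCompStmt.{u} := fun _ _ T lam lam' hl' hll P P' hP hP' t f hf η =>
  FT.Sg_comp (denseT T) hl'.le hll hP hP' t hf η

theorem sgIntStmt : SgIntStmt.{u} := fun V _ T lam hl P hP t m f hf η => by
  have h := FT.Sg_integral (t := (t : ℝ)) hP hf t.2
  rw [Real.toNNReal_coe] at h
  have hcont : Continuous fun s : ℝ => P s.toNNReal (T.L lam (m + 1) f) :=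
    (hP.cont _).comp continuous_real_toNNReal
  have h2 := congrArg (fun g : Ob V => g η) h
  simp only [ContinuousMap.add_apply] at h2
  rw [h2]
  congr 1
  have h3 : IntervalIntegrable (fun s : ℝ => P s.toNNReal (T.L lam (m + 1) f))
      MeasureTheory.volume 0 (t : ℝ) := hcont.intervalIntegrable _ _
  have h4 := (ContinuousMap.evalCLM ℝ η).intervalIntegral_comp_comm h3
  simpa using h4.symm

theorem sgStatStmt : SgStatStmt.{u} := fun _ _ T lam hl P hP E hE hS t f => by
  have := FT.Sg_stat (denseT T) hl.le hP hE hS t t.2 f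
  rwa [Real.toNNReal_coe] at this

end Pool.Agent.H40.Tr
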