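import Pool.Agent.H40.Tr.Core

/-!
Abstract facts about exponentials of bounded operators and a Taylor estimate.
-/

namespace Pool.Agent.H40.Tr

open Finset Filter Topology
open scoped NNReal Nat

set_option linter.unusedSectionVars false

section Abstract

variable {X : Type*} [NormedAddCommGroup X] [NormedSpace ℝ X] [CompleteSpace X]

lemma expOp_zero (A : X →L[ℝ] X) : expOp A 0 = 1 := by
  simp [expOp, NormedSpace.exp_zero]

lemma expOp_add (A : X →L[ℝ] X) (s t : ℝ) : expOp A (s + t) = expOp A s * expOp A t := by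
  unfold expOp
  rw [add_smul]
  let _ : NormedAlgebra ℚ (X →L[ℝ] X) := NormedAlgebra.restrictScalars ℚ ℝ (X →L[ℝ] X)
  apply NormedSpace.exp_add_of_commute
  exact (Commute.refl A).smul_left s |>.smul_right t

lemma expOp_hasDerivAt (A : X →L[ℝ] X) (t : ℝ) : HasDerivAt (expOp A) (expOp A t * A) t := by
  exact hasDerivAt_exp_smul_const (𝕂 := ℝ) A t

lemma expOp_hasDerivAt' (A : X →L[ℝ] X) (t : ℝ) : HasDerivAt (expOp A) (A * expOp A t) t := by
  exact hasDerivAt_exp_smul_const' (𝕂 := ℝ) A t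

lemma expOp_hasDerivAt_apply (A : X →L[ℝ] X) (t : ℝ) (f : X) :
    HasDerivAt (fun s => expOp A s f) (expOp A t (A f)) t := by
  have h := (expOp_hasDerivAt A t)
  have := h.clm_apply (hasDerivAt_const t f)
  simpa using this

lemma expOp_hasDerivAt_apply' (A : X →L[ℝ] X) (t : ℝ) (f : X) :
    HasDerivAt (fun s => expOp A s f) (A (expOp A t f)) t := by
  have h := (expOp_hasDerivAt' A t)
  have := h.clm_apply (hasDerivAt_const t f)
  simpa using this

lemma expOp_hasSum (A : X →L[ℝ] X) (t : ℝ) (f : X) :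
    HasSum (fun k : ℕ => (t ^ k / (k ! : ℝ)) • (A ^ k) f) (expOp A t f) := by
  have h := NormedSpace.exp_series_hasSum_exp' (𝕂 := ℝ) (t • A)
  have h2 := h.mapL (ContinuousLinearMap.apply ℝ X f)
  convert h2 using 1
  · ext k
    simp only [ContinuousLinearMap.apply_apply, smul_pow, _root_.smul_apply]
    rw [smul_smul]
    congr 1
    ring
  · rfl

/-- invariance of a closed convex cone under the exponential. -/
lemma expOp_mem (K : X →L[ℝ] X) (C : Set X) (hC : IsClosed C) (h0 : (0 : X) ∈ C)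
    (hadd : ∀ f ∈ C, ∀ g ∈ C, f + g ∈ C) (hsmul : ∀ a : ℝ, 0 ≤ a → ∀ f ∈ C, a • f ∈ C)
    (hK : ∀ f ∈ C, K f ∈ C) (t : ℝ) (ht : 0 ≤ t) (f : X) (hf : f ∈ C) : expOp K t f ∈ C := by
  have h := (expOp_hasSum K t f).tendsto_sum_nat
  refine hC.mem_of_tendsto h (Eventually.of_forall fun n => ?_)
  have hk : ∀ k : ℕ, (K ^ k) f ∈ C := by
    intro k
    induction k with
    | zero => simpa using hf
    | succ k ih => rw [pow_succ']; exact hK _ ih
  induction n with
  | zero => simpa using h0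
  | succ n ih =>
    rw [sum_range_succ]
    exact hadd _ ih _ (hsmul _ (by positivity) _ (hk n))

lemma expOp_sub_smul (K : X →L[ℝ] X) (a t : ℝ) :
    expOp (K - a • (1 : X →L[ℝ] X)) t = Real.exp (-(t * a)) • expOp K t := by
  unfold expOp
  have h1 : t • (K - a • (1 : X →L[ℝ] X)) = t • K + (-(t * a)) • (1 : X →L[ℝ] X) := by
    rw [smul_sub, smul_smul, neg_smul, sub_eq_add_neg]
  let _ : NormedAlgebra ℚ (X →L[ℝ] X) := NormedAlgebra.restrictScalars ℚ ℝ (X →L[ℝ] X)
  rw [h1, NormedSpace.exp_add_of_commute]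
  · have h2 : NormedSpace.exp ((-(t * a)) • (1 : X →L[ℝ] X)) =
        Real.exp (-(t * a)) • (1 : X →L[ℝ] X) := by
      have := NormedSpace.algebraMap_exp_comm (𝕂 := ℝ) (𝔸 := X →L[ℝ] X) (-(t * a))
      rw [Algebra.algebraMap_eq_smul_one, Algebra.algebraMap_eq_smul_one] at this
      rw [← this, Real.exp_eq_exp_ℝ]
    rw [h2, mul_smul_comm, mul_one]
  · exact (Commute.one_right _).smul_right _

end Abstract

/-- Taylor estimate. -/
lemma taylor_est {X : Type*} [NormedAddCommGroup X] [NormedSpace ℝ X] [CompleteSpace X]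
    (J : ℕ) : ∀ (F : ℕ → ℝ → X) (M : ℝ), (∀ j, j ≤ J → Continuous (F j)) →
    (∀ j < J, ∀ t : ℝ, 0 ≤ t → F j t = F j 0 + ∫ s in (0 : ℝ)..t, F (j + 1) s) →
    (∀ t, 0 ≤ t → ‖F J t‖ ≤ M) → ∀ t : ℝ, 0 ≤ t →
    ‖F 0 t - ∑ j ∈ range J, (t ^ j / (j ! : ℝ)) • F j 0‖ ≤ t ^ J / (J ! : ℝ) * M := by
  induction J with
  | zero =>
    intro F M _ _ hM t ht
    simpa using hM t ht
  | succ J ih =>
    intro F M hc hF hM t ht
    have ih' := ih (fun j => F (j + 1)) M (fun j hj => hc (j + 1) (by omega))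
      (fun j hj t ht => hF (j + 1) (by omega) t ht) hM
    have hcs : ∀ j, j ≤ J + 1 → Continuous fun s : ℝ => (s ^ j / (j ! : ℝ)) • F (j + 1) 0 := by
      intro j _; fun_prop
    have key : F 0 t - ∑ j ∈ range (J + 1), (t ^ j / (j ! : ℝ)) • F j 0 =
        ∫ s in (0 : ℝ)..t, (F 1 s - ∑ j ∈ range J, (s ^ j / (j ! : ℝ)) • F (j + 1) 0) := by
      rw [intervalIntegral.integral_sub ((hc 1 (by omega)).intervalIntegrable _ _)
        (Continuous.intervalIntegrable (by fun_prop) _ _)]
      rw [intervalIntegral.integral_finsetSum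
        (fun j _ => Continuous.intervalIntegrable (by fun_prop) _ _)]
      rw [hF 0 (by omega) t ht, sum_range_succ']
      simp only [intervalIntegral.integral_smul_const]
      have : ∀ j ∈ range J, (t ^ (j + 1) / ((j + 1)! : ℝ)) • F (j + 1) 0 =
          (∫ x in (0 : ℝ)..t, x ^ j / (j ! : ℝ)) • F (j + 1) 0 := by
        intro j _
        congr 1
        rw [intervalIntegral.integral_div, integral_pow]
        rw [Nat.factorial_succ]
        push_cast
        field_simp
        simp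
      rw [sum_congr rfl this]
      simp
      abel
    rw [key]
    have hb : ∀ s ∈ Set.Icc (0 : ℝ) t,
        ‖F 1 s - ∑ j ∈ range J, (s ^ j / (j ! : ℝ)) • F (j + 1) 0‖ ≤ s ^ J / (J ! : ℝ) * M :=
      fun s hs => ih' s hs.1
    calc ‖∫ s in (0 : ℝ)..t, (F 1 s - ∑ j ∈ range J, (s ^ j / (j ! : ℝ)) • F (j + 1) 0)‖
        ≤ ∫ s in (0 : ℝ)..t, s ^ J / (J ! : ℝ) * M := by
          apply intervalIntegral.norm_integral_le_of_norm_le ht
          · exact Eventually.of_forall fun s hs => hb s ⟨hs.1.le, hs.2⟩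
          · exact Continuous.intervalIntegrable (by fun_prop) _ _
      _ = t ^ (J + 1) / ((J + 1)! : ℝ) * M := by
          rw [intervalIntegral.integral_mul_const, intervalIntegral.integral_div, integral_pow]
          rw [Nat.factorial_succ]
          push_cast
          field_simp
          simp

end Pool.Agent.H40.Tr
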