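import Pool.Agent.H40.Tr.Semi1

/-!
Cylinder functions under the generator; truncated semigroups.
-/

namespace Pool.Agent.H40.Tr

open Finset Filter Topology
open scoped NNReal Nat

set_option linter.unusedSectionVars false

namespace FT

variable {V : Type*} [DecidableEq V] (T : FT V)

lemma Cyl.mono {T : FT V} {m n : ℕ} {f : Ob V} (h : T.Cyl m f) (hmn : m ≤ n) : T.Cyl n f :=
  fun η ζ hx => h η ζ fun x hx' => hx x (T.B_mono hmn hx')

lemma act_agree {y : V} {m : ℕ} (η ζ : Cfg V) (hy : y ∈ T.B m)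
    (h : ∀ x ∈ T.B m, η x = ζ x) : ∀ x ∈ T.B m, T.act y η x = T.act y ζ x := by
  intro x hx
  have hpy : y ≠ T.o → T.par y ∈ T.B m := by
    intro hyo
    rw [mem_B] at hy ⊢
    have := T.lev_par y hyo
    omega
  unfold act
  by_cases hyo : y = T.o
  · simp [hyo, h x hx]
  · simp [hyo, h x hx, h y hy, h _ (hpy hyo)]

lemma act_outside {y : V} {m : ℕ} (η : Cfg V) (hy : y ∉ T.B (m + 1)) :
    ∀ x ∈ T.B m, T.act y η x = η x := by
  intro x hx
  rw [mem_B] at hx hy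
  have hyo : y ≠ T.o := by rintro rfl; rw [T.lev_o] at hy; omega
  have := T.lev_par y hyo
  have h1 : x ≠ y := by rintro rfl; omega
  have h2 : x ≠ T.par y := by rintro rfl; omega
  simp [act, hyo, h1, h2]

lemma Cyl.comp_act {T : FT V} {m : ℕ} {f : Ob V} (h : T.Cyl m f) {y : V} (hy : y ∈ T.B m) :
    T.Cyl m (T.A y f) := fun η ζ hx => h _ _ (T.act_agree η ζ hy hx)

lemma Cyl.comp_act_outside {T : FT V} {m : ℕ} {f : Ob V} (h : T.Cyl m f) {y : V}
    (hy : y ∉ T.B (m + 1)) : T.A y f = f := by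
  ext η
  exact h _ _ (T.act_outside η hy)

lemma Cyl.add {T : FT V} {m : ℕ} {f g : Ob V} (hf : T.Cyl m f) (hg : T.Cyl m g) :
    T.Cyl m (f + g) := fun η ζ hx => by
  simp only [ContinuousMap.add_apply]; rw [hf η ζ hx, hg η ζ hx]

lemma Cyl.sub {T : FT V} {m : ℕ} {f g : Ob V} (hf : T.Cyl m f) (hg : T.Cyl m g) :
    T.Cyl m (f - g) := fun η ζ hx => by
  simp only [ContinuousMap.sub_apply]; rw [hf η ζ hx, hg η ζ hx]

lemma Cyl.mul {T : FT V} {m : ℕ} {f g : Ob V} (hf : T.Cyl m f) (hg : T.Cyl m g) :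
    T.Cyl m (f * g) := fun η ζ hx => by
  simp only [ContinuousMap.mul_apply]; rw [hf η ζ hx, hg η ζ hx]

lemma Cyl.smul {T : FT V} {m : ℕ} {f : Ob V} (hf : T.Cyl m f) (a : ℝ) :
    T.Cyl m (a • f) := fun η ζ hx => by
  simp only [ContinuousMap.smul_apply]; rw [hf η ζ hx]

lemma Cyl.one {T : FT V} (m : ℕ) : T.Cyl m 1 := fun _ _ _ => rfl

lemma Cyl.zero {T : FT V} (m : ℕ) : T.Cyl m 0 := fun _ _ _ => rfl

lemma cyl_sum {ι : Type*} (s : Finset ι) (F : ι → Ob V) {m : ℕ}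
    (h : ∀ i ∈ s, T.Cyl m (F i)) : T.Cyl m (∑ i ∈ s, F i) := by
  classical
  induction s using Finset.induction_on with
  | empty => simpa using Cyl.zero m
  | insert a s ha ih =>
    rw [sum_insert ha]
    exact (h a (mem_insert_self _ _)).add (ih fun i hi => h i (mem_insert_of_mem hi))

lemma L_def (lam : ℝ) (n : ℕ) (f : Ob V) :
    T.L lam n f = ∑ y ∈ T.B n, T.c lam y • (T.A y f - f) := by
  simp only [L, _root_.sum_apply]
  rfl

lemma Cyl.L {T : FT V} {m : ℕ} {f : Ob V} (h : T.Cyl m f) (lam : ℝ) :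
    T.Cyl (m + 1) (T.L lam (m + 1) f) := by
  rw [L_def]
  refine T.cyl_sum _ _ fun y hy => Cyl.smul (Cyl.sub ?_ (h.mono (by omega))) _
  exact (h.mono (Nat.le_succ m)).comp_act hy

lemma Cyl.L_eq {T : FT V} {m : ℕ} {f : Ob V} (h : T.Cyl m f) (lam : ℝ) {n : ℕ} (hn : m + 1 ≤ n) :
    T.L lam n f = T.L lam (m + 1) f := by
  rw [L_def, L_def]
  symm
  refine sum_subset (T.B_mono hn) fun y _ hy => ?_
  rw [h.comp_act_outside hy, sub_self, smul_zero]

lemma B_succ (n : ℕ) : T.B (n + 1) = T.B n ∪ T.lv (n + 1) := by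
  ext x
  simp only [mem_union, mem_B, mem_lv]
  omega

lemma sum_B_succ (n : ℕ) (f : V → ℝ) :
    ∑ x ∈ T.B (n + 1), f x = ∑ x ∈ T.B n, f x + ∑ x ∈ T.lv (n + 1), f x := by
  rw [B_succ, sum_union]
  rw [disjoint_left]
  intro x hx hx'
  rw [mem_B] at hx
  rw [mem_lv] at hx'
  omega

lemma B_zero : T.B 0 = {T.o} := by
  ext x
  rw [mem_B, mem_singleton, ← T.lev_eq_zero]
  omega

lemma c_nonneg {lam : ℝ} (hl : 0 ≤ lam) (y : V) : 0 ≤ T.c lam y := by
  unfold c; split_ifs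
  · exact hl
  · exact (T.R_pos y).le

lemma sum_c_B (lam : ℝ) (n : ℕ) : ∑ y ∈ T.B n, T.c lam y = lam + T.q * n := by
  induction n with
  | zero => simp [B_zero, c]
  | succ n ih =>
    rw [sum_B_succ, ih]
    have : ∑ x ∈ T.lv (n + 1), T.c lam x = T.q := by
      rw [← T.sum_R_lv (n + 1)]
      refine sum_congr rfl fun x hx => ?_
      rw [mem_lv] at hx
      have : x ≠ T.o := by rintro rfl; rw [T.lev_o] at hx; omega
      simp [c, this]
    rw [this]; push_cast; ring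

lemma norm_A_le (y : V) (f : Ob V) : ‖T.A y f‖ ≤ ‖f‖ := by
  rw [ContinuousMap.norm_le _ (norm_nonneg _)]
  intro η
  exact f.norm_coe_le_norm _

lemma norm_L_le {lam : ℝ} (hl : 0 ≤ lam) (n : ℕ) (f : Ob V) :
    ‖T.L lam n f‖ ≤ 2 * (lam + T.q * n) * ‖f‖ := by
  rw [L_def]
  calc ‖∑ y ∈ T.B n, T.c lam y • (T.A y f - f)‖
      ≤ ∑ y ∈ T.B n, T.c lam y * (2 * ‖f‖) := by
        refine norm_sum_le_of_le _ fun y _ => ?_
        rw [norm_smul, Real.norm_of_nonneg (T.c_nonneg hl y)]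
        refine mul_le_mul_of_nonneg_left ?_ (T.c_nonneg hl y)
        calc ‖T.A y f - f‖ ≤ ‖T.A y f‖ + ‖f‖ := norm_sub_le _ _
          _ ≤ 2 * ‖f‖ := by linarith [T.norm_A_le y f]
    _ = 2 * (lam + T.q * n) * ‖f‖ := by
        rw [← sum_mul, sum_c_B]; ring

/-- iterates of the generator on cylinder functions. -/
lemma Cyl.L_pow {T : FT V} {m : ℕ} {f : Ob V} (h : T.Cyl m f) (lam : ℝ) {n : ℕ} :
    ∀ j : ℕ, m + j ≤ n → T.Cyl (m + j) ((T.L lam n ^ j) f) := by
  intro j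
  induction j with
  | zero => intro _; simpa using h
  | succ j ih =>
    intro hj
    have h1 := ih (by omega)
    have : (T.L lam n ^ (j + 1)) f = T.L lam n ((T.L lam n ^ j) f) := by
      rw [pow_succ']; rfl
    rw [this, h1.L_eq lam (by omega)]
    exact h1.L lam

lemma Cyl.L_pow_eq {T : FT V} {m : ℕ} {f : Ob V} (h : T.Cyl m f) (lam : ℝ) {n n' : ℕ} :
    ∀ j : ℕ, m + j ≤ n → m + j ≤ n' → (T.L lam n ^ j) f = (T.L lam n' ^ j) f := by
  intro j
  induction j with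
  | zero => intro _ _; simp
  | succ j ih =>
    intro hj hj'
    have h1 := ih (by omega) (by omega)
    have e1 : (T.L lam n ^ (j + 1)) f = T.L lam n ((T.L lam n ^ j) f) := by
      rw [pow_succ']; rfl
    have e2 : (T.L lam n' ^ (j + 1)) f = T.L lam n' ((T.L lam n' ^ j) f) := by
      rw [pow_succ']; rfl
    rw [e1, e2, ← h1, (h.L_pow lam j (by omega)).L_eq lam (n := n) (by omega),
      (h.L_pow lam (n := n) j (by omega)).L_eq lam (n := n') (by omega)]

lemma Cyl.norm_L_pow {T : FT V} {m : ℕ} {f : Ob V} (h : T.Cyl m f) {lam : ℝ} (hl : 0 ≤ lam)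
    {n : ℕ} {M : ℕ} (hM : lam + T.q * (m + 1) ≤ T.q * M) :
    ∀ j : ℕ, m + j ≤ n → ‖(T.L lam n ^ j) f‖ ≤
      (2 * T.q) ^ j * (M.ascFactorial j : ℝ) * ‖f‖ := by
  intro j
  induction j with
  | zero => intro _; simp
  | succ j ih =>
    intro hj
    have h1 := ih (by omega)
    have e1 : (T.L lam n ^ (j + 1)) f = T.L lam n ((T.L lam n ^ j) f) := by
      rw [pow_succ']; rfl
    rw [e1, (h.L_pow lam j (by omega)).L_eq lam (by omega)]
    refine (T.norm_L_le hl _ _).trans ?_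
    have hq := T.q_pos
    have h2 : 2 * (lam + T.q * ((m + j + 1 : ℕ) : ℝ)) ≤ 2 * T.q * (M + j) := by
      push_cast; nlinarith
    calc 2 * (lam + T.q * ((m + j + 1 : ℕ) : ℝ)) * ‖(T.L lam n ^ j) f‖
        ≤ (2 * T.q * (M + j)) * ((2 * T.q) ^ j * (M.ascFactorial j : ℝ) * ‖f‖) := by
          refine mul_le_mul h2 h1 (norm_nonneg _) ?_
          positivity
      _ = _ := by
          rw [Nat.ascFactorial_succ]; push_cast; ring

end FT

end Pool.Agent.H40.Tr
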