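import Pool.Agent.H40.Tr.Semi2

/-!
Truncated semigroups: positivity, contraction, monotonicity, and the basic estimates.
-/

namespace Pool.Agent.H40.Tr

open Finset Filter Topology
open scoped NNReal Nat

set_option linter.unusedSectionVars false

namespace FT

variable {V : Type*} [DecidableEq V] (T : FT V)

/-- the positive part of the truncated generator, with the total rate `a`. -/
noncomputable def KK (lam : ℝ) (n : ℕ) (a : ℝ) : Ob V →L[ℝ] Ob V :=
  T.L lam n + a • (1 : Ob V →L[ℝ] Ob V)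

lemma KK_apply (lam : ℝ) (n : ℕ) (a : ℝ) (f : Ob V) :
    T.KK lam n a f = ∑ y ∈ T.B n, T.c lam y • T.A y f + (a - (lam + T.q * n)) • f := by
  have h1 : T.KK lam n a f = T.L lam n f + a • f := by simp [KK]
  rw [h1, L_def]
  simp only [smul_sub, sum_sub_distrib]
  rw [← sum_smul, sum_c_B, sub_smul]
  abel

lemma Q_eq (lam : ℝ) (n : ℕ) (a t : ℝ) (f : Ob V) :
    T.Q lam n t f = Real.exp (-(t * a)) • expOp (T.KK lam n a) t f := by
  have h : T.L lam n = T.KK lam n a - a • (1 : Ob V →L[ℝ] Ob V) := by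
    simp [KK]
  have h2 : T.Q lam n t = Real.exp (-(t * a)) • expOp (T.KK lam n a) t := by
    unfold Q
    rw [← expOp_sub_smul (T.KK lam n a) a t, ← h]
  rw [h2]; rfl

/-- invariance of closed convex cones under the truncated semigroup. -/
lemma Q_mem {lam : ℝ} (hl : 0 ≤ lam) (n : ℕ) (C : Set (Ob V)) (hC : IsClosed C)
    (h0 : (0 : Ob V) ∈ C)
    (hadd : ∀ f ∈ C, ∀ g ∈ C, f + g ∈ C) (hsmul : ∀ a : ℝ, 0 ≤ a → ∀ f ∈ C, a • f ∈ C)
    (hA : ∀ y, ∀ f ∈ C, T.A y f ∈ C) (t : ℝ) (ht : 0 ≤ t) (f : Ob V) (hf : f ∈ C) :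
    T.Q lam n t f ∈ C := by
  rw [T.Q_eq lam n (lam + T.q * n)]
  refine hsmul _ (Real.exp_pos _).le _ ?_
  refine expOp_mem _ C hC h0 hadd hsmul ?_ t ht f hf
  intro g hg
  rw [KK_apply, sub_self, zero_smul, add_zero]
  have : ∀ s : Finset V, ∑ y ∈ s, T.c lam y • T.A y g ∈ C := by
    intro s
    induction s using Finset.induction_on with
    | empty => simpa using h0
    | insert a s ha ih =>
      rw [sum_insert ha]
      exact hadd _ (hsmul _ (T.c_nonneg hl a) _ (hA a g hg)) _ ih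
  exact this _

lemma cev (η : Cfg V) : Continuous fun f : Ob V => f η := continuous_eval_const η

lemma isClosed_nonneg : IsClosed {f : Ob V | ∀ η, 0 ≤ f η} := by
  rw [Set.ofPred_forall]
  exact isClosed_iInter fun η => isClosed_le continuous_const (cev η)

lemma isClosed_monotone : IsClosed {f : Ob V | Monotone f} := by
  have : {f : Ob V | Monotone f} = ⋂ (η : Cfg V) (ζ : Cfg V) (_ : η ≤ ζ), {f : Ob V | f η ≤ f ζ} := by
    ext f; simp only [Set.mem_ofPred_eq, Set.mem_iInter, Monotone]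
  rw [this]
  exact isClosed_iInter fun η => isClosed_iInter fun ζ => isClosed_iInter fun _ =>
    isClosed_le (cev η) (cev ζ)

lemma Q_nonneg {lam : ℝ} (hl : 0 ≤ lam) (n : ℕ) {t : ℝ} (ht : 0 ≤ t) {f : Ob V}
    (hf : ∀ η, 0 ≤ f η) : ∀ η, 0 ≤ T.Q lam n t f η := by
  refine T.Q_mem hl n {f : Ob V | ∀ η, 0 ≤ f η} isClosed_nonneg (fun η => le_rfl) ?_ ?_ ?_ t ht f hf
  · intro f hf g hg η; exact add_nonneg (hf η) (hg η)
  · intro a ha f hf η; exact mul_nonneg ha (hf η)
  · intro y f hf η; exact hf _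

lemma Q_monotone {lam : ℝ} (hl : 0 ≤ lam) (n : ℕ) {t : ℝ} (ht : 0 ≤ t) {f : Ob V}
    (hf : Monotone f) : Monotone (T.Q lam n t f) := by
  refine T.Q_mem hl n {f : Ob V | Monotone f} isClosed_monotone ?_ ?_ ?_ ?_ t ht f hf
  · intro η ζ _; exact le_rfl
  · intro f hf g hg η ζ h; exact add_le_add (hf h) (hg h)
  · intro a ha f hf η ζ h; exact mul_le_mul_of_nonneg_left (hf h) ha
  · intro y f hf η ζ h; exact hf (T.act_mono y h)

lemma L_one (lam : ℝ) (n : ℕ) : T.L lam n (1 : Ob V) = 0 := by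
  rw [L_def]
  refine sum_eq_zero fun y _ => ?_
  have : T.A y (1 : Ob V) = 1 := rfl
  rw [this, sub_self, smul_zero]

lemma Q_one (lam : ℝ) (n : ℕ) (t : ℝ) : T.Q lam n t (1 : Ob V) = 1 := by
  have h := expOp_hasSum (T.L lam n) t (1 : Ob V)
  have h2 : HasSum (fun k : ℕ => (t ^ k / (k ! : ℝ)) • (T.L lam n ^ k) (1 : Ob V)) (1 : Ob V) := by
    convert hasSum_ite_eq 0 (1 : Ob V) using 2 with k
    rcases Nat.eq_zero_or_pos k with rfl | hk
    · simp
    · obtain ⟨k, rfl⟩ : ∃ j, k = j + 1 := ⟨k - 1, by omega⟩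
      have : (T.L lam n ^ (k + 1)) (1 : Ob V) = (T.L lam n ^ k) (T.L lam n 1) := by
        rw [pow_succ]; rfl
      rw [this, L_one, map_zero]
      simp
  exact h.unique h2

lemma norm_le_of_pos {P : Ob V →L[ℝ] Ob V} (hpos : ∀ f : Ob V, (∀ η, 0 ≤ f η) → ∀ η, 0 ≤ P f η)
    (hone : P 1 = 1) (f : Ob V) : ‖P f‖ ≤ ‖f‖ := by
  rw [ContinuousMap.norm_le _ (norm_nonneg _)]
  intro η
  have h1 := hpos (‖f‖ • (1 : Ob V) - f) (fun ζ => by
    simp only [ContinuousMap.sub_apply, ContinuousMap.smul_apply, ContinuousMap.one_apply,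
      smul_eq_mul, mul_one, sub_nonneg]
    exact (le_abs_self _).trans (f.norm_coe_le_norm ζ)) η
  have h2 := hpos (‖f‖ • (1 : Ob V) + f) (fun ζ => by
    simp only [ContinuousMap.add_apply, ContinuousMap.smul_apply, ContinuousMap.one_apply,
      smul_eq_mul, mul_one]
    have := (neg_abs_le (f ζ))
    have h3 : |f ζ| ≤ ‖f‖ := f.norm_coe_le_norm ζ
    linarith) η
  rw [map_sub, map_smul, hone] at h1
  rw [map_add, map_smul, hone] at h2
  simp only [ContinuousMap.sub_apply, ContinuousMap.add_apply, ContinuousMap.smul_apply,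
    ContinuousMap.one_apply, smul_eq_mul, mul_one] at h1 h2
  rw [Real.norm_eq_abs, abs_le]
  constructor <;> linarith

lemma norm_Q_le {lam : ℝ} (hl : 0 ≤ lam) (n : ℕ) {t : ℝ} (ht : 0 ≤ t) (f : Ob V) :
    ‖T.Q lam n t f‖ ≤ ‖f‖ :=
  norm_le_of_pos (fun _ hf => T.Q_nonneg hl n ht hf) (T.Q_one lam n t) f

lemma Q_add (lam : ℝ) (n : ℕ) (s t : ℝ) (f : Ob V) :
    T.Q lam n (s + t) f = T.Q lam n s (T.Q lam n t f) := by
  have : T.Q lam n (s + t) = T.Q lam n s * T.Q lam n t := expOp_add _ s t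
  rw [this]; rfl

lemma Q_zero (lam : ℝ) (n : ℕ) (f : Ob V) : T.Q lam n 0 f = f := by
  have : T.Q lam n 0 = 1 := expOp_zero _
  rw [this]; rfl

lemma Q_hasDerivAt (lam : ℝ) (n : ℕ) (t : ℝ) (f : Ob V) :
    HasDerivAt (fun s => T.Q lam n s f) (T.Q lam n t (T.L lam n f)) t :=
  expOp_hasDerivAt_apply _ t f

lemma Q_continuous (lam : ℝ) (n : ℕ) (f : Ob V) : Continuous fun s => T.Q lam n s f :=
  continuous_iff_continuousAt.2 fun t => (T.Q_hasDerivAt lam n t f).continuousAt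

lemma Q_integral (lam : ℝ) (n : ℕ) (t : ℝ) (f : Ob V) :
    T.Q lam n t f = f + ∫ s in (0 : ℝ)..t, T.Q lam n s (T.L lam n f) := by
  rw [intervalIntegral.integral_eq_sub_of_hasDerivAt
    (f := fun s => T.Q lam n s f) (fun s _ => T.Q_hasDerivAt lam n s f)
    ((T.Q_continuous lam n _).intervalIntegrable _ _), Q_zero]
  abel

/-- Taylor estimate for the truncated semigroup. -/
lemma Q_taylor {lam : ℝ} (hl : 0 ≤ lam) (n J : ℕ) (f : Ob V) {t : ℝ} (ht : 0 ≤ t) :
    ‖T.Q lam n t f - ∑ j ∈ range J, (t ^ j / (j ! : ℝ)) • (T.L lam n ^ j) f‖ ≤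
      t ^ J / (J ! : ℝ) * ‖(T.L lam n ^ J) f‖ := by
  have := taylor_est J (fun j s => T.Q lam n s ((T.L lam n ^ j) f)) ‖(T.L lam n ^ J) f‖
    (fun j _ => T.Q_continuous lam n _) (fun j _ t _ => by
      rw [T.Q_integral lam n t ((T.L lam n ^ j) f), Q_zero]
      congr 2
      ext s
      rw [pow_succ']; rfl) (fun t ht => T.norm_Q_le hl n ht _) t ht
  simpa [Q_zero] using this

/-- Taylor estimate for any semigroup with the right generator. -/
lemma Sg_integral {T : FT V} {lam : ℝ} {P : ℝ≥0 → Ob V →L[ℝ] Ob V} (hP : Sg T lam P)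
    {m : ℕ} {f : Ob V} (hf : T.Cyl m f) {t : ℝ} (ht : 0 ≤ t) :
    P t.toNNReal f = f + ∫ s in (0 : ℝ)..t, P s.toNNReal (T.L lam (m + 1) f) := by
  have hcont : ∀ g : Ob V, Continuous fun s : ℝ => P s.toNNReal g := fun g =>
    (hP.cont g).comp continuous_real_toNNReal
  have hd : ∀ s ∈ Set.Ioo (0 : ℝ) t, HasDerivWithinAt (fun s : ℝ => P s.toNNReal f)
      (P s.toNNReal (T.L lam (m + 1) f)) (Set.Ioi s) s := by
    intro s hs
    rw [hasDerivWithinAt_iff_tendsto_slope' (by simp)]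
    have h1 := (P s.toNNReal).continuous.tendsto (T.L lam (m + 1) f)
    have h2 := h1.comp (hP.gen m f hf)
    have h3 : Tendsto (fun r : ℝ => (r - s).toNNReal) (𝓝[>] s) (𝓝[>] 0) := by
      rw [tendsto_nhdsWithin_iff]
      constructor
      · have : Tendsto (fun r : ℝ => (r - s).toNNReal) (𝓝 s) (𝓝 ((s - s).toNNReal)) :=
          (continuous_real_toNNReal.comp (continuous_id.sub continuous_const)).tendsto s
        rw [sub_self, Real.toNNReal_zero] at this
        exact this.mono_left nhdsWithin_le_nhds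
      · filter_upwards [self_mem_nhdsWithin] with r hr
        simp only [Set.mem_Ioi, Real.toNNReal_pos, sub_pos]
        exact hr
    refine (h2.comp h3).congr' ?_
    filter_upwards [self_mem_nhdsWithin] with r hr
    have hr' : s < r := hr
    simp only [Function.comp, slope_def_module, map_smul, map_sub]
    rw [Real.coe_toNNReal _ (by linarith)]
    congr 2
    rw [← hP.add, ← Real.toNNReal_add hs.1.le (by linarith)]
    congr 2
    ring_nf
  have key := intervalIntegral.integral_eq_sub_of_hasDeriv_right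
    (f := fun s : ℝ => P s.toNNReal f) (a := 0) (b := t) (hcont f).continuousOn
    (fun s hs => hd s (by simpa [ht] using hs))
    ((hcont _).intervalIntegrable _ _)
  rw [key]
  simp [hP.zero]

lemma Sg_norm_le {T : FT V} {lam : ℝ} {P : ℝ≥0 → Ob V →L[ℝ] Ob V} (hP : Sg T lam P)
    (t : ℝ≥0) (f : Ob V) : ‖P t f‖ ≤ ‖f‖ :=
  norm_le_of_pos (hP.pos t) (hP.one t) f

lemma Sg_taylor {T : FT V} {lam : ℝ} {P : ℝ≥0 → Ob V →L[ℝ] Ob V} (hP : Sg T lam P)
    {m J n : ℕ} (hn : m + J ≤ n) {f : Ob V} (hf : T.Cyl m f) (t : ℝ≥0) :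
    ‖P t f - ∑ j ∈ range J, ((t : ℝ) ^ j / (j ! : ℝ)) • (T.L lam n ^ j) f‖ ≤
      (t : ℝ) ^ J / (J ! : ℝ) * ‖(T.L lam n ^ J) f‖ := by
  have hcont : ∀ g : Ob V, Continuous fun s : ℝ => P s.toNNReal g := fun g =>
    (hP.cont g).comp continuous_real_toNNReal
  have := taylor_est J (fun j s => P s.toNNReal ((T.L lam n ^ j) f)) ‖(T.L lam n ^ J) f‖
    (fun j _ => hcont _) (fun j hj t ht => by
      rw [Sg_integral hP (hf.L_pow lam (n := n) j (by omega)) ht]
      simp only [Real.toNNReal_zero, hP.zero]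
      congr 2
      ext s
      rw [pow_succ', ← (hf.L_pow lam (n := n) j (by omega)).L_eq lam (n := n) (by omega)]; rfl)
      (fun t ht => Sg_norm_le hP _ _) t t.2
  simpa [hP.zero] using this

end FT

end Pool.Agent.H40.Tr
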