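import Pool.Agent.H40.Tr.Semi3

/-!
Convergence of the truncated semigroups.
-/

namespace Pool.Agent.H40.Tr

open Finset Filter Topology
open scoped NNReal Nat

set_option linter.unusedSectionVars false

lemma exists_clm_of_tendsto {X : Type*} [NormedAddCommGroup X] [NormedSpace ℝ X]
    (Q : ℕ → X →L[ℝ] X) (hQ : ∀ n f, ‖Q n f‖ ≤ ‖f‖)
    (h : ∀ f, ∃ g, Tendsto (fun n => Q n f) atTop (𝓝 g)) :
    ∃ P : X →L[ℝ] X, ∀ f, Tendsto (fun n => Q n f) atTop (𝓝 (P f)) := by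
  choose g hg using h
  refine ⟨LinearMap.mkContinuous
    { toFun := g
      map_add' := fun a b => tendsto_nhds_unique (hg (a + b)) (by
        simpa using (hg a).add (hg b))
      map_smul' := fun c a => tendsto_nhds_unique (hg (c • a)) (by
        simpa using (hg a).const_smul c) } 1 (fun f => ?_), hg⟩
  rw [one_mul]
  exact le_of_tendsto (hg f).norm (Eventually.of_forall fun n => hQ n f)

/-- extension of a property from small times to all times. -/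
lemma time_ext (Φ : ℝ → Prop) {t₀ : ℝ} (h0 : 0 < t₀) (h1 : ∀ t, 0 ≤ t → t ≤ t₀ → Φ t)
    (h2 : ∀ s t, 0 ≤ s → 0 ≤ t → Φ s → Φ t → Φ (s + t)) : ∀ t, 0 ≤ t → Φ t := by
  have key : ∀ k : ℕ, ∀ t, 0 ≤ t → t ≤ (k + 1) * t₀ → Φ t := by
    intro k
    induction k with
    | zero => intro t ht h; exact h1 t ht (by simpa using h)
    | succ k ih =>
      intro t ht h
      by_cases hc : t ≤ t₀
      · exact h1 t ht hc
      · push Not at hc
        have := h2 (t - t₀) t₀ (by linarith) h0.le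
          (ih (t - t₀) (by linarith) (by push_cast at h; linarith)) (h1 t₀ h0.le le_rfl)
        simpa using this
  intro t ht
  obtain ⟨k, hk⟩ := exists_nat_gt (t / t₀)
  refine key k t ht ?_
  rw [div_lt_iff₀ h0] at hk
  nlinarith

namespace FT

variable {V : Type*} [DecidableEq V] (T : FT V)

lemma small_bound {T : FT V} {m : ℕ} {f : Ob V} (h : T.Cyl m f) {lam : ℝ} (hl : 0 ≤ lam)
    {M : ℕ} (hM : lam + T.q * (m + 1) ≤ T.q * ((M + 1 : ℕ) : ℝ)) {n J : ℕ} (hn : m + J ≤ n)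
    {t : ℝ} (ht : 0 ≤ t) (ht' : t ≤ 1 / (8 * T.q)) :
    t ^ J / (J ! : ℝ) * ‖(T.L lam n ^ J) f‖ ≤ 2 ^ M * (1 / 2) ^ J * ‖f‖ := by
  have hq := T.q_pos
  have h1 := h.norm_L_pow hl hM J hn
  rw [Nat.ascFactorial_eq_factorial_mul_choose] at h1
  have h2 : ((M + J).choose J : ℝ) ≤ 2 ^ (M + J) := by
    exact_mod_cast Nat.choose_le_two_pow (M + J) J
  have h3 : (0 : ℝ) < (J ! : ℝ) := by positivity
  have h4 : (2 * T.q * t) ≤ 1 / 4 := by
    rw [le_div_iff₀ (by positivity)] at ht'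
    linarith
  have h5 : (2 * T.q * t) ^ J ≤ (1 / 4) ^ J := pow_le_pow_left₀ (by positivity) h4 J
  calc t ^ J / (J ! : ℝ) * ‖(T.L lam n ^ J) f‖
      ≤ t ^ J / (J ! : ℝ) * ((2 * T.q) ^ J * ((J ! * (M + J).choose J : ℕ) : ℝ) * ‖f‖) := by
        gcongr
    _ = (2 * T.q * t) ^ J * ((M + J).choose J : ℝ) * ‖f‖ := by
        push_cast
        field_simp
        ring
    _ ≤ (1 / 4) ^ J * 2 ^ (M + J) * ‖f‖ := by gcongr
    _ = 2 ^ M * (1 / 2) ^ J * ‖f‖ := by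
        have : (1 / 4 : ℝ) ^ J * 2 ^ (M + J) = 2 ^ M * (1 / 2) ^ J := by
          rw [pow_add, show (1 / 2 : ℝ) ^ J = (1 / 4) ^ J * 2 ^ J by
            rw [← mul_pow]; norm_num]
          ring
        rw [this]

lemma exists_M (lam : ℝ) (m : ℕ) : ∃ M : ℕ, lam + T.q * (m + 1) ≤ T.q * ((M + 1 : ℕ) : ℝ) := by
  have hq := T.q_pos
  obtain ⟨M, hM⟩ := exists_nat_gt ((lam + T.q * (m + 1)) / T.q)
  refine ⟨M, ?_⟩
  rw [div_lt_iff₀ hq] at hM
  push_cast
  nlinarith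

lemma exists_J (a : ℝ) {ε : ℝ} (hε : 0 < ε) : ∃ J : ℕ, a * (1 / 2) ^ J ≤ ε := by
  have h : Tendsto (fun J : ℕ => a * (1 / 2 : ℝ) ^ J) atTop (𝓝 (a * 0)) :=
    (tendsto_pow_atTop_nhds_zero_of_lt_one (by norm_num) (by norm_num)).const_mul a
  rw [mul_zero] at h
  obtain ⟨J, hJ⟩ := (h.eventually (ge_mem_nhds hε)).exists
  exact ⟨J, hJ⟩

/-- uniform closeness of any two families satisfying the Taylor estimate. -/
lemma Q_cauchy_cyl {T : FT V} {m : ℕ} {f : Ob V} (h : T.Cyl m f) {lam : ℝ} (hl : 0 ≤ lam)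
    {t : ℝ} (ht : 0 ≤ t) (ht' : t ≤ 1 / (8 * T.q)) {ε : ℝ} (hε : 0 < ε) :
    ∃ N : ℕ, ∀ n ≥ N, ∀ n' ≥ N, ‖T.Q lam n t f - T.Q lam n' t f‖ ≤ ε := by
  obtain ⟨M, hM⟩ := T.exists_M lam m
  obtain ⟨J, hJ⟩ := exists_J (2 * (2 ^ M * ‖f‖)) hε
  refine ⟨m + J, fun n hn n' hn' => ?_⟩
  have h1 := T.Q_taylor hl n J f ht
  have h2 := T.Q_taylor hl n' J f ht
  have e : ∑ j ∈ range J, (t ^ j / (j ! : ℝ)) • (T.L lam n ^ j) f =
      ∑ j ∈ range J, (t ^ j / (j ! : ℝ)) • (T.L lam n' ^ j) f := by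
    refine sum_congr rfl fun j hj => ?_
    rw [mem_range] at hj
    rw [h.L_pow_eq lam (n := n) (n' := n') j (by omega) (by omega)]
  rw [e] at h1
  have h3 := small_bound h hl hM hn ht ht'
  have h4 := small_bound h hl hM hn' ht ht'
  set S := ∑ j ∈ range J, (t ^ j / (j ! : ℝ)) • (T.L lam n' ^ j) f
  calc ‖T.Q lam n t f - T.Q lam n' t f‖ = ‖(T.Q lam n t f - S) - (T.Q lam n' t f - S)‖ := by
        congr 1; abel
    _ ≤ ‖T.Q lam n t f - S‖ + ‖T.Q lam n' t f - S‖ := norm_sub_le _ _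
    _ ≤ 2 ^ M * (1 / 2) ^ J * ‖f‖ + 2 ^ M * (1 / 2) ^ J * ‖f‖ :=
        add_le_add (h1.trans h3) (h2.trans h4)
    _ = 2 * (2 ^ M * ‖f‖) * (1 / 2) ^ J := by ring
    _ ≤ ε := hJ

lemma Q_P_cyl {T : FT V} {m : ℕ} {f : Ob V} (h : T.Cyl m f) {lam : ℝ} (hl : 0 ≤ lam)
    {P : ℝ≥0 → Ob V →L[ℝ] Ob V} (hP : Sg T lam P)
    {t : ℝ} (ht : 0 ≤ t) (ht' : t ≤ 1 / (8 * T.q)) {ε : ℝ} (hε : 0 < ε) :
    ∃ N : ℕ, ∀ n ≥ N, ‖T.Q lam n t f - P t.toNNReal f‖ ≤ ε := by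
  obtain ⟨M, hM⟩ := T.exists_M lam m
  obtain ⟨J, hJ⟩ := exists_J (2 * (2 ^ M * ‖f‖)) hε
  refine ⟨m + J, fun n hn => ?_⟩
  have h1 := T.Q_taylor hl n J f ht
  have h2 := Sg_taylor hP hn h t.toNNReal
  rw [Real.coe_toNNReal _ ht] at h2
  have h3 := small_bound h hl hM hn ht ht'
  set S := ∑ j ∈ range J, (t ^ j / (j ! : ℝ)) • (T.L lam n ^ j) f
  calc ‖T.Q lam n t f - P t.toNNReal f‖ = ‖(T.Q lam n t f - S) - (P t.toNNReal f - S)‖ := by
        congr 1; abel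
    _ ≤ ‖T.Q lam n t f - S‖ + ‖P t.toNNReal f - S‖ := norm_sub_le _ _
    _ ≤ 2 ^ M * (1 / 2) ^ J * ‖f‖ + 2 ^ M * (1 / 2) ^ J * ‖f‖ :=
        add_le_add (h1.trans h3) (h2.trans h3)
    _ = 2 * (2 ^ M * ‖f‖) * (1 / 2) ^ J := by ring
    _ ≤ ε := hJ

/-- Density hypothesis. -/
def Dense (T : FT V) : Prop := ∀ (f : Ob V) (ε : ℝ), 0 < ε →
  ∃ (m : ℕ) (g : Ob V), T.Cyl m g ∧ ‖f - g‖ ≤ ε

/-- convergence of the truncated semigroups for every time and observable. -/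
lemma Q_tendsto {T : FT V} (hD : T.Dense) {lam : ℝ} (hl : 0 ≤ lam) :
    ∀ t : ℝ, 0 ≤ t → ∀ f : Ob V, ∃ g, Tendsto (fun n => T.Q lam n t f) atTop (𝓝 g) := by
  have hq := T.q_pos
  refine time_ext _ (t₀ := 1 / (8 * T.q)) (by positivity) ?_ ?_
  · intro t ht ht' f
    have hc : CauchySeq fun n => T.Q lam n t f := by
      rw [Metric.cauchySeq_iff]
      intro ε hε
      obtain ⟨m, g, hg, hfg⟩ := hD f (ε / 4) (by positivity)
      obtain ⟨N, hN⟩ := Q_cauchy_cyl hg hl ht ht' (ε := ε / 4) (by positivity)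
      refine ⟨N, fun n hn n' hn' => ?_⟩
      rw [dist_eq_norm]
      have e : T.Q lam n t f - T.Q lam n' t f = T.Q lam n t (f - g) +
          (T.Q lam n t g - T.Q lam n' t g) - T.Q lam n' t (f - g) := by
        rw [map_sub, map_sub]; abel
      rw [e]
      calc _ ≤ ‖T.Q lam n t (f - g) + (T.Q lam n t g - T.Q lam n' t g)‖ +
            ‖T.Q lam n' t (f - g)‖ := norm_sub_le _ _
        _ ≤ (‖T.Q lam n t (f - g)‖ + ‖T.Q lam n t g - T.Q lam n' t g‖) +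
            ‖T.Q lam n' t (f - g)‖ := by gcongr; exact norm_add_le _ _
        _ ≤ (ε / 4 + ε / 4) + ε / 4 := by
            gcongr
            · exact (T.norm_Q_le hl n ht _).trans hfg
            · exact hN n hn n' hn'
            · exact (T.norm_Q_le hl n' ht _).trans hfg
        _ < ε := by linarith
    exact cauchySeq_tendsto_of_complete hc
  · intro s t hs ht h1 h2 f
    obtain ⟨g, hg⟩ := h2 f
    obtain ⟨k, hk⟩ := h1 g
    refine ⟨k, ?_⟩
    have h3 : Tendsto (fun n => T.Q lam n s (T.Q lam n t f - g)) atTop (𝓝 0) := by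
      rw [tendsto_zero_iff_norm_tendsto_zero]
      refine squeeze_zero (fun n => norm_nonneg _) (fun n => T.norm_Q_le hl n hs _) ?_
      rw [← tendsto_zero_iff_norm_tendsto_zero]
      simpa using hg.sub_const g
    have h4 := h3.add hk
    rw [zero_add] at h4
    refine h4.congr fun n => ?_
    rw [T.Q_add, map_sub, sub_add_cancel]

lemma Q_tendsto_P {T : FT V} (hD : T.Dense) {lam : ℝ} (hl : 0 ≤ lam)
    {P : ℝ≥0 → Ob V →L[ℝ] Ob V} (hP : Sg T lam P) :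
    ∀ t : ℝ, 0 ≤ t → ∀ f : Ob V,
      Tendsto (fun n => T.Q lam n t f) atTop (𝓝 (P t.toNNReal f)) := by
  have hq := T.q_pos
  refine time_ext _ (t₀ := 1 / (8 * T.q)) (by positivity) ?_ ?_
  · intro t ht ht' f
    rw [Metric.tendsto_atTop]
    intro ε hε
    obtain ⟨m, g, hg, hfg⟩ := hD f (ε / 4) (by positivity)
    obtain ⟨N, hN⟩ := Q_P_cyl hg hl hP ht ht' (ε := ε / 4) (by positivity)
    refine ⟨N, fun n hn => ?_⟩
    rw [dist_eq_norm]
    have e : T.Q lam n t f - P t.toNNReal f = T.Q lam n t (f - g) +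
        (T.Q lam n t g - P t.toNNReal g) - P t.toNNReal (f - g) := by
      rw [map_sub, map_sub]; abel
    rw [e]
    calc _ ≤ ‖T.Q lam n t (f - g) + (T.Q lam n t g - P t.toNNReal g)‖ +
          ‖P t.toNNReal (f - g)‖ := norm_sub_le _ _
      _ ≤ (‖T.Q lam n t (f - g)‖ + ‖T.Q lam n t g - P t.toNNReal g‖) +
          ‖P t.toNNReal (f - g)‖ := by gcongr; exact norm_add_le _ _
      _ ≤ (ε / 4 + ε / 4) + ε / 4 := by
          gcongr
          · exact (T.norm_Q_le hl n ht _).trans hfg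
          · exact hN n hn
          · exact (Sg_norm_le hP _ _).trans hfg
      _ < ε := by linarith
  · intro s t hs ht h1 h2 f
    have hg := h2 f
    have hk := h1 (P t.toNNReal f)
    have h3 : Tendsto (fun n => T.Q lam n s (T.Q lam n t f - P t.toNNReal f)) atTop (𝓝 0) := by
      rw [tendsto_zero_iff_norm_tendsto_zero]
      refine squeeze_zero (fun n => norm_nonneg _) (fun n => T.norm_Q_le hl n hs _) ?_
      rw [← tendsto_zero_iff_norm_tendsto_zero]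
      simpa using hg.sub_const (P t.toNNReal f)
    have h4 := h3.add hk
    rw [zero_add, ← hP.add, ← Real.toNNReal_add hs ht] at h4
    refine h4.congr fun n => ?_
    rw [T.Q_add, map_sub, sub_add_cancel]

/-- uniqueness. -/
lemma Sg_unique {T : FT V} (hD : T.Dense) {lam : ℝ} (hl : 0 ≤ lam)
    {P P' : ℝ≥0 → Ob V →L[ℝ] Ob V} (hP : Sg T lam P) (hP' : Sg T lam P') (t : ℝ≥0) (f : Ob V) :
    P t f = P' t f := by
  have h1 := Q_tendsto_P hD hl hP t t.2 f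
  have h2 := Q_tendsto_P hD hl hP' t t.2 f
  rw [Real.toNNReal_coe] at h1 h2
  exact tendsto_nhds_unique h1 h2

lemma Sg_monotone {T : FT V} (hD : T.Dense) {lam : ℝ} (hl : 0 ≤ lam)
    {P : ℝ≥0 → Ob V →L[ℝ] Ob V} (hP : Sg T lam P) (t : ℝ≥0) {f : Ob V} (hf : Monotone f) :
    Monotone (P t f) := by
  have h1 := Q_tendsto_P hD hl hP t t.2 f
  rw [Real.toNNReal_coe] at h1
  exact isClosed_monotone.mem_of_tendsto h1
    (Eventually.of_forall fun n => T.Q_monotone hl n t.2 hf)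

end FT

end Pool.Agent.H40.Tr
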