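import Pool.Agent.H40.Tr.Semi4

/-!
Comparison in the intensity, invariance of stationary states, existence of the semigroup.
-/

namespace Pool.Agent.H40.Tr

open Finset Filter Topology
open scoped NNReal Nat

set_option linter.unusedSectionVars false

namespace FT

variable {V : Type*} [DecidableEq V] (T : FT V)

lemma KK_nonneg {lam a : ℝ} (hl : 0 ≤ lam) (n : ℕ) (ha : lam + T.q * n ≤ a) {f : Ob V}
    (hf : ∀ η, 0 ≤ f η) : ∀ η, 0 ≤ T.KK lam n a f η := by
  intro η
  rw [KK_apply]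
  simp only [ContinuousMap.add_apply, ContinuousMap.sum_apply, ContinuousMap.smul_apply,
    A_apply, smul_eq_mul]
  refine add_nonneg (sum_nonneg fun y _ => mul_nonneg (T.c_nonneg hl y) (hf _))
    (mul_nonneg (by linarith) (hf _))

lemma KK_monotone {lam a : ℝ} (hl : 0 ≤ lam) (n : ℕ) (ha : lam + T.q * n ≤ a) {f : Ob V}
    (hf : Monotone f) : Monotone (T.KK lam n a f) := by
  intro η ζ h
  rw [KK_apply]
  simp only [ContinuousMap.add_apply, ContinuousMap.sum_apply, ContinuousMap.smul_apply,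
    A_apply, smul_eq_mul]
  refine add_le_add (sum_le_sum fun y _ => ?_) ?_
  · exact mul_le_mul_of_nonneg_left (hf (T.act_mono y h)) (T.c_nonneg hl y)
  · exact mul_le_mul_of_nonneg_left (hf h) (by linarith)

lemma le_act_o (η : Cfg V) : η ≤ T.act T.o η := by
  intro z
  unfold act
  simp only [if_true]
  split_ifs
  · exact le_top
  · exact le_rfl

lemma KK_le_KK {lam lam' a : ℝ} (hll : lam' ≤ lam) (n : ℕ) {f : Ob V} (hf : Monotone f)
    (η : Cfg V) : T.KK lam' n a f η ≤ T.KK lam n a f η := by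
  have e : T.KK lam n a f η - T.KK lam' n a f η = (lam - lam') * (f (T.act T.o η) - f η) := by
    rw [KK_apply, KK_apply]
    simp only [ContinuousMap.add_apply, ContinuousMap.sum_apply, ContinuousMap.smul_apply,
      A_apply, smul_eq_mul]
    have h1 : ∑ y ∈ T.B n, T.c lam y * f (T.act y η) - ∑ y ∈ T.B n, T.c lam' y * f (T.act y η) =
        (lam - lam') * f (T.act T.o η) := by
      rw [← sum_sub_distrib]
      rw [sum_eq_single_of_mem T.o (T.o_mem_B n)]
      · simp [c]; ring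
      · intro y _ hy
        simp [c, hy]
    linear_combination h1
  have h2 := hf (T.le_act_o η)
  nlinarith

lemma pow_KK_le {lam lam' a : ℝ} (hl' : 0 ≤ lam') (hll : lam' ≤ lam) (n : ℕ)
    (ha : lam + T.q * n ≤ a) {f : Ob V} (hf : Monotone f) (k : ℕ) :
    Monotone ((T.KK lam' n a ^ k) f) ∧
      ∀ η, (T.KK lam' n a ^ k) f η ≤ (T.KK lam n a ^ k) f η := by
  induction k with
  | zero => exact ⟨by simpa using hf, fun η => by simp⟩
  | succ k ih =>
    have e1 : (T.KK lam' n a ^ (k + 1)) f = T.KK lam' n a ((T.KK lam' n a ^ k) f) := by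
      rw [pow_succ']; rfl
    have e2 : (T.KK lam n a ^ (k + 1)) f = T.KK lam n a ((T.KK lam n a ^ k) f) := by
      rw [pow_succ']; rfl
    rw [e1, e2]
    refine ⟨T.KK_monotone hl' n (by linarith) ih.1, fun η => ?_⟩
    refine (T.KK_le_KK hll n ih.1 η).trans ?_
    have := T.KK_nonneg (hl'.trans hll) n ha
      (f := (T.KK lam n a ^ k) f - (T.KK lam' n a ^ k) f)
      (fun ζ => by simpa using ih.2 ζ) η
    rw [map_sub] at this
    simpa using this

lemma Q_comp {lam lam' : ℝ} (hl' : 0 ≤ lam') (hll : lam' ≤ lam) (n : ℕ) {t : ℝ} (ht : 0 ≤ t)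
    {f : Ob V} (hf : Monotone f) (η : Cfg V) : T.Q lam' n t f η ≤ T.Q lam n t f η := by
  rw [T.Q_eq lam' n (lam + T.q * n), T.Q_eq lam n (lam + T.q * n)]
  simp only [ContinuousMap.smul_apply, smul_eq_mul]
  refine mul_le_mul_of_nonneg_left ?_ (Real.exp_pos _).le
  have h1 := (expOp_hasSum (T.KK lam' n (lam + T.q * n)) t f).tendsto_sum_nat
  have h2 := (expOp_hasSum (T.KK lam n (lam + T.q * n)) t f).tendsto_sum_nat
  refine le_of_tendsto_of_tendsto' (((cev η).tendsto _).comp h1) (((cev η).tendsto _).comp h2)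
    fun k => ?_
  simp only [Function.comp, ContinuousMap.sum_apply, ContinuousMap.smul_apply, smul_eq_mul]
  refine sum_le_sum fun j _ => mul_le_mul_of_nonneg_left ?_ (by positivity)
  exact (T.pow_KK_le hl' hll n le_rfl hf j).2 η

lemma Sg_comp {T : FT V} (hD : T.Dense) {lam lam' : ℝ} (hl' : 0 ≤ lam') (hll : lam' ≤ lam)
    {P P' : ℝ≥0 → Ob V →L[ℝ] Ob V} (hP : Sg T lam P) (hP' : Sg T lam' P') (t : ℝ≥0) {f : Ob V}
    (hf : Monotone f) (η : Cfg V) : P' t f η ≤ P t f η := by
  have h1 := Q_tendsto_P hD (hl'.trans hll) hP t t.2 f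
  have h2 := Q_tendsto_P hD hl' hP' t t.2 f
  rw [Real.toNNReal_coe] at h1 h2
  exact le_of_tendsto_of_tendsto' (((cev η).tendsto _).comp h2) (((cev η).tendsto _).comp h1)
    fun n => T.Q_comp hl' hll n t.2 hf η

end FT

lemma State.abs_le {V : Type*} {E : Ob V →ₗ[ℝ] ℝ} (hE : State E) (f : Ob V) : |E f| ≤ ‖f‖ := by
  have h1 := hE.pos (‖f‖ • (1 : Ob V) - f) (fun ζ => by
    simp only [ContinuousMap.sub_apply, ContinuousMap.smul_apply, ContinuousMap.one_apply,
      smul_eq_mul, mul_one, sub_nonneg]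
    exact (le_abs_self _).trans (f.norm_coe_le_norm ζ))
  have h2 := hE.pos (‖f‖ • (1 : Ob V) + f) (fun ζ => by
    simp only [ContinuousMap.add_apply, ContinuousMap.smul_apply, ContinuousMap.one_apply,
      smul_eq_mul, mul_one]
    have := (neg_abs_le (f ζ))
    have h3 : |f ζ| ≤ ‖f‖ := f.norm_coe_le_norm ζ
    linarith)
  rw [map_sub, map_smul, hE.one] at h1
  rw [map_add, map_smul, hE.one] at h2
  simp only [smul_eq_mul, mul_one] at h1 h2
  rw [_root_.abs_le]
  constructor <;> linarith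

namespace FT

variable {V : Type*} [DecidableEq V] (T : FT V)

lemma Stat_pow {T : FT V} {lam : ℝ} {E : Ob V →ₗ[ℝ] ℝ} (hS : Stat T lam E) {m n : ℕ} {f : Ob V}
    (hf : T.Cyl m f) {j : ℕ} (hj : m + (j + 1) ≤ n) : E ((T.L lam n ^ (j + 1)) f) = 0 := by
  have e1 : (T.L lam n ^ (j + 1)) f = T.L lam n ((T.L lam n ^ j) f) := by
    rw [pow_succ']; rfl
  rw [e1, (hf.L_pow lam j (by omega)).L_eq lam (by omega)]
  exact hS _ _ (hf.L_pow lam j (by omega))

lemma Sg_stat {T : FT V} (hD : T.Dense) {lam : ℝ} (hl : 0 ≤ lam)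
    {P : ℝ≥0 → Ob V →L[ℝ] Ob V} (hP : Sg T lam P) {E : Ob V →ₗ[ℝ] ℝ} (hE : State E)
    (hS : Stat T lam E) : ∀ t : ℝ, 0 ≤ t → ∀ f : Ob V, E (P t.toNNReal f) = E f := by
  have hq := T.q_pos
  refine time_ext _ (t₀ := 1 / (8 * T.q)) (by positivity) ?_ ?_
  · intro t ht ht' f
    -- cylinder functions first
    have hcyl : ∀ (m : ℕ) (g : Ob V), T.Cyl m g → E (P t.toNNReal g) = E g := by
      intro m g hg
      obtain ⟨M, hM⟩ := T.exists_M lam m
      have key : ∀ ε : ℝ, 0 < ε → |E (P t.toNNReal g) - E g| ≤ ε := by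
        intro ε hε
        obtain ⟨J, hJ⟩ := exists_J (2 ^ M * ‖g‖) hε
        -- use J + 1
        have h1 := Sg_taylor hP (m := m) (J := J + 1) le_rfl hg t.toNNReal
        rw [Real.coe_toNNReal _ ht] at h1
        have h3 := small_bound hg hl hM (J := J + 1) le_rfl ht ht'
        have h4 := (hE.abs_le (P t.toNNReal g - ∑ j ∈ range (J + 1), (t ^ j / (j ! : ℝ)) •
          (T.L lam (m + (J + 1)) ^ j) g)).trans (h1.trans h3)
        rw [map_sub, map_sum, sum_range_succ'] at h4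
        have h5 : ∑ j ∈ range J, E ((t ^ (j + 1) / ((j + 1)! : ℝ)) •
            (T.L lam (m + (J + 1)) ^ (j + 1)) g) = 0 := by
          refine sum_eq_zero fun j hj => ?_
          rw [mem_range] at hj
          rw [map_smul, Stat_pow hS hg (by omega), smul_zero]
        rw [h5] at h4
        simp only [pow_zero, Nat.factorial_zero, Nat.cast_one, div_one, one_smul, zero_add] at h4
        refine h4.trans (le_trans ?_ hJ)
        calc (2 : ℝ) ^ M * (1 / 2) ^ (J + 1) * ‖g‖ = (2 ^ M * ‖g‖) * (1 / 2) ^ J * (1 / 2) := by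
              ring
          _ ≤ (2 ^ M * ‖g‖) * (1 / 2) ^ J * 1 := by gcongr; norm_num
          _ = _ := by ring
      have h6 := le_of_forall_pos_le_add (a := |E (P t.toNNReal g) - E g|) (b := 0)
        (fun ε hε => by simpa using key ε hε)
      have h7 : |E (P t.toNNReal g) - E g| = 0 := le_antisymm h6 (abs_nonneg _)
      linarith [abs_eq_zero.1 h7]
    have key : ∀ ε : ℝ, 0 < ε → |E (P t.toNNReal f) - E f| ≤ 0 + ε := by
      intro ε hε
      obtain ⟨m, g, hg, hfg⟩ := hD f (ε / 2) (by positivity)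
      have e : E (P t.toNNReal f) - E f = E (P t.toNNReal (f - g)) - E (f - g) := by
        rw [map_sub, map_sub, map_sub, hcyl m g hg]; ring
      rw [e]
      have h1 := (hE.abs_le (P t.toNNReal (f - g))).trans (Sg_norm_le hP _ _)
      have h2 := hE.abs_le (f - g)
      calc _ ≤ |E (P t.toNNReal (f - g))| + |E (f - g)| := abs_sub _ _
        _ ≤ 0 + ε := by linarith
    have h6 := le_of_forall_pos_le_add key
    have h7 : |E (P t.toNNReal f) - E f| = 0 := le_antisymm h6 (abs_nonneg _)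
    linarith [abs_eq_zero.1 h7]
  · intro s t hs ht h1 h2 f
    rw [Real.toNNReal_add hs ht, hP.add, h1, h2]

/-- existence. -/
lemma Sg_exists {T : FT V} (hD : T.Dense) {lam : ℝ} (hl : 0 ≤ lam) :
    ∃ P : ℝ≥0 → Ob V →L[ℝ] Ob V, Sg T lam P := by
  have h1 : ∀ t : ℝ≥0, ∃ P : Ob V →L[ℝ] Ob V, ∀ f,
      Tendsto (fun n => T.Q lam n t f) atTop (𝓝 (P f)) := fun t =>
    exists_clm_of_tendsto (fun n => T.Q lam n t) (fun n f => T.norm_Q_le hl n t.2 f)
      (fun f => Q_tendsto hD hl t t.2 f)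
  choose P hP using h1
  have hnorm : ∀ t f, ‖P t f‖ ≤ ‖f‖ := fun t f =>
    le_of_tendsto (hP t f).norm (Eventually.of_forall fun n => T.norm_Q_le hl n t.2 f)
  have hLip : ∀ (m : ℕ) (g : Ob V), T.Cyl m g → ∀ s t : ℝ≥0,
      ‖P t g - P s g‖ ≤ ‖T.L lam (m + 1) g‖ * |(t : ℝ) - s| := by
    intro m g hg s t
    have h2 := ((hP t g).sub (hP s g)).norm
    refine le_of_tendsto h2 ?_
    filter_upwards [eventually_ge_atTop (m + 1)] with n hn
    have h3 : ∀ x ∈ Set.Ici (0 : ℝ), HasDerivWithinAt (fun s => T.Q lam n s g)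
      (T.Q lam n x (T.L lam n g)) (Set.Ici 0) x := fun x _ =>
        (T.Q_hasDerivAt lam n x g).hasDerivWithinAt
    have h5 : ∀ x ∈ Set.Ici (0 : ℝ), ‖T.Q lam n x (T.L lam n g)‖ ≤ ‖T.L lam (m + 1) g‖ := by
      intro x hx
      rw [hg.L_eq lam hn]
      exact T.norm_Q_le hl n hx _
    have h4 := (convex_Ici (0 : ℝ)).norm_image_sub_le_of_norm_hasDerivWithin_le
      (C := ‖T.L lam (m + 1) g‖) h3 h5 (x := (s : ℝ)) (y := (t : ℝ)) s.2 t.2
    simpa [Real.norm_eq_abs] using h4
  refine ⟨P, ⟨?_, ?_, ?_, ?_, ?_, ?_⟩⟩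
  · intro f
    have := hP 0 f
    simp only [NNReal.coe_zero, Q_zero] at this
    exact tendsto_nhds_unique this tendsto_const_nhds
  · intro s t f
    have h2 := hP (s + t) f
    have h3 : Tendsto (fun n => T.Q lam n s (T.Q lam n t f - P t f)) atTop (𝓝 0) := by
      rw [tendsto_zero_iff_norm_tendsto_zero]
      refine squeeze_zero (fun n => norm_nonneg _) (fun n => T.norm_Q_le hl n s.2 _) ?_
      rw [← tendsto_zero_iff_norm_tendsto_zero]
      simpa using (hP t f).sub_const (P t f)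
    have h4 := h3.add (hP s (P t f))
    rw [zero_add] at h4
    refine tendsto_nhds_unique h2 (h4.congr fun n => ?_)
    rw [NNReal.coe_add, T.Q_add, map_sub, sub_add_cancel]
  · intro t f hf
    exact isClosed_nonneg.mem_of_tendsto (hP t f)
      (Eventually.of_forall fun n => T.Q_nonneg hl n t.2 hf)
  · intro t
    have := hP t 1
    simp only [Q_one] at this
    exact tendsto_nhds_unique this tendsto_const_nhds
  · intro f
    rw [Metric.continuous_iff]
    intro s ε hε
    obtain ⟨m, g, hg, hfg⟩ := hD f (ε / 4) (by positivity)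
    refine ⟨ε / (4 * (‖T.L lam (m + 1) g‖ + 1)), by positivity, fun t ht => ?_⟩
    rw [NNReal.dist_eq] at ht
    rw [dist_eq_norm]
    have e : P t f - P s f = P t (f - g) + (P t g - P s g) - P s (f - g) := by
      rw [map_sub, map_sub]; abel
    rw [e]
    have h5 := hLip m g hg s t
    have h6 : ‖T.L lam (m + 1) g‖ * |(t : ℝ) - s| ≤ ε / 4 := by
      calc ‖T.L lam (m + 1) g‖ * |(t : ℝ) - s|
          ≤ (‖T.L lam (m + 1) g‖ + 1) * (ε / (4 * (‖T.L lam (m + 1) g‖ + 1))) := by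
            gcongr
            linarith
        _ = ε / 4 := by field_simp
    calc _ ≤ ‖P t (f - g) + (P t g - P s g)‖ + ‖P s (f - g)‖ := norm_sub_le _ _
      _ ≤ (‖P t (f - g)‖ + ‖P t g - P s g‖) + ‖P s (f - g)‖ := by gcongr; exact norm_add_le _ _
      _ ≤ (ε / 4 + ε / 4) + ε / 4 := by
          gcongr
          · exact (hnorm _ _).trans hfg
          · exact h5.trans h6
          · exact (hnorm _ _).trans hfg
      _ < ε := by linarith
  · intro m f hf
    have hq2 : ∀ t : ℝ≥0, ‖P t f - f - (t : ℝ) • T.L lam (m + 1) f‖ ≤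
        (t : ℝ) ^ 2 / 2 * ‖(T.L lam (m + 2) ^ 2) f‖ := by
      intro t
      have h2 : Tendsto (fun n => ‖T.Q lam n t f - f - (t : ℝ) • T.L lam (m + 1) f‖) atTop
          (𝓝 ‖P t f - f - (t : ℝ) • T.L lam (m + 1) f‖) :=
        (((hP t f).sub_const f).sub_const _).norm
      refine le_of_tendsto h2 ?_
      filter_upwards [eventually_ge_atTop (m + 2)] with n hn
      have h3 := T.Q_taylor hl n 2 f t.2
      simp only [sum_range_succ, range_zero, sum_empty, pow_zero, Nat.factorial_zero,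
        Nat.cast_one, div_one, one_smul, zero_add, pow_one, Nat.factorial_one] at h3
      rw [hf.L_pow_eq lam (n := n) (n' := m + 2) 2 (by omega) (by omega)] at h3
      have h4 : (T.L lam n) f = T.L lam (m + 1) f := hf.L_eq lam (by omega)
      rw [h4] at h3
      have e1 : (T.Q lam n ↑t) f - f - (t : ℝ) • (T.L lam (m + 1)) f =
          (T.Q lam n ↑t) f - ((1 : Ob V →L[ℝ] Ob V) f + (t : ℝ) • (T.L lam (m + 1)) f) := by
        rw [ContinuousLinearMap.one_apply]; abel
      have e2 : (t : ℝ) ^ 2 / 2 = (t : ℝ) ^ 2 / (2 ! : ℕ) := by norm_num [Nat.factorial]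
      rw [e1, e2]
      exact h3
    rw [tendsto_iff_norm_sub_tendsto_zero]
    have hb : Tendsto (fun t : ℝ≥0 => (t : ℝ) / 2 * ‖(T.L lam (m + 2) ^ 2) f‖) (𝓝[>] 0) (𝓝 0) := by
      have : Tendsto (fun t : ℝ≥0 => (t : ℝ) / 2 * ‖(T.L lam (m + 2) ^ 2) f‖) (𝓝 0)
          (𝓝 (((0 : ℝ≥0) : ℝ) / 2 * ‖(T.L lam (m + 2) ^ 2) f‖)) :=
        Continuous.tendsto (by fun_prop) 0
      simp only [NNReal.coe_zero, zero_div, zero_mul] at this
      exact this.mono_left nhdsWithin_le_nhds
    refine squeeze_zero' (Eventually.of_forall fun _ => norm_nonneg _) ?_ hb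
    filter_upwards [self_mem_nhdsWithin] with t ht
    have ht' : (0 : ℝ) < t := ht
    have e : (t : ℝ)⁻¹ • (P t f - f) - T.L lam (m + 1) f =
        (t : ℝ)⁻¹ • (P t f - f - (t : ℝ) • T.L lam (m + 1) f) := by
      rw [smul_sub (t : ℝ)⁻¹ (P t f - f), smul_smul, inv_mul_cancel₀ ht'.ne', one_smul]
    rw [e, norm_smul, Real.norm_of_nonneg (by positivity)]
    calc (t : ℝ)⁻¹ * ‖P t f - f - (t : ℝ) • T.L lam (m + 1) f‖
        ≤ (t : ℝ)⁻¹ * ((t : ℝ) ^ 2 / 2 * ‖(T.L lam (m + 2) ^ 2) f‖) := by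
          gcongr; exact hq2 t
      _ = _ := by field_simp

end FT

end Pool.Agent.H40.Tr
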