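import Pool.Agent.H40.Tr.Core
import Pool.Agent.H40.Tr.GDefs

/-!
Statements of the modules.
-/

namespace Pool.Agent.H40.Tr

open Finset Filter Topology MeasureTheory
open scoped NNReal

universe u

/-- Module SG1 (existence). -/
def SgExistsStmt : Prop := ∀ (V : Type u) [DecidableEq V] (T : FT V) (lam : ℝ), 0 < lam →
  ∃ P : ℝ≥0 → Ob V →L[ℝ] Ob V, Sg T lam P

/-- Module SG2: approximation of any semigroup by the truncated ones. -/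
def SgApproxStmt : Prop := ∀ (V : Type u) [DecidableEq V] (T : FT V) (lam : ℝ), 0 < lam →
  ∀ P : ℝ≥0 → Ob V →L[ℝ] Ob V, Sg T lam P → ∀ (t : ℝ≥0) (f : Ob V),
    Tendsto (fun n : ℕ => T.Q lam n t f) atTop (𝓝 (P t f))

/-- Module SG3: consequences. -/
def SgMonoStmt : Prop := ∀ (V : Type u) [DecidableEq V] (T : FT V) (lam : ℝ), 0 < lam →
  ∀ P : ℝ≥0 → Ob V →L[ℝ] Ob V, Sg T lam P → ∀ (t : ℝ≥0) (f : Ob V),
    Monotone f → Monotone (P t f)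

/-- comparison in the intensity. -/
def SgCompStmt : Prop := ∀ (V : Type u) [DecidableEq V] (T : FT V) (lam lam' : ℝ), 0 < lam' →
  lam' ≤ lam →
  ∀ P P' : ℝ≥0 → Ob V →L[ℝ] Ob V, Sg T lam P → Sg T lam' P' → ∀ (t : ℝ≥0) (f : Ob V),
    Monotone f → ∀ η, P' t f η ≤ P t f η

/-- integrated forward equation. -/
def SgIntStmt : Prop := ∀ (V : Type u) [DecidableEq V] (T : FT V) (lam : ℝ), 0 < lam →
  ∀ P : ℝ≥0 → Ob V →L[ℝ] Ob V, Sg T lam P → ∀ (t : ℝ≥0) (m : ℕ) (f : Ob V), T.Cyl m f →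
    ∀ η, P t f η = f η + ∫ s in (0 : ℝ)..t, P s.toNNReal (T.L lam (m + 1) f) η

/-- stationarity in terms of the generator implies invariance. -/
def SgStatStmt : Prop := ∀ (V : Type u) [DecidableEq V] (T : FT V) (lam : ℝ), 0 < lam →
  ∀ P : ℝ≥0 → Ob V →L[ℝ] Ob V, Sg T lam P → ∀ E : Ob V →ₗ[ℝ] ℝ, State E → Stat T lam E →
    ∀ (t : ℝ≥0) (f : Ob V), E (P t f) = E f

/-- Density of cylinder functions. -/
def DenseStmt : Prop := ∀ (V : Type u) [DecidableEq V] (T : FT V) (f : Ob V) (ε : ℝ), 0 < ε →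
  ∃ (m : ℕ) (g : Ob V), T.Cyl m g ∧ ‖f - g‖ ≤ ε

/-- Module LIM: the limit state from the empty configuration. -/
def LimStmt : Prop := ∀ (V : Type u) [DecidableEq V] (T : FT V) (lam : ℝ), 0 < lam →
  ∀ P : ℝ≥0 → Ob V →L[ℝ] Ob V, Sg T lam P → ∃ E : Ob V →ₗ[ℝ] ℝ, State E ∧ Stat T lam E ∧
    (∀ f : Ob V, Tendsto (fun t => P t f (fun _ => false)) atTop (𝓝 (E f))) ∧
    (∀ E' : Ob V →ₗ[ℝ] ℝ, State E' → Stat T lam E' → ∀ f : Ob V, Monotone f → E f ≤ E' f)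

/-- Module NU: the Bernoulli product measure is stationary. -/
def NuStmt : Prop := ∀ (V : Type u) [DecidableEq V] (T : FT V) (ρ : ℝ), 0 ≤ ρ → ρ ≤ 1 →
  ∃ E : Ob V →ₗ[ℝ] ℝ, State E ∧ Stat T (ρ * T.q) E ∧ (∀ f : Ob V, E f = ∫ η, f η ∂(nu V ρ)) ∧
    ∀ x, E (occ x) = ρ

/-- Module DISS: dissipation bound. -/
def DissStmt : Prop := ∀ (V : Type u) [DecidableEq V] (T : FT V) (lam : ℝ), 0 < lam →
  ∀ E : Ob V →ₗ[ℝ] ℝ, State E → Stat T lam E → ∃ τ : V → ℝ, (∀ y, 0 ≤ τ y) ∧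
    (∀ y, y ≠ T.o → ∀ (m : ℕ) (g : Ob V), T.Cyl m g → (∀ η, 0 ≤ g η ∧ g η ≤ 1) →
      |E g - E (T.W y g)| ≤ τ y) ∧
    ∀ M : ℕ, ∑ y ∈ (T.B M).erase T.o, T.R y * τ y ^ 2 ≤ 2 * (2 * T.q + lam)

/-- the current into the subtree of children of `x`. -/
noncomputable def flux {V : Type*} (T : FT V) (E : Ob V →ₗ[ℝ] ℝ) (x : V) : ℝ :=
  ∑ y ∈ T.ch x, T.R y * E (occ (T.par y) * (1 - occ y))

/-- block density along the `K + 1` last vertices of the path from the root to `y`. -/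
noncomputable def bl {V : Type*} (T : FT V) (K : ℕ) (y : V) : Ob V :=
  ((K : ℝ) + 1)⁻¹ • ∑ i ∈ range (K + 1), occ (T.par^[i] y)

/-- Module BLOCK. -/
def BlockStmt : Prop := ∀ (V : Type u) [DecidableEq V] (T : FT V) (lam : ℝ), 0 < lam →
  ∀ E : Ob V →ₗ[ℝ] ℝ, State E → Stat T lam E → ∀ (x : V) (K : ℕ), 1 ≤ K → ∀ ε : ℝ, 0 < ε →
    ∃ N : ℕ, ∀ k ≥ N, flux T E x ≤
      ((K : ℝ) + 1) / K * ∑ y ∈ T.D x (k + K), T.R y * E (bl T K y * (1 - bl T K y)) + ε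

/-- Flow of the current. -/
def FluxStmt : Prop := ∀ (V : Type u) [DecidableEq V] (T : FT V) (lam : ℝ), 0 < lam →
  ∀ E : Ob V →ₗ[ℝ] ℝ, State E → Stat T lam E →
    flux T E T.o = lam * (1 - E (occ T.o)) ∧
    (∀ x, x ≠ T.o → T.R x * E (occ (T.par x) * (1 - occ x)) = flux T E x) ∧
    (∀ x k, ∑ y ∈ T.D x (k + 1), T.R y * E (occ (T.par y) * (1 - occ y)) = flux T E x)

/-- Module CLOS: if `E ≤ E'` are stationary and the root densities agree, then `E = E'`. -/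
def ClosStmt : Prop := ∀ (V : Type u) [DecidableEq V] (T : FT V) (lam : ℝ), 0 < lam →
  ∀ E E' : Ob V →ₗ[ℝ] ℝ, State E → State E' → Stat T lam E → Stat T lam E' →
    (∀ f : Ob V, Monotone f → E f ≤ E' f) → E (occ T.o) = E' (occ T.o) → ∀ f : Ob V, E f = E' f

/-- Module GR: from the graph to the combinatorial data. -/
def GraphStmt : Prop := ∀ (V : Type u) [DecidableEq V] (G : SimpleGraph V) (o : V)
  (r : V → V → ℝ) (q : ℝ), FlowTree G o r q → ∃ T : FT V, T.o = o ∧ T.q = q ∧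
    (∀ x, T.lev x = G.dist o x) ∧ (∀ x y, ChildOf G o x y ↔ y ∈ T.ch x) ∧
    (∀ x y, ChildOf G o x y → T.R y = r x y) ∧
    ∀ (lam : ℝ) (P : ℝ≥0 → Ob V →L[ℝ] Ob V), IsTasep G o r lam P ↔ Sg T lam P

end Pool.Agent.H40.Tr
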